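import Pool.Agent.N805.DT.C2

/-! # The sine kernel: reproducing property and adding a point to the determinant -/

set_option autoImplicit false

open MeasureTheory Set Filter Topology
open scoped ComplexConjugate

namespace Pool.Agent.N805.OS

open Pool.Agent.N805.DT (S S_zero S_neg S_cont S_eq S_abs sk_S)

lemma S_expand (x y : ℝ) : HasSum (fun n : ℤ => S (x - n) * S (n - y)) (S (x - y)) := by
  have h := sk_S.expand x y
  have h2 := Complex.hasSum_re h
  simpa using h2

lemma S_sq_le (u : ℝ) : S u ^ 2 ≤ 2 / (1 + u ^ 2) := by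
  rw [le_div_iff₀ (by positivity)]
  have h1 := S_abs u
  have h2 : S u ^ 2 ≤ 1 := by rw [← sq_abs]; nlinarith [abs_nonneg (S u)]
  have h3 : S u ^ 2 * u ^ 2 ≤ 1 := by
    rcases eq_or_ne u 0 with h | h
    · rw [h]; norm_num
    · have hpi := Real.pi_gt_three
      have e : S u ^ 2 * u ^ 2 = Real.sin (Real.pi * u) ^ 2 / Real.pi ^ 2 := by
        rw [S_eq h]; field_simp
      rw [e, div_le_one (by positivity)]
      have := Real.sin_sq_le_one (Real.pi * u)
      nlinarith
  nlinarith

lemma shift_le {b x v : ℝ} (hx : |x| ≤ b) : 1 / (1 + (v - x) ^ 2) ≤ (2 + 2 * b ^ 2) / (1 + v ^ 2) := by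
  rw [div_le_div_iff₀ (by positivity) (by positivity), one_mul]
  have h1 : x ^ 2 ≤ b ^ 2 := by rw [← sq_abs]; exact pow_le_pow_left₀ (abs_nonneg _) hx 2
  nlinarith [sq_nonneg (v - 2 * x), mul_nonneg (sq_nonneg b) (sq_nonneg (v - x))]

lemma SS_le {b x y : ℝ} (hx : |x| ≤ b) (hy : |y| ≤ b) (v : ℝ) :
    |S (v - x) * S (v - y)| ≤ (4 + 4 * b ^ 2) / (1 + v ^ 2) := by
  have h1 := S_sq_le (v - x)
  have h2 := S_sq_le (v - y)
  have h3 := shift_le (v := v) hx
  have h4 := shift_le (v := v) hy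
  have h5 : |S (v - x) * S (v - y)| ≤ (S (v - x) ^ 2 + S (v - y) ^ 2) / 2 := by
    rw [abs_mul, ← sq_abs (S (v - x)), ← sq_abs (S (v - y))]
    nlinarith [sq_nonneg (|S (v - x)| - |S (v - y)|)]
  have e1 : 2 / (1 + (v - x) ^ 2) = 2 * (1 / (1 + (v - x) ^ 2)) := by ring
  have e2 : 2 / (1 + (v - y) ^ 2) = 2 * (1 / (1 + (v - y) ^ 2)) := by ring
  have e3 : (4 + 4 * b ^ 2) / (1 + v ^ 2) = 2 * ((2 + 2 * b ^ 2) / (1 + v ^ 2)) := by ring
  rw [e1] at h1
  rw [e2] at h2
  rw [e3]
  linarith

lemma inv_int' : Integrable fun x : ℝ => 1 / (1 + x ^ 2) := by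
  simpa [one_div] using integrable_inv_one_add_sq

lemma SS_int (x y : ℝ) : Integrable fun v => S (v - x) * S (v - y) := by
  obtain ⟨b, hb⟩ : ∃ b : ℝ, b = max |x| |y| := ⟨_, rfl⟩
  refine (inv_int'.const_mul (4 + 4 * b ^ 2)).mono' ?_ (ae_of_all _ fun v => ?_)
  · exact ((S_cont.comp (continuous_id.sub continuous_const)).mul
      (S_cont.comp (continuous_id.sub continuous_const))).aestronglyMeasurable
  · rw [Real.norm_eq_abs, mul_one_div]
    exact SS_le (by rw [hb]; exact le_max_left _ _) (by rw [hb]; exact le_max_right _ _) v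

/-- the reproducing property -/
theorem S_reprod (x y : ℝ) : ∫ v, S (v - x) * S (v - y) = S (x - y) := by
  have hi := SS_int x y
  have h1 := hi.hasSum_intervalIntegral_comp_add_int
  have h2 := hi.norm.hasSum_intervalIntegral_comp_add_int
  have hint : ∀ n : ℤ, Integrable (fun v : ℝ => S (v + n - x) * S (v + n - y))
      (volume.restrict (Ioc (0 : ℝ) 1)) := by
    intro n
    have : Continuous fun v : ℝ => S (v + n - x) * S (v + n - y) :=
      (S_cont.comp (by fun_prop)).mul (S_cont.comp (by fun_prop))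
    exact (this.integrableOn_Icc).mono_set Ioc_subset_Icc_self
  have h3 := hasSum_integral_of_summable_integral_norm (μ := volume.restrict (Ioc (0 : ℝ) 1))
    (F := fun (n : ℤ) (v : ℝ) => S (v + n - x) * S (v + n - y)) hint (by
      refine h2.summable.congr fun n => ?_
      rw [intervalIntegral.integral_of_le zero_le_one])
  have h4 : ∀ v : ℝ, ∑' n : ℤ, S (v + n - x) * S (v + n - y) = S (x - y) := by
    intro v
    have h5 := (S_expand (x - v) (y - v)).tsum_eq
    rw [show x - v - (y - v) = x - y by ring] at h5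
    rw [← h5]
    refine tsum_congr fun n => ?_
    rw [← S_neg (v + n - x), show -(v + (n : ℝ) - x) = x - v - n by ring,
      show v + (n : ℝ) - y = n - (y - v) by ring]
  simp_rw [h4] at h3
  have h6 : HasSum (fun n : ℤ => ∫ v in (0 : ℝ)..1, S (v + n - x) * S (v + n - y)) (S (x - y)) := by
    have e : ∫ _v in Ioc (0 : ℝ) 1, S (x - y) = S (x - y) := by
      rw [setIntegral_const]; simp
    rw [e] at h3
    refine h3.congr_fun fun n => ?_
    rw [intervalIntegral.integral_of_le zero_le_one]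
  exact h1.unique h6

/-- the matrix of the sine kernel -/
noncomputable def Sm {n : ℕ} (q : Fin n → ℝ) : Matrix (Fin n) (Fin n) ℝ :=
  Matrix.of fun i j => S (q i - q j)

/-- the determinant of the sine kernel -/
noncomputable def D {n : ℕ} (q : Fin n → ℝ) : ℝ := (Sm q).det

/-- rank one perturbations -/
lemma det_rank_one {n : ℕ} (A : Matrix (Fin n) (Fin n) ℝ) (u v : Fin n → ℝ) :
    (A + Matrix.vecMulVec u v).det = A.det + ∑ i, ∑ j, v i * A.adjugate i j * u j := by
  have key : ∀ B : Matrix (Fin n) (Fin n) ℝ, B.det ≠ 0 →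
      (B + Matrix.vecMulVec u v).det = B.det + ∑ i, ∑ j, v i * B.adjugate i j * u j := by
    intro B hB
    have h1 := Matrix.det_add_replicateCol_mul_replicateRow (ι := Unit) (Ne.isUnit hB) u v
    have e1 : Matrix.replicateCol Unit u * Matrix.replicateRow Unit v = Matrix.vecMulVec u v := by
      ext i j
      simp [Matrix.mul_apply, Matrix.vecMulVec_apply]
    rw [e1] at h1
    rw [h1]
    have e2 : (1 + Matrix.replicateRow Unit v * B⁻¹ * Matrix.replicateCol Unit u).det =
        1 + ∑ i, ∑ j, v i * B⁻¹ i j * u j := by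
      rw [Matrix.det_unique]
      simp only [Matrix.add_apply, Matrix.one_apply_eq, Matrix.mul_apply, Matrix.replicateRow_apply,
        Matrix.replicateCol_apply]
      rw [Finset.sum_comm]
      simp only [Finset.sum_mul]
    rw [e2, mul_add, mul_one]
    congr 1
    rw [Finset.mul_sum]
    refine Finset.sum_congr rfl fun i _ => ?_
    rw [Finset.mul_sum]
    refine Finset.sum_congr rfl fun j _ => ?_
    rw [Matrix.inv_def, Matrix.smul_apply, smul_eq_mul, Ring.inverse_eq_inv']
    field_simp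
  have hdense : Dense {t : ℝ | (A + t • (1 : Matrix (Fin n) (Fin n) ℝ)).det ≠ 0} := by
    have hfin : {t : ℝ | (A + t • (1 : Matrix (Fin n) (Fin n) ℝ)).det = 0}.Finite := by
      have hp := (-A).charpoly_monic.ne_zero
      refine ((-A).charpoly.roots.toFinset.finite_toSet).subset fun t ht => ?_
      rw [Finset.mem_coe, Multiset.mem_toFinset, Polynomial.mem_roots hp, Polynomial.IsRoot,
        Matrix.eval_charpoly]
      have : Matrix.scalar (Fin n) t - -A = A + t • (1 : Matrix (Fin n) (Fin n) ℝ) := by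
        rw [sub_neg_eq_add, add_comm, Matrix.scalar_apply, Matrix.smul_one_eq_diagonal]
      rw [this]
      exact ht
    have : {t : ℝ | (A + t • (1 : Matrix (Fin n) (Fin n) ℝ)).det ≠ 0} =
        {t : ℝ | (A + t • (1 : Matrix (Fin n) (Fin n) ℝ)).det = 0}ᶜ := rfl
    rw [this]
    exact hfin.countable.dense_compl ℝ
  have hB : Continuous fun t : ℝ => A + t • (1 : Matrix (Fin n) (Fin n) ℝ) := by fun_prop
  have c1 : Continuous fun t : ℝ => (A + t • (1 : Matrix (Fin n) (Fin n) ℝ) +
      Matrix.vecMulVec u v).det := (hB.add continuous_const).matrix_det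
  have c2 : Continuous fun t : ℝ => (A + t • (1 : Matrix (Fin n) (Fin n) ℝ)).det +
      ∑ i, ∑ j, v i * (A + t • (1 : Matrix (Fin n) (Fin n) ℝ)).adjugate i j * u j := by
    refine hB.matrix_det.add (continuous_finset_sum _ fun i _ => continuous_finset_sum _ fun j _ => ?_)
    exact (continuous_const.mul (hB.matrix_adjugate.matrix_elem i j)).mul continuous_const
  have h := congrFun (Continuous.ext_on hdense c1 c2 fun t ht => key _ ht) 0
  simpa using h

/-- adding a point -/
theorem D_cons {n : ℕ} (v : ℝ) (q : Fin n → ℝ) : D (Fin.cons v q : Fin (n + 1) → ℝ) = D q -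
    ∑ i, ∑ j, (Sm q).adjugate i j * (S (v - q i) * S (v - q j)) := by
  obtain ⟨e, he⟩ : ∃ e : Unit ⊕ Fin n ≃ Fin (n + 1), (∀ u, e (Sum.inl u) = 0) ∧
      ∀ i, e (Sum.inr i) = i.succ := by
    refine ⟨(Equiv.sumComm _ _).trans ((Equiv.optionEquivSumPUnit (Fin n)).symm.trans
      (finSuccEquiv n).symm), fun u => ?_, fun i => ?_⟩
    · simp
    · simp
  have h1 := Matrix.det_submatrix_equiv_self e (Sm (Fin.cons v q : Fin (n + 1) → ℝ))
  have h2 : (Sm (Fin.cons v q : Fin (n + 1) → ℝ)).submatrix e e = Matrix.fromBlocks 1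
      (Matrix.replicateRow Unit fun j => S (v - q j)) (Matrix.replicateCol Unit fun i => S (v - q i))
      (Sm q) := by
    ext i j
    rcases i with i | i <;> rcases j with j | j
    · simp [Sm, he.1, S_zero]
    · simp [Sm, he.1, he.2]
    · simp only [Sm, he.1, he.2, Matrix.submatrix_apply, Matrix.of_apply, Fin.cons_succ,
        Fin.cons_zero, Matrix.fromBlocks_apply₂₁, Matrix.replicateCol_apply]
      rw [← S_neg]
      congr 1
      ring
    · simp [Sm, he.2]
  unfold D
  rw [← h1, h2, Matrix.det_fromBlocks_one₁₁]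
  have h3 : Sm q - Matrix.replicateCol Unit (fun i => S (v - q i)) *
      Matrix.replicateRow Unit (fun j => S (v - q j)) =
      Sm q + Matrix.vecMulVec (fun i => -S (v - q i)) (fun j => S (v - q j)) := by
    ext i j
    simp [Matrix.mul_apply, Matrix.vecMulVec_apply, sub_eq_add_neg]
  rw [h3, det_rank_one, sub_eq_add_neg, ← Finset.sum_neg_distrib]
  congr 1
  refine Finset.sum_congr rfl fun i _ => ?_
  rw [← Finset.sum_neg_distrib]
  refine Finset.sum_congr rfl fun j _ => ?_
  ring

lemma adj_trace {n : ℕ} (q : Fin n → ℝ) :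
    ∑ i, ∑ j, (Sm q).adjugate i j * S (q i - q j) = n * D q := by
  have h := congrArg Matrix.trace (Matrix.adjugate_mul (Sm q))
  rw [Matrix.trace_smul, Matrix.trace_one, Fintype.card_fin] at h
  unfold D
  rw [smul_eq_mul, mul_comm] at h
  rw [← h]
  unfold Matrix.trace
  refine Finset.sum_congr rfl fun i _ => ?_
  rw [Matrix.diag_apply, Matrix.mul_apply]
  refine Finset.sum_congr rfl fun j _ => ?_
  unfold Sm
  rw [Matrix.of_apply, ← S_neg (q i - q j)]
  congr 2
  ring

lemma Sm_cont {n : ℕ} : Continuous fun q : Fin n → ℝ => Sm q := by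
  unfold Sm
  refine continuous_matrix fun i j => ?_
  simp only [Matrix.of_apply]
  exact S_cont.comp (by fun_prop)

lemma D_cont {n : ℕ} : Continuous fun q : Fin n → ℝ => D q := Sm_cont.matrix_det

/-- the entries of the adjugate are bounded on bounded sets -/
lemma adj_bdd (n : ℕ) (b : ℝ) : ∃ K : ℝ, 0 ≤ K ∧ ∀ q : Fin n → ℝ, (∀ i, |q i| ≤ b) →
    ∀ i j, |(Sm q).adjugate i j| ≤ K := by
  have hK : IsCompact (Icc (fun _ : Fin n => -b) fun _ => b) := isCompact_Icc
  have hc : ∀ i j, Continuous fun q : Fin n → ℝ => (Sm q).adjugate i j := fun i j =>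
    (Sm_cont.matrix_adjugate).matrix_elem i j
  have h1 : ∀ i j, ∃ K : ℝ, ∀ q ∈ Icc (fun _ : Fin n => -b) fun _ => b,
      ‖(Sm q).adjugate i j‖ ≤ K := fun i j =>
    hK.exists_bound_of_continuousOn (hc i j).continuousOn
  choose K hK1 using h1
  refine ⟨∑ i, ∑ j, |K i j|, by positivity, fun q hq i j => ?_⟩
  have h2 := hK1 i j q ⟨fun i => (abs_le.1 (hq i)).1, fun i => (abs_le.1 (hq i)).2⟩
  rw [Real.norm_eq_abs] at h2
  refine h2.trans ((le_abs_self _).trans ?_)
  have h3 : |K i j| ≤ ∑ j, |K i j| := Finset.single_le_sum (f := fun j => |K i j|)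
    (fun _ _ => abs_nonneg _) (Finset.mem_univ j)
  exact h3.trans (Finset.single_le_sum (f := fun i => ∑ j, |K i j|)
    (fun _ _ => Finset.sum_nonneg fun _ _ => abs_nonneg _) (Finset.mem_univ i))

/-- adding a point and integrating against a weight -/
theorem D_weight (n : ℕ) (b : ℝ) : ∃ K : ℝ, 0 ≤ K ∧ ∀ (q : Fin n → ℝ), (∀ i, |q i| ≤ b) →
    (∀ v : ℝ, |D q - D (Fin.cons v q : Fin (n + 1) → ℝ)| ≤ K / (1 + v ^ 2)) ∧
    ∀ (f : ℝ → ℝ), Continuous f → (∀ v, 0 ≤ f v ∧ f v ≤ 1) →
    |(∫ v, f v * (D q - D (Fin.cons v q : Fin (n + 1) → ℝ))) - n * D q| ≤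
      K * ∫ v, (1 - f v) / (1 + v ^ 2) := by
  obtain ⟨K0, hK0, hadj⟩ := adj_bdd n b
  refine ⟨n * (n * (K0 * (4 + 4 * b ^ 2))), by positivity, fun q hq => ?_⟩
  have hdif : ∀ v : ℝ, D q - D (Fin.cons v q : Fin (n + 1) → ℝ) =
      ∑ i, ∑ j, (Sm q).adjugate i j * (S (v - q i) * S (v - q j)) := by
    intro v
    rw [D_cons]
    ring
  have hone : ∀ (v : ℝ) (i j : Fin n), |(Sm q).adjugate i j * (S (v - q i) * S (v - q j))| ≤
      K0 * (4 + 4 * b ^ 2) / (1 + v ^ 2) := by
    intro v i j
    rw [abs_mul, mul_div_assoc]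
    exact mul_le_mul (hadj q hq i j) (SS_le (hq i) (hq j) v) (abs_nonneg _) hK0
  have hbd : ∀ v : ℝ, |D q - D (Fin.cons v q : Fin (n + 1) → ℝ)| ≤
      n * (n * (K0 * (4 + 4 * b ^ 2))) / (1 + v ^ 2) := by
    intro v
    rw [hdif]
    refine (Finset.abs_sum_le_sum_abs _ _).trans ?_
    have h1 : ∀ i ∈ (Finset.univ : Finset (Fin n)),
        |∑ j, (Sm q).adjugate i j * (S (v - q i) * S (v - q j))| ≤
          n * (K0 * (4 + 4 * b ^ 2) / (1 + v ^ 2)) := by
      intro i _
      refine (Finset.abs_sum_le_sum_abs _ _).trans ?_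
      refine (Finset.sum_le_sum fun j _ => hone v i j).trans (le_of_eq ?_)
      simp
    refine (Finset.sum_le_sum h1).trans (le_of_eq ?_)
    simp
    ring
  refine ⟨hbd, fun f hf hf1 => ?_⟩
  have hcD : Continuous fun v : ℝ => D q - D (Fin.cons v q : Fin (n + 1) → ℝ) := by
    refine continuous_const.sub (D_cont.comp ?_)
    refine continuous_pi fun i => ?_
    refine Fin.cases ?_ (fun i => ?_) i
    · simp only [Fin.cons_zero]
      exact continuous_id
    · simp only [Fin.cons_succ]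
      exact continuous_const
  have hiD : Integrable fun v : ℝ => D q - D (Fin.cons v q : Fin (n + 1) → ℝ) := by
    refine (inv_int'.const_mul (n * (n * (K0 * (4 + 4 * b ^ 2))))).mono' hcD.aestronglyMeasurable
      (ae_of_all _ fun v => ?_)
    rw [Real.norm_eq_abs, mul_one_div]
    exact hbd v
  have hifD : Integrable fun v : ℝ => f v * (D q - D (Fin.cons v q : Fin (n + 1) → ℝ)) := by
    refine hiD.bdd_mul (c := 1) hf.aestronglyMeasurable (ae_of_all _ fun v => ?_)
    rw [Real.norm_eq_abs, abs_of_nonneg (hf1 v).1]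
    exact (hf1 v).2
  have htot : ∫ v, (D q - D (Fin.cons v q : Fin (n + 1) → ℝ)) = n * D q := by
    simp_rw [hdif]
    rw [integral_finset_sum _ fun i _ => integrable_finset_sum _ fun j _ =>
      (SS_int (q i) (q j)).const_mul _, ← adj_trace]
    refine Finset.sum_congr rfl fun i _ => ?_
    rw [integral_finset_sum _ fun j _ => (SS_int (q i) (q j)).const_mul _]
    refine Finset.sum_congr rfl fun j _ => ?_
    rw [integral_const_mul, S_reprod]
  have hi1 : Integrable fun v : ℝ => (1 - f v) / (1 + v ^ 2) := by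
    have h := inv_int'.bdd_mul (c := 1) (f := fun v => 1 - f v)
      (continuous_const.sub hf).aestronglyMeasurable (ae_of_all _ fun v => by
        rw [Real.norm_eq_abs, abs_of_nonneg (by linarith [(hf1 v).2])]
        linarith [(hf1 v).1])
    refine h.congr (ae_of_all _ fun v => ?_)
    simp only
    rw [mul_one_div]
  rw [← htot, ← integral_sub hifD hiD, ← integral_const_mul]
  have e1 : ∀ v : ℝ, f v * (D q - D (Fin.cons v q : Fin (n + 1) → ℝ)) -
      (D q - D (Fin.cons v q : Fin (n + 1) → ℝ)) =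
      -((1 - f v) * (D q - D (Fin.cons v q : Fin (n + 1) → ℝ))) := fun v => by ring
  simp_rw [e1]
  rw [← Real.norm_eq_abs]
  refine norm_integral_le_of_norm_le (hi1.const_mul _) (ae_of_all _ fun v => ?_)
  rw [norm_neg, norm_mul, Real.norm_eq_abs, Real.norm_eq_abs,
    abs_of_nonneg (by linarith [(hf1 v).2] : (0 : ℝ) ≤ 1 - f v)]
  calc (1 - f v) * |D q - D (Fin.cons v q : Fin (n + 1) → ℝ)| ≤
      (1 - f v) * (n * (n * (K0 * (4 + 4 * b ^ 2))) / (1 + v ^ 2)) :=
        mul_le_mul_of_nonneg_left (hbd v) (by linarith [(hf1 v).2])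
    _ = _ := by ring

end Pool.Agent.N805.OS
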