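import Pool.Agent.Y749.Rig.RHb
import Pool.Agent.N805.FL

/-! # Products of admissible test functions, slowly decaying averages of Fejer kernels -/

set_option autoImplicit false

open MeasureTheory Set Filter Topology
open Complex (I)

namespace Pool.Agent.N805.OS

open Pool.Agent.Y749.Rig

variable {κ κ' : ℝ} {ψ ψ' : ℝ → ℝ}

lemma conv_pt (a b : ℝ) : 1 / (1 + a ^ 2) * (1 / (1 + b ^ 2)) ≤
    2 / (1 + (a + b) ^ 2) * (1 / (1 + a ^ 2) + 1 / (1 + b ^ 2)) := by
  have e : 1 / (1 + a ^ 2) + 1 / (1 + b ^ 2) = (2 + a ^ 2 + b ^ 2) / ((1 + a ^ 2) * (1 + b ^ 2)) := by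
    field_simp
    ring
  rw [e, div_mul_div_comm, div_mul_div_comm, one_mul, div_le_div_iff₀ (by positivity) (by positivity)]
  have h : 1 + (a + b) ^ 2 ≤ 2 * (2 + a ^ 2 + b ^ 2) := by nlinarith [sq_nonneg (a - b)]
  have h2 : 0 ≤ (1 + a ^ 2) * (1 + b ^ 2) := by positivity
  nlinarith

lemma FL_mul (h : Adm κ ψ) (h' : Adm κ' ψ') (z : ℂ) :
    FL (fun α => ψ α * ψ' α) z = ∫ s : ℝ, (fl ψ s : ℂ) * FL ψ' (z - s) := by
  unfold FL
  have hψ : ∀ α : ℝ, (ψ α : ℂ) = ∫ s : ℝ, (fl ψ s : ℂ) * Complex.exp (-(2 * Real.pi * I * α * s)) := by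
    intro α
    rw [← inv_four h α, ← fl_even, ← FL_real (fl_int h) (fun x => fl_even x)]
    unfold FL
    refine integral_congr_ae (ae_of_all _ fun s => ?_)
    simp only
    congr 2
    push_cast
    ring
  have e1 : ∀ α : ℝ, ((ψ α * ψ' α : ℝ) : ℂ) * Complex.exp (2 * Real.pi * I * α * z) =
      ∫ s : ℝ, (fl ψ s : ℂ) * ((ψ' α : ℂ) * Complex.exp (2 * Real.pi * I * α * (z - s))) := by
    intro α
    rw [Complex.ofReal_mul, hψ α, mul_assoc, ← integral_mul_const]
    refine integral_congr_ae (ae_of_all _ fun s => ?_)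
    simp only
    rw [show 2 * (Real.pi : ℂ) * I * α * (z - s) = -(2 * Real.pi * I * α * s) + 2 * Real.pi * I * α * z by
      ring, Complex.exp_add]
    ring
  simp_rw [e1]
  have e2 : ∀ s : ℝ, (fl ψ s : ℂ) * ∫ α : ℝ, (ψ' α : ℂ) * Complex.exp (2 * Real.pi * I * α * (z - s)) =
      ∫ α : ℝ, (fl ψ s : ℂ) * ((ψ' α : ℂ) * Complex.exp (2 * Real.pi * I * α * (z - s))) :=
    fun s => (integral_const_mul _ _).symm
  simp_rw [e2]
  rw [integral_integral_swap]
  have hg := int_exp_mul h' z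
  have hf : Integrable fun s : ℝ => (fl ψ s : ℂ) := (fl_int h).ofReal
  have hp := hg.mul_prod hf
  have hu : Continuous fun p : ℝ × ℝ => Complex.exp (-(2 * Real.pi * I * p.1 * p.2)) := by fun_prop
  have hp2 := hp.bdd_mul (c := 1) hu.aestronglyMeasurable (ae_of_all _ fun p => by
    have : (-(2 * Real.pi * I * p.1 * p.2) : ℂ) = ((-(2 * Real.pi * p.1 * p.2) : ℝ) : ℂ) * I := by
      push_cast; ring
    rw [this, Complex.norm_exp_ofReal_mul_I])
  refine hp2.congr (ae_of_all _ fun p => ?_)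
  simp only [Function.uncurry]
  rw [show 2 * (Real.pi : ℂ) * I * p.1 * (z - p.2) = -(2 * Real.pi * I * p.1 * p.2) +
    2 * Real.pi * I * p.1 * z by ring, Complex.exp_add]
  ring

/-- products of admissible functions are admissible -/
lemma adm_mul (h : Adm κ ψ) (h' : Adm κ' ψ') : Adm κ' (fun α => ψ α * ψ' α) := by
  refine ⟨fun x => by rw [h.even, h'.even], ?_, fun x hx => by rw [h'.supp x hx, mul_zero], ?_⟩
  · obtain ⟨K, hK⟩ := h.lip
    obtain ⟨K', hK'⟩ := h'.lip
    obtain ⟨M, hM0, hM⟩ := h.bdd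
    obtain ⟨M', hM0', hM'⟩ := h'.bdd
    refine ⟨K * M' + M * K', fun x y => ?_⟩
    have e : ψ x * ψ' x - ψ y * ψ' y = (ψ x - ψ y) * ψ' x + ψ y * (ψ' x - ψ' y) := by ring
    rw [e]
    refine (abs_add_le _ _).trans ?_
    rw [abs_mul, abs_mul]
    have h1 := mul_le_mul (hK x y) (hM' x) (abs_nonneg _) ((abs_nonneg _).trans (hK x y))
    have h2 := mul_le_mul (hM y) (hK' x y) (abs_nonneg _) hM0
    calc _ ≤ K * |x - y| * M' + M * (K' * |x - y|) := add_le_add h1 h2
      _ = _ := by ring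
  · obtain ⟨B, hB⟩ := fl_bound h
    obtain ⟨C, hC⟩ := h'.dec
    have hB0 : 0 ≤ B := by have := (abs_nonneg _).trans (hB 0); simpa using this
    have hC0 : 0 ≤ C := by
      have := (norm_nonneg _).trans (hC 0 0)
      simpa using this
    refine ⟨B * C * (2 * (Real.pi + Real.pi)), fun x y => ?_⟩
    rw [FL_mul h h']
    obtain ⟨E, hE⟩ : ∃ E : ℝ, E = Real.exp (2 * Real.pi * κ' * |y|) := ⟨_, rfl⟩
    have hE0 : 0 < E := by rw [hE]; exact Real.exp_pos _
    have hsh : Integrable fun s : ℝ => 1 / (1 + (x - s) ^ 2) := by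
      have := int_inv.comp_sub_left x
      exact this
    have hi : Integrable fun s : ℝ => B * C * E * (2 / (1 + x ^ 2)) *
        (1 / (1 + s ^ 2) + 1 / (1 + (x - s) ^ 2)) := (int_inv.add hsh).const_mul _
    have hint : ∫ s : ℝ, B * C * E * (2 / (1 + x ^ 2)) * (1 / (1 + s ^ 2) + 1 / (1 + (x - s) ^ 2)) =
        B * C * (2 * (Real.pi + Real.pi)) * E / (1 + x ^ 2) := by
      rw [integral_const_mul, integral_add int_inv hsh]
      have e1 : ∫ s : ℝ, 1 / (1 + s ^ 2) = Real.pi := by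
        simpa [one_div] using integral_univ_inv_one_add_sq
      have e2 : ∫ s : ℝ, 1 / (1 + (x - s) ^ 2) = Real.pi := by
        rw [← e1]
        exact integral_sub_left_eq_self (fun s => 1 / (1 + s ^ 2)) volume x
      rw [e1, e2]
      ring
    rw [← hE, ← hint]
    refine norm_integral_le_of_norm_le hi (ae_of_all _ fun s => ?_)
    rw [norm_mul, Complex.norm_real, Real.norm_eq_abs]
    have e3 : (x : ℂ) + y * I - s = ((x - s : ℝ) : ℂ) + y * I := by push_cast; ring
    have h1 := hC (x - s) y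
    rw [← e3, ← hE] at h1
    have h2 := hB s
    calc |fl ψ s| * ‖FL ψ' (x + y * I - s)‖ ≤ B / (1 + s ^ 2) * (C * E / (1 + (x - s) ^ 2)) :=
          mul_le_mul h2 h1 (norm_nonneg _) (by positivity)
      _ = B * C * E * (1 / (1 + s ^ 2) * (1 / (1 + (x - s) ^ 2))) := by ring
      _ ≤ B * C * E * (2 / (1 + (s + (x - s)) ^ 2) * (1 / (1 + s ^ 2) + 1 / (1 + (x - s) ^ 2))) :=
          mul_le_mul_of_nonneg_left (conv_pt s (x - s)) (by positivity)
      _ = _ := by rw [add_sub_cancel]; ring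

/-- correlations of the transforms -/
lemma conv_id (h : Adm κ ψ) (h' : Adm κ' ψ') (a b : ℝ) :
    (Integrable fun t : ℝ => fl ψ (a - t) * fl ψ' (b - t)) ∧
    ∫ t, fl ψ (a - t) * fl ψ' (b - t) = fl (fun α => ψ α * ψ' α) (a - b) := by
  obtain ⟨B, hB⟩ := fl_bound h
  obtain ⟨δ, hδ⟩ : ∃ δ : ℝ, δ = b - a := ⟨_, rfl⟩
  have hbd : ∀ x, |fl ψ x| ≤ B := by
    intro x
    refine (hB x).trans (div_le_self ?_ (by nlinarith [sq_nonneg x]))
    have := (abs_nonneg _).trans (hB 0)
    simpa using this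
  have hii : ∀ d : ℝ, Integrable fun s : ℝ => fl ψ s * fl ψ' (s + d) := by
    intro d
    have h1 : Integrable fun s : ℝ => fl ψ' (s + d) := (fl_int h').comp_add_right d
    exact h1.bdd_mul (c := B) (fl_cont h.int).aestronglyMeasurable (ae_of_all _ fun s => by
      rw [Real.norm_eq_abs]; exact hbd s)
  have hI : ∀ t : ℝ, fl ψ (a - t) * fl ψ' (b - t) = (fun s => fl ψ s * fl ψ' (s + δ)) (a - t) := by
    intro t
    simp only
    rw [hδ, show a - t + (b - a) = b - t by ring]
  constructor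
  · exact ((hii δ).comp_sub_left a).congr (ae_of_all _ fun t => (hI t).symm)
  · simp_rw [hI]
    rw [integral_sub_left_eq_self (fun s => fl ψ s * fl ψ' (s + δ)) volume a]
    -- symmetrise
    have h1 : ∫ s, fl ψ s * fl ψ' (s + δ) = ∫ s, fl ψ s * fl ψ' (s + -δ) := by
      rw [← integral_neg_eq_self]
      refine integral_congr_ae (ae_of_all _ fun s => ?_)
      simp only
      rw [fl_even, ← fl_even (ψ := ψ') (-s + δ)]
      congr 2
      ring
    have hm : ∀ s, (fl ψ' (s + δ) + fl ψ' (s + -δ)) / 2 =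
        fl (fun α => ψ' α * Real.cos (2 * Real.pi * α * δ)) s := by
      intro s
      unfold fl
      rw [← integral_add, ← integral_div]
      · refine integral_congr_ae (ae_of_all _ fun α => ?_)
        simp only
        rw [mul_add (2 * Real.pi * α), mul_add (2 * Real.pi * α), mul_neg, Real.cos_add, Real.cos_add,
          Real.cos_neg, Real.sin_neg]
        ring
      all_goals
        refine h'.int.mul_bdd (c := 1) (by fun_prop) (ae_of_all _ fun α => ?_)
        rw [Real.norm_eq_abs]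
        exact Real.abs_cos_le_one _
    have h2 : ∫ s, fl ψ s * fl ψ' (s + δ) =
        ∫ s, fl ψ s * fl (fun α => ψ' α * Real.cos (2 * Real.pi * α * δ)) s := by
      have e : ∫ s, fl ψ s * fl ψ' (s + δ) =
          ((∫ s, fl ψ s * fl ψ' (s + δ)) + ∫ s, fl ψ s * fl ψ' (s + -δ)) / 2 := by rw [← h1]; ring
      rw [e, ← integral_add (hii δ) (hii (-δ)), ← integral_div]
      refine integral_congr_ae (ae_of_all _ fun s => ?_)
      simp only
      rw [← hm]
      ring
    rw [h2]
    have hic : Integrable fun α : ℝ => ψ' α * Real.cos (2 * Real.pi * α * δ) := by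
      refine h'.int.mul_bdd (c := 1) (by fun_prop) (ae_of_all _ fun α => ?_)
      rw [Real.norm_eq_abs]
      exact Real.abs_cos_le_one _
    have h3 := parseval (ψ₁ := fun α => ψ' α * Real.cos (2 * Real.pi * α * δ)) (ψ₂ := fl ψ) hic
      (fl_int h) (fun x => by
        rw [h'.even, show 2 * Real.pi * -x * δ = -(2 * Real.pi * x * δ) by ring, Real.cos_neg])
      (fun x => fl_even x)
    rw [show (∫ s, fl ψ s * fl (fun α => ψ' α * Real.cos (2 * Real.pi * α * δ)) s) =
      ∫ s, fl (fun α => ψ' α * Real.cos (2 * Real.pi * α * δ)) s * fl ψ s from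
      integral_congr_ae (ae_of_all _ fun s => mul_comm _ _), h3]
    have e4 : fl (fun α => ψ α * ψ' α) (a - b) = fl (fun α => ψ α * ψ' α) δ := by
      rw [hδ, ← fl_even, neg_sub]
    rw [e4]
    unfold fl
    refine integral_congr_ae (ae_of_all _ fun α => ?_)
    simp only
    have h5 := inv_four h α
    unfold fl at h5
    rw [h5]
    ring

end Pool.Agent.N805.OS
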