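import Pool.Agent.N805.OS.B

/-! # Slowly decaying averages of Fejer kernels -/

set_option autoImplicit false

open MeasureTheory Set Filter Topology
open Complex (I)

namespace Pool.Agent.N805.OS

open Pool.Agent.Y749.Rig
open Pool.Agent.N805.FL (fl_tr_le_one)

/-- the supports -/
noncomputable def rr (j : ℕ) : ℝ := 1 / 2 ^ (j + 2)

lemma rr_pos (j : ℕ) : 0 < rr j := by unfold rr; positivity

lemma rr_le (j : ℕ) : rr j ≤ 1 / 4 := by
  unfold rr
  rw [div_le_div_iff₀ (by positivity) (by norm_num), pow_add]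
  have : (1 : ℝ) ≤ 2 ^ j := one_le_pow₀ (by norm_num)
  linarith

lemma tr_zero {h : ℝ} : tr h 0 = 1 / h := by unfold tr; simp

lemma tr_le {h : ℝ} (hh : 0 < h) (α : ℝ) : tr h α ≤ 1 / h := by
  unfold tr
  apply div_le_div_of_nonneg_right _ hh.le
  exact max_le (by norm_num) (by have : 0 ≤ |α| / h := by positivity
                                 linarith)

/-- the average of the Fejer kernels -/
noncomputable def Ph (J : ℕ) (x : ℝ) : ℝ := (∑ j ∈ Finset.range J, fl (tr (rr j)) x) / J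

/-- its integral -/
noncomputable def cJ (J : ℕ) : ℝ := (∑ j ∈ Finset.range J, 1 / rr j) / J

/-- its smoothing -/
noncomputable def Ps (J : ℕ) (x : ℝ) : ℝ := ∫ s in (-(1 / 2) : ℝ)..(1 / 2), Ph J (x + s)

lemma Ph_nonneg (J : ℕ) (x : ℝ) : 0 ≤ Ph J x :=
  div_nonneg (Finset.sum_nonneg fun j _ => fl_tr_nonneg (rr_pos j) x) (Nat.cast_nonneg _)

lemma Ph_le_one (J : ℕ) (x : ℝ) : Ph J x ≤ 1 := by
  unfold Ph
  rcases Nat.eq_zero_or_pos J with h | h
  · rw [h]; simp
  · have hJ : (0 : ℝ) < J := by exact_mod_cast h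
    rw [div_le_one hJ]
    refine (Finset.sum_le_sum fun j _ => fl_tr_le_one (rr_pos j) x).trans ?_
    simp

lemma Ph_cont (J : ℕ) : Continuous (Ph J) := by
  unfold Ph
  exact (continuous_finset_sum _ fun j _ => fl_cont (tr_int (rr_pos j))).div_const _

lemma Ph_even (J : ℕ) (x : ℝ) : Ph J (-x) = Ph J x := by
  unfold Ph
  simp only [fl_even]

lemma Ph_bound (J : ℕ) : ∃ B : ℝ, 0 < B ∧ ∀ x, Ph J x ≤ B / (1 + x ^ 2) := by
  have h1 : ∀ j, ∃ B : ℝ, ∀ x, |fl (tr (rr j)) x| ≤ B / (1 + x ^ 2) := fun j =>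
    fl_bound (adm_tr (rr_pos j))
  choose B hB using h1
  have hB0 : ∀ j, 0 ≤ B j := fun j => by
    have := (abs_nonneg _).trans (hB j 0)
    simpa using this
  refine ⟨(∑ j ∈ Finset.range J, B j) / J + 1, by
    have : 0 ≤ (∑ j ∈ Finset.range J, B j) / J :=
      div_nonneg (Finset.sum_nonneg fun j _ => hB0 j) (Nat.cast_nonneg _)
    linarith, fun x => ?_⟩
  have h2 : Ph J x ≤ (∑ j ∈ Finset.range J, B j) / J / (1 + x ^ 2) := by
    unfold Ph
    rw [div_div, mul_comm, ← div_div]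
    apply div_le_div_of_nonneg_right _ (Nat.cast_nonneg _)
    rw [Finset.sum_div]
    exact Finset.sum_le_sum fun j _ => (le_abs_self _).trans (hB j x)
  refine h2.trans (div_le_div_of_nonneg_right (by linarith) (by positivity))

lemma Ph_int (J : ℕ) : Integrable (Ph J) := by
  unfold Ph
  exact (integrable_finset_sum _ fun j _ => fl_int (adm_tr (rr_pos j))).div_const _

lemma int_Ph (J : ℕ) : ∫ x, Ph J x = cJ J := by
  unfold Ph cJ
  rw [integral_div, integral_finset_sum _ fun j _ => fl_int (adm_tr (rr_pos j))]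
  congr 1
  refine Finset.sum_congr rfl fun j _ => ?_
  rw [int_fl (adm_tr (rr_pos j)), tr_zero]

lemma cJ_ge (J : ℕ) : (J : ℝ) ≤ cJ J := by
  rcases Nat.eq_zero_or_pos J with h | h
  · rw [h]; unfold cJ; simp
  · have hJ : (0 : ℝ) < J := by exact_mod_cast h
    unfold cJ
    rw [le_div_iff₀ hJ]
    have h1 : ∀ n : ℕ, (n : ℝ) * n ≤ ∑ j ∈ Finset.range n, 1 / rr j := by
      intro n
      induction n with
      | zero => simp
      | succ n ih =>
        rw [Finset.sum_range_succ]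
        have h2 : (2 : ℝ) * n + 1 ≤ 1 / rr n := by
          unfold rr
          rw [one_div_one_div, pow_add]
          have h3 : (n : ℝ) + 1 ≤ 2 ^ n := by
            have := Nat.lt_two_pow_self (n := n)
            exact_mod_cast this
          linarith [Nat.cast_nonneg (α := ℝ) n]
        push_cast
        linarith
    exact h1 J

lemma cJ_pos {J : ℕ} (hJ : 1 ≤ J) : 0 < cJ J := by
  have : (1 : ℝ) ≤ J := by exact_mod_cast hJ
  linarith [cJ_ge J]

/-- the correlation function -/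
noncomputable def Gj (J : ℕ) (x : ℝ) : ℝ :=
  (∑ i ∈ Finset.range J, ∑ j ∈ Finset.range J, fl (fun α => tr (rr i) α * tr (rr j) α) x) / (J : ℝ) ^ 2

lemma Ph_corr (J : ℕ) (a b : ℝ) : (Integrable fun t : ℝ => Ph J (a - t) * Ph J (b - t)) ∧
    ∫ t, Ph J (a - t) * Ph J (b - t) = Gj J (a - b) := by
  have e : ∀ t : ℝ, Ph J (a - t) * Ph J (b - t) = (∑ i ∈ Finset.range J, ∑ j ∈ Finset.range J,
      fl (tr (rr i)) (a - t) * fl (tr (rr j)) (b - t)) / (J : ℝ) ^ 2 := by
    intro t
    unfold Ph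
    rw [div_mul_div_comm, Finset.sum_mul_sum, sq]
  have hi : ∀ i j, Integrable fun t : ℝ => fl (tr (rr i)) (a - t) * fl (tr (rr j)) (b - t) :=
    fun i j => (conv_id (adm_tr (rr_pos i)) (adm_tr (rr_pos j)) a b).1
  simp_rw [e]
  refine ⟨(integrable_finset_sum _ fun i _ => integrable_finset_sum _ fun j _ => hi i j).div_const _, ?_⟩
  rw [integral_div, integral_finset_sum _ fun i _ => integrable_finset_sum _ fun j _ => hi i j]
  unfold Gj
  congr 1
  refine Finset.sum_congr rfl fun i _ => ?_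
  rw [integral_finset_sum _ fun j _ => hi i j]
  refine Finset.sum_congr rfl fun j _ => ?_
  exact (conv_id (adm_tr (rr_pos i)) (adm_tr (rr_pos j)) a b).2

lemma cc_prod_le {i j : ℕ} (hij : i ≤ j) :
    cc (fun α => tr (rr i) α * tr (rr j) α) ≤ 1 / rr i * (1 / rr j) + (1 / 2) ^ (j - i) := by
  unfold cc
  simp only
  rw [tr_zero, tr_zero]
  have h1 : ∫ α, |α| * (tr (rr i) α * tr (rr j) α) ≤ ∫ α, rr j * (1 / rr i) * tr (rr j) α := by
    have hc : Continuous fun α : ℝ => |α| * (tr (rr i) α * tr (rr j) α) := by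
      have := tr_cont (rr i)
      have := tr_cont (rr j)
      fun_prop
    have hpt : ∀ α : ℝ, |α| * (tr (rr i) α * tr (rr j) α) ≤ rr j * (1 / rr i) * tr (rr j) α := by
      intro α
      have t1 := tr_nonneg (rr_pos i) α
      have t2 := tr_nonneg (rr_pos j) α
      rcases le_or_gt (rr j) |α| with h | h
      · rw [tr_supp (rr_pos j) α h]; simp
      · rw [← mul_assoc]
        apply mul_le_mul_of_nonneg_right _ t2
        exact mul_le_mul h.le (tr_le (rr_pos i) α) t1 (rr_pos j).le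
    have hi : Integrable fun α : ℝ => rr j * (1 / rr i) * tr (rr j) α :=
      (tr_int (rr_pos j)).const_mul _
    refine integral_mono (hi.mono' hc.aestronglyMeasurable (ae_of_all _ fun α => ?_)) hi hpt
    rw [Real.norm_eq_abs, abs_of_nonneg]
    · exact hpt α
    · have t1 := tr_nonneg (rr_pos i) α
      have t2 := tr_nonneg (rr_pos j) α
      positivity
  rw [integral_const_mul, int_tr (rr_pos j), mul_one] at h1
  have h2 : rr j * (1 / rr i) = (1 / 2) ^ (j - i) := by
    unfold rr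
    obtain ⟨d, rfl⟩ := Nat.exists_eq_add_of_le hij
    rw [Nat.add_sub_cancel_left, one_div_one_div, one_div_pow, show i + d + 2 = i + 2 + d by ring,
      pow_add (2 : ℝ) (i + 2) d]
    field_simp
  linarith

/-- the weights -/
noncomputable def gw (i j : ℕ) : ℝ := if i ≤ j then (1 / 2 : ℝ) ^ (j - i) else 0

lemma gw_nonneg (i j : ℕ) : 0 ≤ gw i j := by unfold gw; split_ifs <;> positivity

lemma gw_sum (i J : ℕ) : ∑ j ∈ Finset.range J, gw i j ≤ 2 := by
  have h1 : ∑ j ∈ Finset.range J, gw i j = ∑ j ∈ (Finset.range J).filter (fun j => i ≤ j),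
      (1 / 2 : ℝ) ^ (j - i) := by
    rw [Finset.sum_filter]
    rfl
  have h2 : ∑ j ∈ (Finset.range J).filter (fun j => i ≤ j), (1 / 2 : ℝ) ^ (j - i) =
      ∑ d ∈ ((Finset.range J).filter (fun j => i ≤ j)).image (fun j => j - i), (1 / 2 : ℝ) ^ d := by
    rw [Finset.sum_image]
    intro a ha b hb hab
    simp only [Finset.coe_filter, Finset.mem_range, mem_setOf_eq] at ha hb
    simp only at hab
    omega
  rw [h1, h2]
  have h3 : ∑ d ∈ ((Finset.range J).filter (fun j => i ≤ j)).image (fun j => j - i), (1 / 2 : ℝ) ^ d ≤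
      ∑' d : ℕ, (1 / 2 : ℝ) ^ d :=
    Summable.sum_le_tsum _ (fun d _ => by positivity) (summable_geometric_of_lt_one (by norm_num) (by norm_num))
  refine h3.trans (le_of_eq ?_)
  rw [tsum_geometric_of_lt_one (by norm_num) (by norm_num)]
  norm_num

/-- the limit of the pair sum of the correlation function -/
noncomputable def vJ (J : ℕ) : ℝ := (∑ i ∈ Finset.range J, ∑ j ∈ Finset.range J,
  cc (fun α => tr (rr i) α * tr (rr j) α)) / (J : ℝ) ^ 2

lemma vJ_le {J : ℕ} (hJ : 1 ≤ J) : vJ J ≤ cJ J ^ 2 + 4 / J := by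
  have hJ0 : (0 : ℝ) < J := by exact_mod_cast hJ
  have h1 : ∀ i j : ℕ, cc (fun α => tr (rr i) α * tr (rr j) α) ≤
      1 / rr i * (1 / rr j) + (gw i j + gw j i) := by
    intro i j
    rcases le_total i j with h | h
    · have h2 := cc_prod_le h
      have h3 := gw_nonneg j i
      have h4 : gw i j = (1 / 2 : ℝ) ^ (j - i) := by unfold gw; rw [if_pos h]
      linarith
    · have h2 := cc_prod_le h
      have h3 := gw_nonneg i j
      have h4 : gw j i = (1 / 2 : ℝ) ^ (i - j) := by unfold gw; rw [if_pos h]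
      have e : (fun α => tr (rr i) α * tr (rr j) α) = fun α => tr (rr j) α * tr (rr i) α :=
        funext fun α => mul_comm _ _
      rw [e]
      linarith
  have h5 : ∑ i ∈ Finset.range J, ∑ j ∈ Finset.range J, cc (fun α => tr (rr i) α * tr (rr j) α) ≤
      (∑ j ∈ Finset.range J, 1 / rr j) ^ 2 + 4 * J := by
    calc _ ≤ ∑ i ∈ Finset.range J, ∑ j ∈ Finset.range J,
          (1 / rr i * (1 / rr j) + (gw i j + gw j i)) :=
          Finset.sum_le_sum fun i _ => Finset.sum_le_sum fun j _ => h1 i j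
      _ = (∑ j ∈ Finset.range J, 1 / rr j) ^ 2 + ((∑ i ∈ Finset.range J, ∑ j ∈ Finset.range J, gw i j) +
          ∑ i ∈ Finset.range J, ∑ j ∈ Finset.range J, gw j i) := by
          simp_rw [Finset.sum_add_distrib]
          rw [sq, Finset.sum_mul_sum]
      _ = (∑ j ∈ Finset.range J, 1 / rr j) ^ 2 + 2 * (∑ i ∈ Finset.range J, ∑ j ∈ Finset.range J, gw i j) := by
          rw [Finset.sum_comm (f := fun i j => gw j i)]
          ring
      _ ≤ _ := by
          have h6 : ∑ i ∈ Finset.range J, ∑ j ∈ Finset.range J, gw i j ≤ 2 * J := by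
            refine (Finset.sum_le_sum fun i _ => gw_sum i J).trans (le_of_eq ?_)
            simp
            ring
          linarith
  unfold vJ cJ
  rw [div_le_iff₀ (by positivity)]
  have e2 : (((∑ j ∈ Finset.range J, 1 / rr j) / (J : ℝ)) ^ 2 + 4 / J) * (J : ℝ) ^ 2 =
      (∑ j ∈ Finset.range J, 1 / rr j) ^ 2 + 4 * J := by
    field_simp
  rw [e2]
  exact h5

/-- the limit -/
lemma Gj_lim (RH : RiemannHypothesis) (J : ℕ) :
    Tendsto (fun T => ∫ x, Gj J x ∂(Mp T)) atTop (𝓝 (vJ J)) := by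
  have h1 : ∀ i j : ℕ, Tendsto (fun T => ∫ x, fl (fun α => tr (rr i) α * tr (rr j) α) x ∂(Mp T)) atTop
      (𝓝 (cc (fun α => tr (rr i) α * tr (rr j) α))) := fun i j =>
    test_limRH RH (adm_mul (adm_tr (rr_pos i)) (adm_tr (rr_pos j))) (rr_pos j)
      (by linarith [rr_le j])
  have h2 : Tendsto (fun T => (∑ i ∈ Finset.range J, ∑ j ∈ Finset.range J,
      ∫ x, fl (fun α => tr (rr i) α * tr (rr j) α) x ∂(Mp T)) / (J : ℝ) ^ 2) atTop (𝓝 (vJ J)) :=
    (tendsto_finset_sum _ fun i _ => tendsto_finset_sum _ fun j _ => h1 i j).div_const _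
  refine h2.congr fun T => ?_
  have hfin := Mp_fin T
  have hi : ∀ i j : ℕ, Integrable (fl (fun α => tr (rr i) α * tr (rr j) α)) (Mp T) := by
    intro i j
    have had := adm_mul (adm_tr (rr_pos i)) (adm_tr (rr_pos j))
    obtain ⟨B, hB⟩ := fl_bound had
    refine Integrable.of_bound (fl_cont had.int).aestronglyMeasurable B (ae_of_all _ fun x => ?_)
    rw [Real.norm_eq_abs]
    refine (hB x).trans (div_le_self ?_ (by nlinarith [sq_nonneg x]))
    have := (abs_nonneg _).trans (hB 0)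
    simpa using this
  unfold Gj
  rw [integral_div, integral_finset_sum _ fun i _ => integrable_finset_sum _ fun j _ => hi i j]
  congr 1
  refine Finset.sum_congr rfl fun i _ => ?_
  rw [integral_finset_sum _ fun j _ => hi i j]

lemma Ph_ge {J : ℕ} (hJ : 1 ≤ J) (x : ℝ) : 1 - 20 * x ^ 2 / J ≤ Ph J x := by
  have hJ0 : (0 : ℝ) < J := by exact_mod_cast hJ
  have hpi := Real.pi_pos
  have hpi2 := Real.pi_lt_d2
  have h1 : ∀ j : ℕ, 1 - 20 * x ^ 2 * (1 / 2) ^ j / 2 ≤ fl (tr (rr j)) x := by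
    intro j
    have h2 : ∀ α : ℝ, tr (rr j) α * (1 - 2 * Real.pi ^ 2 * x ^ 2 * rr j ^ 2) ≤
        tr (rr j) α * Real.cos (2 * Real.pi * α * x) := by
      intro α
      rcases le_or_gt (rr j) |α| with h | h
      · rw [tr_supp (rr_pos j) α h]; simp
      · refine mul_le_mul_of_nonneg_left ?_ (tr_nonneg (rr_pos j) α)
        have h3 := Real.one_sub_sq_div_two_le_cos (x := 2 * Real.pi * α * x)
        have h4 : α ^ 2 ≤ rr j ^ 2 := by rw [← sq_abs]; exact pow_le_pow_left₀ (abs_nonneg _) h.le 2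
        have h5 : (2 * Real.pi * α * x) ^ 2 / 2 ≤ 2 * Real.pi ^ 2 * x ^ 2 * rr j ^ 2 := by
          have : (2 * Real.pi * α * x) ^ 2 / 2 = 2 * Real.pi ^ 2 * x ^ 2 * α ^ 2 := by ring
          rw [this]
          exact mul_le_mul_of_nonneg_left h4 (by positivity)
        linarith
    have h6 : ∫ α, tr (rr j) α * (1 - 2 * Real.pi ^ 2 * x ^ 2 * rr j ^ 2) ≤
        ∫ α, tr (rr j) α * Real.cos (2 * Real.pi * α * x) := by
      refine integral_mono ((tr_int (rr_pos j)).mul_const _) ?_ h2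
      refine (tr_int (rr_pos j)).mul_bdd (c := 1) (by fun_prop) (ae_of_all _ fun α => ?_)
      rw [Real.norm_eq_abs]; exact Real.abs_cos_le_one _
    rw [integral_mul_const, int_tr (rr_pos j), one_mul] at h6
    have h7 : rr j ^ 2 ≤ (1 / 2) ^ j / 2 := by
      have h8 := rr_le j
      have h9 : rr j ≤ (1 / 2) ^ j := by
        unfold rr
        rw [one_div_pow, pow_add]
        have : (1 : ℝ) ≤ 2 ^ j := one_le_pow₀ (by norm_num)
        apply one_div_le_one_div_of_le (by positivity)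
        linarith
      have := rr_pos j
      nlinarith
    have h10 : 2 * Real.pi ^ 2 * x ^ 2 * rr j ^ 2 ≤ 20 * x ^ 2 * (1 / 2) ^ j / 2 := by
      have h11 : 2 * Real.pi ^ 2 ≤ 20 := by nlinarith
      calc 2 * Real.pi ^ 2 * x ^ 2 * rr j ^ 2 ≤ 20 * x ^ 2 * rr j ^ 2 := by gcongr
        _ ≤ 20 * x ^ 2 * ((1 / 2) ^ j / 2) := by gcongr
        _ = _ := by ring
    unfold fl
    linarith
  unfold Ph
  rw [le_div_iff₀ hJ0]
  have h2 : ∑ j ∈ Finset.range J, (1 - 20 * x ^ 2 * (1 / 2) ^ j / 2) ≤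
      ∑ j ∈ Finset.range J, fl (tr (rr j)) x := Finset.sum_le_sum fun j _ => h1 j
  refine le_trans ?_ h2
  rw [Finset.sum_sub_distrib, ← Finset.sum_div, ← Finset.mul_sum]
  have h3 : ∑ j ∈ Finset.range J, (1 / 2 : ℝ) ^ j ≤ 2 := by
    have := Summable.sum_le_tsum (Finset.range J) (fun d _ => by positivity)
      (summable_geometric_of_lt_one (r := (1 / 2 : ℝ)) (by norm_num) (by norm_num))
    rw [tsum_geometric_of_lt_one (by norm_num) (by norm_num)] at this
    linarith
  have h4 : 20 * x ^ 2 * ∑ j ∈ Finset.range J, (1 / 2 : ℝ) ^ j ≤ 20 * x ^ 2 * 2 :=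
    mul_le_mul_of_nonneg_left h3 (by positivity)
  have e : (1 - 20 * x ^ 2 / J) * J = J - 20 * x ^ 2 := by field_simp
  rw [e]
  simp only [Finset.sum_const, Finset.card_range, nsmul_eq_mul, mul_one]
  linarith

/-! ### the smoothed kernel -/

lemma Ps_cont (J : ℕ) : Continuous (Ps J) := by
  unfold Ps
  refine intervalIntegral.continuous_parametric_intervalIntegral_of_continuous' ?_ _ _
  exact (Ph_cont J).comp (by fun_prop : Continuous fun p : ℝ × ℝ => p.1 + p.2)

lemma Ph_ii (J : ℕ) (x a b : ℝ) : IntervalIntegrable (fun s => Ph J (x + s)) volume a b :=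
  ((Ph_cont J).comp (by fun_prop)).intervalIntegrable _ _

lemma Ps_nonneg (J : ℕ) (x : ℝ) : 0 ≤ Ps J x :=
  intervalIntegral.integral_nonneg (by norm_num) fun s _ => Ph_nonneg J _

lemma Ps_le_one (J : ℕ) (x : ℝ) : Ps J x ≤ 1 := by
  unfold Ps
  have h := intervalIntegral.integral_mono_on (a := (-(1 / 2) : ℝ)) (b := 1 / 2) (by norm_num)
    (Ph_ii J x _ _) (intervalIntegrable_const (c := (1 : ℝ))) fun s _ => Ph_le_one J (x + s)
  refine h.trans (le_of_eq ?_)
  rw [intervalIntegral.integral_const]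
  norm_num

lemma Ps_ge {J : ℕ} (hJ : 1 ≤ J) (x : ℝ) : 1 - 40 * (1 + x ^ 2) / J ≤ Ps J x := by
  have hJ0 : (0 : ℝ) < J := by exact_mod_cast hJ
  have h1 : ∀ s ∈ Icc (-(1 / 2) : ℝ) (1 / 2), 1 - 40 * (1 + x ^ 2) / J ≤ Ph J (x + s) := by
    intro s hs
    refine le_trans ?_ (Ph_ge hJ (x + s))
    have h2 : (x + s) ^ 2 ≤ 2 * (1 + x ^ 2) := by
      have h3 : s ^ 2 ≤ 1 := by nlinarith [hs.1, hs.2]
      nlinarith [sq_nonneg (x - s)]
    have h4 : 20 * (x + s) ^ 2 / J ≤ 40 * (1 + x ^ 2) / J :=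
      div_le_div_of_nonneg_right (by linarith) hJ0.le
    linarith
  have h := intervalIntegral.integral_mono_on (a := (-(1 / 2) : ℝ)) (b := 1 / 2) (by norm_num)
    (intervalIntegrable_const (c := 1 - 40 * (1 + x ^ 2) / J)) (Ph_ii J x _ _) h1
  unfold Ps
  refine le_trans (le_of_eq ?_) h
  rw [intervalIntegral.integral_const]
  norm_num

lemma Ps_bound (J : ℕ) : ∃ B : ℝ, 0 < B ∧ ∀ x, Ps J x ≤ B / (1 + x ^ 2) := by
  obtain ⟨B, hB0, hB⟩ := Ph_bound J
  refine ⟨4 * B, by positivity, fun x => ?_⟩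
  have h1 : ∀ s ∈ Icc (-(1 / 2) : ℝ) (1 / 2), Ph J (x + s) ≤ 4 * B / (1 + x ^ 2) := by
    intro s hs
    refine (hB (x + s)).trans ?_
    rw [div_le_div_iff₀ (by positivity) (by positivity)]
    have h3 : s ^ 2 ≤ 1 := by nlinarith [hs.1, hs.2]
    have h4 : 1 + x ^ 2 ≤ 4 * (1 + (x + s) ^ 2) := by
      have h5 : x ^ 2 ≤ 2 * (x + s) ^ 2 + 2 * s ^ 2 := by nlinarith [sq_nonneg (x + 2 * s)]
      nlinarith
    nlinarith
  have h := intervalIntegral.integral_mono_on (a := (-(1 / 2) : ℝ)) (b := 1 / 2) (by norm_num)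
    (Ph_ii J x _ _) (intervalIntegrable_const (c := 4 * B / (1 + x ^ 2))) h1
  unfold Ps
  refine h.trans (le_of_eq ?_)
  rw [intervalIntegral.integral_const]
  norm_num

lemma Ps_int (J : ℕ) : Integrable (Ps J) := by
  obtain ⟨B, hB0, hB⟩ := Ps_bound J
  refine (int_inv.const_mul B).mono' (Ps_cont J).aestronglyMeasurable (ae_of_all _ fun x => ?_)
  rw [Real.norm_eq_abs, abs_of_nonneg (Ps_nonneg J x), mul_one_div]
  exact hB x

lemma int_Ps (J : ℕ) : ∫ x, Ps J x = cJ J := by
  unfold Ps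
  have h : ∀ x : ℝ, ∫ s in (-(1 / 2) : ℝ)..(1 / 2), Ph J (x + s) =
      ∫ s in Ioc (-(1 / 2) : ℝ) (1 / 2), Ph J (x + s) := fun x =>
    intervalIntegral.integral_of_le (by norm_num)
  simp_rw [h]
  rw [integral_integral_swap]
  · have h2 : ∀ s : ℝ, ∫ x, Ph J (x + s) = cJ J := by
      intro s
      rw [integral_add_right_eq_self, int_Ph]
    simp_rw [h2]
    rw [setIntegral_const]
    simp
    norm_num
  · have h3 : Integrable (fun p : ℝ × ℝ => Ph J (p.1 + p.2))
        (volume.prod (volume.restrict (Ioc (-(1 / 2) : ℝ) (1 / 2)))) := by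
      rw [integrable_prod_iff']
      · constructor
        · exact ae_of_all _ fun s => (Ph_int J).comp_add_right s
        · have h4 : ∀ s : ℝ, ∫ x, ‖Ph J (x + s)‖ = ∫ x, ‖Ph J x‖ := fun s =>
            integral_add_right_eq_self (fun x => ‖Ph J x‖) s
          simp_rw [h4]
          exact integrable_const _
      · exact ((Ph_cont J).comp (by fun_prop)).aestronglyMeasurable
    exact h3

/-- the weighted defect -/
noncomputable def eJ (J : ℕ) : ℝ := ∫ v, (1 - Ps J v) / (1 + v ^ 2)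

lemma eJ_nonneg (J : ℕ) : 0 ≤ eJ J :=
  integral_nonneg fun v => div_nonneg (by linarith [Ps_le_one J v]) (by positivity)

lemma eJ_lim : Tendsto eJ atTop (𝓝 0) := by
  have h : Tendsto (fun J : ℕ => ∫ v, (1 - Ps J v) / (1 + v ^ 2)) atTop (𝓝 (∫ _v : ℝ, (0 : ℝ))) := by
    refine tendsto_integral_of_dominated_convergence (fun v : ℝ => 1 / (1 + v ^ 2)) (fun J => ?_)
      int_inv (fun J => ae_of_all _ fun v => ?_) (ae_of_all _ fun v => ?_)
    · refine Continuous.aestronglyMeasurable ?_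
      exact (continuous_const.sub (Ps_cont J)).div (by fun_prop) fun v => by positivity
    · rw [Real.norm_eq_abs, abs_of_nonneg (div_nonneg (by linarith [Ps_le_one J v]) (by positivity))]
      exact div_le_div_of_nonneg_right (by linarith [Ps_nonneg J v]) (by positivity)
    · have h2 : Tendsto (fun J : ℕ => 40 / (J : ℝ)) atTop (𝓝 0) :=
        tendsto_const_div_atTop_nhds_zero_nat 40
      refine squeeze_zero' (Eventually.of_forall fun J => div_nonneg (by linarith [Ps_le_one J v])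
        (by positivity)) ?_ h2
      filter_upwards [eventually_ge_atTop 1] with J hJ
      have h3 := Ps_ge hJ v
      rw [div_le_iff₀ (by positivity)]
      have e : 40 / (J : ℝ) * (1 + v ^ 2) = 40 * (1 + v ^ 2) / J := by ring
      rw [e]
      linarith
  rw [integral_zero] at h
  exact h

end Pool.Agent.N805.OS
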