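import Pool.Agent.N805.OS.B2
import Pool.Agent.N805.DT.D

/-! # The sum of the kernel over the zeros is nearly constant in mean square -/

set_option autoImplicit false

open MeasureTheory Set Filter Topology

namespace Pool.Agent.N805.OS

open Pool.Agent.Y749.Rig
open SG (ord NZ zmult ZS)
open W200.HW (Ix mem_Ix card_Ix)

/-- the position of a zero in units of the mean spacing -/
noncomputable def ps (T : ℝ) (n : ℕ) : ℝ := ord n * Real.log T / (2 * Real.pi)

lemma ps_sub (T : ℝ) (n m : ℕ) : ps T n - ps T m = (ord n - ord m) * Real.log T / (2 * Real.pi) := by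
  unfold ps; ring

/-- pair sums -/
lemma pair_sum (RH : RiemannHypothesis) {T : ℝ} (hT : 10 ≤ T) (f : ℝ → ℝ) :
    ∑ n ∈ Ix T, ∑ m ∈ Ix T, f (ps T n - ps T m) = nT T * ∫ x, f x ∂(Mp T) := by
  have hn := nT_pos hT
  rw [Mp_integral hT, mul_div_cancel₀ _ hn.ne']
  unfold RR
  simp_rw [ps_sub]
  have h1 : ∀ n ∈ Ix T, ∑ m ∈ Ix T, f ((ord n - ord m) * Real.log T / (2 * Real.pi)) =
      ∑ s' ∈ ZZ T, mm s' * f ((ord n - s'.im) * Real.log T / (2 * Real.pi)) := fun n _ =>
    Pool.Agent.N805.DT.sum_idx RH T (fun y => f ((ord n - y) * Real.log T / (2 * Real.pi)))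
  rw [Finset.sum_congr rfl h1, Pool.Agent.N805.DT.sum_idx RH T (fun y => ∑ s' ∈ ZZ T, mm s' *
    f ((y - s'.im) * Real.log T / (2 * Real.pi)))]
  refine Finset.sum_congr rfl fun s _ => ?_
  rw [Finset.mul_sum]
  refine Finset.sum_congr rfl fun s' _ => ?_
  ring

lemma NZ_asymp {η : ℝ} (hη : 0 < η) : ∀ᶠ T : ℝ in atTop, (1 - η) * nT T ≤ (NZ T : ℝ) ∧
    (NZ T : ℝ) ≤ (1 + η) * nT T := by
  obtain ⟨T0, hT0, h⟩ := Pool.Agent.W54.TCF.NT_asymp' η hη
  filter_upwards [eventually_ge_atTop T0] with T hT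
  have h1 := h T hT
  rw [← Pool.Agent.R320.KL.NZ_eq_NN] at h1
  have e : T / (2 * Real.pi) * Real.log T = nT T := by unfold nT; ring
  rw [e] at h1
  exact h1

lemma nT_top : Tendsto nT atTop atTop := by
  have hpi := Real.pi_pos
  have h1 : Tendsto (fun T : ℝ => T * Real.log T) atTop atTop :=
    tendsto_id.atTop_mul_atTop₀ Real.tendsto_log_atTop
  have h2 := h1.atTop_div_const (r := 2 * Real.pi) (by positivity)
  exact h2

lemma log_small (C : ℝ) {η : ℝ} (hη : 0 < η) : ∀ᶠ T : ℝ in atTop, C * Real.log T ≤ η * nT T := by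
  have hpi := Real.pi_pos
  filter_upwards [eventually_ge_atTop (C * (2 * Real.pi) / η), eventually_ge_atTop 1] with T h1 h2
  have h3 := Real.log_nonneg h2
  rw [div_le_iff₀ hη] at h1
  unfold nT
  rw [mul_div_assoc', le_div_iff₀ (by positivity)]
  nlinarith

/-- the zeros away from the ends -/
noncomputable def good (T A : ℝ) : Finset ℕ := (Ix T).filter fun n => A ≤ ps T n ∧ ps T n ≤ nT T - A

lemma good_card (A : ℝ) {η : ℝ} (hη : 0 < η) :
    ∀ᶠ T : ℝ in atTop, (1 - η) * nT T ≤ ((good T A).card : ℝ) := by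
  classical
  have hpi := Real.pi_pos
  obtain ⟨C, hC, hunit⟩ := Pool.Agent.Y743.NC.unit_count
  have hlog : ∀ᶠ T : ℝ in atTop, |A| * (2 * Real.pi) < Real.log T :=
    Real.tendsto_log_atTop.eventually_gt_atTop _
  filter_upwards [NZ_asymp (half_pos hη), log_small C (show 0 < η / 4 by positivity),
    (nT_top.eventually_ge_atTop (4 * (NZ 1 : ℝ) / η)), hlog, eventually_ge_atTop 10] with T h1 h2 h3 h4 hT
  have hL : 0 < Real.log T := Real.log_pos (by linarith)
  have hsub : Ix T ⊆ good T A ∪ (Finset.Icc 1 (NZ 1) ∪ Finset.Ioc (NZ (T - 1)) (NZ T)) := by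
    intro n hn
    rw [Finset.mem_union, Finset.mem_union, Finset.mem_Icc, Finset.mem_Ioc]
    by_contra hcon
    push Not at hcon
    obtain ⟨c1, c2, c3⟩ := hcon
    have hn' := mem_Ix.1 hn
    apply c1
    unfold good
    rw [Finset.mem_filter]
    refine ⟨hn, ?_, ?_⟩
    · have h5 := c2 hn'.1
      have h6 : 1 < ord n := by
        by_contra hc
        push Not at hc
        have := (SG.ord_le_iff hn'.1 1).1 hc
        omega
      unfold ps
      rw [le_div_iff₀ (by positivity)]
      have h7 := le_abs_self A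
      nlinarith
    · have h5 : n ≤ NZ (T - 1) := by
        by_contra hc
        push Not at hc
        have h6 := c3 hc
        have h7 := (SG.ord_le_iff hn'.1 T).1 hn'.2
        omega
      have h6 := (SG.ord_le_iff hn'.1 (T - 1)).2 h5
      unfold ps nT
      rw [div_le_iff₀ (by positivity), sub_mul, div_mul_cancel₀ _ (by positivity)]
      have h7 := le_abs_self A
      have h8 : A * (2 * Real.pi) ≤ |A| * (2 * Real.pi) := mul_le_mul_of_nonneg_right h7 (by positivity)
      nlinarith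
  have hcard := (Finset.card_le_card hsub).trans ((Finset.card_union_le _ _).trans
    (Nat.add_le_add_left (Finset.card_union_le _ _) _))
  rw [card_Ix, Nat.card_Icc, Nat.card_Ioc] at hcard
  have h5 := hunit (T - 1) (by linarith)
  rw [sub_add_cancel] at h5
  have h6 : Real.log (T - 1) ≤ Real.log T := Real.log_le_log (by linarith) (by linarith)
  have h7 : NZ (T - 1) ≤ NZ T := SG.NZ_mono (by linarith)
  have h8 : (NZ T : ℝ) ≤ (good T A).card + (NZ 1 + ((NZ T : ℝ) - NZ (T - 1))) := by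
    have h9 : NZ T ≤ (good T A).card + (NZ 1 + (NZ T - NZ (T - 1))) := by omega
    have h10 : ((NZ T - NZ (T - 1) : ℕ) : ℝ) = (NZ T : ℝ) - NZ (T - 1) := by
      rw [Nat.cast_sub h7]
    rw [← h10]
    exact_mod_cast h9
  have h9 : C * Real.log (T - 1) ≤ C * Real.log T := mul_le_mul_of_nonneg_left h6 hC.le
  rw [div_le_iff₀ hη] at h3
  nlinarith [h1.1]

/-- the sum of the kernel over the zeros -/
noncomputable def Fs (T : ℝ) (J : ℕ) (t : ℝ) : ℝ := ∑ n ∈ Ix T, Ph J (ps T n - t)

/-- the interval -/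
def It (T : ℝ) : Set ℝ := Icc (-(1 / 2)) (nT T + 1 / 2)

/-- the centred sum -/
noncomputable def Lf (T : ℝ) (J : ℕ) (t : ℝ) : ℝ :=
  Fs T J t - cJ J * (It T).indicator (fun _ => (1 : ℝ)) t

lemma Fs_cont (T : ℝ) (J : ℕ) : Continuous (Fs T J) := by
  unfold Fs
  exact continuous_finset_sum _ fun n _ => (Ph_cont J).comp (by fun_prop)

lemma Fs_nonneg (T : ℝ) (J : ℕ) (t : ℝ) : 0 ≤ Fs T J t :=
  Finset.sum_nonneg fun n _ => Ph_nonneg J _

lemma Fs_sq (RH : RiemannHypothesis) {T : ℝ} (hT : 10 ≤ T) (J : ℕ) :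
    (Integrable fun t => Fs T J t ^ 2) ∧ ∫ t, Fs T J t ^ 2 = nT T * ∫ x, Gj J x ∂(Mp T) := by
  have e : ∀ t, Fs T J t ^ 2 = ∑ n ∈ Ix T, ∑ m ∈ Ix T, Ph J (ps T n - t) * Ph J (ps T m - t) := by
    intro t
    unfold Fs
    rw [sq, Finset.sum_mul_sum]
  simp_rw [e]
  have hi : ∀ n m, Integrable fun t : ℝ => Ph J (ps T n - t) * Ph J (ps T m - t) :=
    fun n m => (Ph_corr J _ _).1
  refine ⟨integrable_finset_sum _ fun n _ => integrable_finset_sum _ fun m _ => hi n m, ?_⟩
  rw [integral_finset_sum _ fun n _ => integrable_finset_sum _ fun m _ => hi n m, ← pair_sum RH hT]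
  refine Finset.sum_congr rfl fun n _ => ?_
  rw [integral_finset_sum _ fun m _ => hi n m]
  exact Finset.sum_congr rfl fun m _ => (Ph_corr J _ _).2

/-- **the mean square** -/
theorem L2 (RH : RiemannHypothesis) {J : ℕ} (hJ : 1 ≤ J) {ε : ℝ} (hε : 0 < ε) :
    ∀ᶠ T : ℝ in atTop, (Integrable fun t => Lf T J t ^ 2) ∧
      ∫ t, Lf T J t ^ 2 ≤ (4 / J + ε) * nT T := by
  classical
  have hc := cJ_pos hJ
  obtain ⟨c, hcd⟩ : ∃ c : ℝ, c = cJ J := ⟨_, rfl⟩
  rw [← hcd] at hc
  obtain ⟨δ, hδ⟩ : ∃ δ : ℝ, δ = ε / (12 * c) := ⟨_, rfl⟩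
  have hδ0 : 0 < δ := by rw [hδ]; positivity
  obtain ⟨η, hη⟩ : ∃ η : ℝ, η = ε / (12 * c ^ 2) := ⟨_, rfl⟩
  have hη0 : 0 < η := by rw [hη]; positivity
  -- the central part of the kernel
  have hA : ∃ A : ℝ, 0 ≤ A ∧ c - δ ≤ ∫ s in (-A)..A, Ph J s := by
    have h1 := intervalIntegral_tendsto_integral (Ph_int J) tendsto_neg_atTop_atBot tendsto_id
    rw [int_Ph, ← hcd] at h1
    obtain ⟨A, h2, h3⟩ := ((h1.eventually (lt_mem_nhds (by linarith : c - δ < c))).and
      (eventually_ge_atTop 0)).exists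
    exact ⟨A, h3, h2.le⟩
  obtain ⟨A, hA0, hA1⟩ := hA
  have hGj := (Gj_lim RH J).eventually (gt_mem_nhds (show vJ J < vJ J + ε / 3 by linarith))
  filter_upwards [hGj, good_card A hη0, nT_top.eventually_ge_atTop (c ^ 2 * 3 / ε),
    eventually_ge_atTop 10] with T h1 h2 h3 hT
  have hn := nT_pos hT
  have hIm : MeasurableSet (It T) := measurableSet_Icc
  obtain ⟨hF1, hF2⟩ := Fs_sq RH hT J
  have hFi : IntegrableOn (Fs T J) (It T) := ((Fs_cont T J).continuousOn).integrableOn_compact isCompact_Icc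
  have hvol : volume.real (It T) = nT T + 1 := by
    unfold It
    rw [Real.volume_real_Icc_of_le (by linarith)]
    ring
  have hI1 : Integrable fun t => (It T).indicator (fun _ => (1 : ℝ)) t := by
    rw [integrable_indicator_iff hIm]
    exact integrableOn_const (by unfold It; exact isCompact_Icc.measure_lt_top.ne)
  have hI2 : Integrable fun t => (It T).indicator (Fs T J) t := by
    rwa [integrable_indicator_iff hIm]
  have e : ∀ t, Lf T J t ^ 2 = Fs T J t ^ 2 - 2 * c * (It T).indicator (Fs T J) t +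
      c ^ 2 * (It T).indicator (fun _ => (1 : ℝ)) t := by
    intro t
    unfold Lf
    rw [← hcd]
    by_cases ht : t ∈ It T
    · rw [indicator_of_mem ht, indicator_of_mem ht]; ring
    · rw [indicator_of_notMem ht, indicator_of_notMem ht]; ring
  simp_rw [e]
  have hi1 : Integrable fun t => Fs T J t ^ 2 - 2 * c * (It T).indicator (Fs T J) t :=
    hF1.sub (hI2.const_mul _)
  refine ⟨hi1.add (hI1.const_mul _), ?_⟩
  rw [integral_add hi1 (hI1.const_mul _), integral_sub hF1 (hI2.const_mul _), integral_const_mul,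
    integral_const_mul, integral_indicator hIm, integral_indicator hIm, setIntegral_const, hvol, hF2,
    smul_eq_mul, mul_one]
  -- the cross term
  have hcross : (c - δ) * ((good T A).card : ℝ) ≤ ∫ t in It T, Fs T J t := by
    have h5 : ∀ n ∈ good T A, c - δ ≤ ∫ t in It T, Ph J (ps T n - t) := by
      intro n hn'
      unfold good at hn'
      rw [Finset.mem_filter] at hn'
      obtain ⟨-, g1, g2⟩ := hn'
      refine hA1.trans ?_
      have h6 : ∫ t in It T, Ph J (ps T n - t) = ∫ s in (ps T n - (nT T + 1 / 2))..(ps T n + 1 / 2), Ph J s := by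
        unfold It
        rw [integral_Icc_eq_integral_Ioc, ← intervalIntegral.integral_of_le (by linarith),
          intervalIntegral.integral_comp_sub_left]
        congr 1
        ring
      rw [h6, intervalIntegral.integral_of_le (by linarith), intervalIntegral.integral_of_le (by linarith)]
      refine setIntegral_mono_set (Ph_int J).integrableOn (ae_of_all _ fun s => Ph_nonneg J s) ?_
      refine (Ioc_subset_Ioc ?_ ?_).eventuallyLE
      · linarith
      · linarith
    have h7 : ∫ t in It T, Fs T J t = ∑ n ∈ Ix T, ∫ t in It T, Ph J (ps T n - t) := by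
      unfold Fs
      rw [integral_finset_sum]
      intro n _
      exact (((Ph_cont J).comp (by fun_prop : Continuous fun t : ℝ => ps T n - t)).continuousOn).integrableOn_compact
        isCompact_Icc
    rw [h7]
    have h8 : ∑ n ∈ good T A, ∫ t in It T, Ph J (ps T n - t) ≤ ∑ n ∈ Ix T, ∫ t in It T, Ph J (ps T n - t) := by
      refine Finset.sum_le_sum_of_subset_of_nonneg (Finset.filter_subset _ _) fun n _ _ => ?_
      exact setIntegral_nonneg hIm fun t _ => Ph_nonneg J _
    refine le_trans ?_ h8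
    refine le_trans (le_of_eq ?_) (Finset.sum_le_sum h5)
    rw [Finset.sum_const, nsmul_eq_mul, mul_comm]
  have hv := vJ_le hJ
  rw [← hcd] at hv
  have h4 : nT T * ∫ x, Gj J x ∂(Mp T) ≤ nT T * (c ^ 2 + 4 / J + ε / 3) :=
    mul_le_mul_of_nonneg_left (by linarith) hn.le
  rw [div_le_iff₀ hε] at h3
  -- the cross term from below
  have h9 : (c - δ - c * η) * nT T ≤ ∫ t in It T, Fs T J t := by
    rcases le_or_gt 0 (c - δ) with hcd' | hcd'
    · refine le_trans ?_ hcross
      calc (c - δ - c * η) * nT T ≤ (c - δ) * ((1 - η) * nT T) := by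
            have : 0 ≤ δ * η * nT T := by positivity
            nlinarith
        _ ≤ _ := mul_le_mul_of_nonneg_left h2 hcd'
    · have : 0 ≤ ∫ t in It T, Fs T J t := setIntegral_nonneg hIm fun t _ => Fs_nonneg T J t
      refine le_trans ?_ this
      apply mul_nonpos_of_nonpos_of_nonneg _ hn.le
      have : 0 < c * η := by positivity
      linarith
  have h10 : 2 * c * ((c - δ - c * η) * nT T) ≤ 2 * c * ∫ t in It T, Fs T J t :=
    mul_le_mul_of_nonneg_left h9 (by positivity)
  have h11 : c * δ = ε / 12 := by rw [hδ]; field_simp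
  have h12 : c ^ 2 * η = ε / 12 := by rw [hη]; field_simp
  have e2 : 2 * c * ((c - δ - c * η) * nT T) = 2 * c ^ 2 * nT T - 2 * (c * δ) * nT T -
      2 * (c ^ 2 * η) * nT T := by ring
  rw [e2, h11, h12] at h10
  have e3 : (4 / (J : ℝ) + ε) * nT T = 4 / J * nT T + ε * nT T := by ring
  have e4 : nT T * (c ^ 2 + 4 / J + ε / 3) = c ^ 2 * nT T + 4 / J * nT T + ε / 3 * nT T := by ring
  rw [e4] at h4
  rw [e3]
  nlinarith

end Pool.Agent.N805.OS
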