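import Pool.Agent.N805.OS.C

/-! # Weighted sums of the kernel over the zeros near zeros -/

set_option autoImplicit false

open MeasureTheory Set Filter Topology

namespace Pool.Agent.N805.OS

open Pool.Agent.Y749.Rig
open SG (ord NZ zmult ZS)
open W200.HW (Ix mem_Ix card_Ix)

/-- the number of zeros at a distance at most `b` from the `n`-th -/
noncomputable def nu (T b : ℝ) (n : ℕ) : ℝ := (((Ix T).filter fun m => |ps T m - ps T n| ≤ b).card : ℝ)

lemma nu_nonneg (T b : ℝ) (n : ℕ) : 0 ≤ nu T b n := Nat.cast_nonneg _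

/-- the window around a zero -/
def Jn (T : ℝ) (n : ℕ) : Set ℝ := Icc (ps T n - 1 / 2) (ps T n + 1 / 2)

lemma Jn_meas (T : ℝ) (n : ℕ) : MeasurableSet (Jn T n) := measurableSet_Icc

lemma It_meas (T : ℝ) : MeasurableSet (It T) := measurableSet_Icc

lemma Jn_fin (T : ℝ) (n : ℕ) : volume (Jn T n) ≠ ⊤ := by
  unfold Jn; exact isCompact_Icc.measure_lt_top.ne

lemma It_fin (T : ℝ) : volume (It T) ≠ ⊤ := by
  unfold It; exact isCompact_Icc.measure_lt_top.ne

/-- the weight function -/
noncomputable def Wf (T : ℝ) (w : ℕ → ℝ) (t : ℝ) : ℝ :=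
  ∑ n ∈ Ix T, w n * (Jn T n).indicator (fun _ => (1 : ℝ)) t

variable {w : ℕ → ℝ} {T : ℝ}

lemma Wf_nonneg (hw : ∀ n, 0 ≤ w n) (t : ℝ) : 0 ≤ Wf T w t :=
  Finset.sum_nonneg fun n _ => mul_nonneg (hw n) (indicator_nonneg (fun _ _ => zero_le_one) _)

lemma Jn_ind (n : ℕ) : Integrable fun t => (Jn T n).indicator (fun _ => (1 : ℝ)) t :=
  (integrable_indicator_iff (Jn_meas T n)).2 (integrableOn_const (Jn_fin T n))

lemma Wf_meas : AEStronglyMeasurable (Wf T w) := by
  have h : Integrable fun t => ∑ n ∈ Ix T, w n * (Jn T n).indicator (fun _ => (1 : ℝ)) t :=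
    integrable_finset_sum _ fun n _ => (Jn_ind n).const_mul _
  exact h.aestronglyMeasurable

/-- the square of the weight function -/
lemma Wf_sq (hw : ∀ n, 0 ≤ w n) : (Integrable fun t => Wf T w t ^ 2) ∧
    ∫ t, Wf T w t ^ 2 ≤ ∑ n ∈ Ix T, w n ^ 2 * nu T 1 n := by
  classical
  have e : ∀ t, Wf T w t ^ 2 = ∑ n ∈ Ix T, ∑ m ∈ Ix T, w n * w m *
      ((Jn T n) ∩ (Jn T m)).indicator (fun _ => (1 : ℝ)) t := by
    intro t
    unfold Wf
    rw [sq, Finset.sum_mul_sum]
    refine Finset.sum_congr rfl fun n _ => Finset.sum_congr rfl fun m _ => ?_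
    have : ((Jn T n) ∩ (Jn T m)).indicator (fun _ => (1 : ℝ)) t =
        (Jn T n).indicator (fun _ => (1 : ℝ)) t * (Jn T m).indicator (fun _ => (1 : ℝ)) t := by
      rw [← Set.inter_indicator_mul]
      simp only [mul_one]
    rw [this]
    ring
  have hi : ∀ n m, Integrable fun t => ((Jn T n) ∩ (Jn T m)).indicator (fun _ => (1 : ℝ)) t := by
    intro n m
    exact (integrable_indicator_iff ((Jn_meas T n).inter (Jn_meas T m))).2
      (integrableOn_const (ne_top_of_le_ne_top (Jn_fin T n) (measure_mono inter_subset_left)))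
  simp_rw [e]
  refine ⟨integrable_finset_sum _ fun n _ => integrable_finset_sum _ fun m _ => (hi n m).const_mul _, ?_⟩
  rw [integral_finset_sum _ fun n _ => integrable_finset_sum _ fun m _ => (hi n m).const_mul _]
  have h1 : ∀ n m : ℕ, ∫ t, w n * w m * ((Jn T n) ∩ (Jn T m)).indicator (fun _ => (1 : ℝ)) t ≤
      (w n ^ 2 + w m ^ 2) / 2 * (if |ps T m - ps T n| ≤ 1 then 1 else 0) := by
    intro n m
    rw [integral_const_mul, integral_indicator ((Jn_meas T n).inter (Jn_meas T m)),
      setIntegral_const, smul_eq_mul, mul_one]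
    have hle : volume.real ((Jn T n) ∩ (Jn T m)) ≤ if |ps T m - ps T n| ≤ 1 then 1 else 0 := by
      split_ifs with hc
      · have h2 : volume.real ((Jn T n) ∩ (Jn T m)) ≤ volume.real (Jn T n) :=
          measureReal_mono inter_subset_left (Jn_fin T n)
        refine h2.trans (le_of_eq ?_)
        unfold Jn
        rw [Real.volume_real_Icc_of_le (by linarith)]
        ring
      · have : (Jn T n) ∩ (Jn T m) = ∅ := by
          rw [Set.eq_empty_iff_forall_notMem]
          rintro t ⟨h2, h3⟩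
          apply hc
          rw [abs_le]
          constructor <;> linarith [h2.1, h2.2, h3.1, h3.2]
        rw [this]
        simp
    have h3 : w n * w m ≤ (w n ^ 2 + w m ^ 2) / 2 := by nlinarith [sq_nonneg (w n - w m)]
    exact mul_le_mul h3 hle measureReal_nonneg (by positivity)
  calc ∑ n ∈ Ix T, ∫ t, ∑ m ∈ Ix T, w n * w m * ((Jn T n) ∩ (Jn T m)).indicator (fun _ => (1 : ℝ)) t =
        ∑ n ∈ Ix T, ∑ m ∈ Ix T, ∫ t, w n * w m * ((Jn T n) ∩ (Jn T m)).indicator (fun _ => (1 : ℝ)) t :=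
        Finset.sum_congr rfl fun n _ => integral_finset_sum _ fun m _ => (hi n m).const_mul _
    _ ≤ ∑ n ∈ Ix T, ∑ m ∈ Ix T, (w n ^ 2 + w m ^ 2) / 2 * (if |ps T m - ps T n| ≤ 1 then (1 : ℝ) else 0) :=
        Finset.sum_le_sum fun n _ => Finset.sum_le_sum fun m _ => h1 n m
    _ = (∑ n ∈ Ix T, ∑ m ∈ Ix T, w n ^ 2 / 2 * (if |ps T m - ps T n| ≤ 1 then (1 : ℝ) else 0)) +
        ∑ n ∈ Ix T, ∑ m ∈ Ix T, w m ^ 2 / 2 * (if |ps T m - ps T n| ≤ 1 then (1 : ℝ) else 0) := by
        rw [← Finset.sum_add_distrib]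
        refine Finset.sum_congr rfl fun n _ => ?_
        rw [← Finset.sum_add_distrib]
        refine Finset.sum_congr rfl fun m _ => ?_
        ring
    _ = 2 * ∑ n ∈ Ix T, ∑ m ∈ Ix T, w n ^ 2 / 2 * (if |ps T m - ps T n| ≤ 1 then (1 : ℝ) else 0) := by
        have h5 : ∑ n ∈ Ix T, ∑ m ∈ Ix T, w m ^ 2 / 2 * (if |ps T m - ps T n| ≤ 1 then (1 : ℝ) else 0) =
            ∑ n ∈ Ix T, ∑ m ∈ Ix T, w n ^ 2 / 2 * (if |ps T m - ps T n| ≤ 1 then (1 : ℝ) else 0) := by
          rw [Finset.sum_comm]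
          refine Finset.sum_congr rfl fun n _ => Finset.sum_congr rfl fun m _ => ?_
          rw [abs_sub_comm]
        rw [h5]
        ring
    _ = ∑ n ∈ Ix T, w n ^ 2 * nu T 1 n := by
        rw [Finset.mul_sum]
        refine Finset.sum_congr rfl fun n _ => ?_
        rw [← Finset.mul_sum]
        unfold nu
        rw [Finset.card_filter]
        push_cast
        ring

lemma win_int (J : ℕ) (n m : ℕ) : ∫ t in Jn T n, Ph J (ps T m - t) = Ps J (ps T m - ps T n) := by
  unfold Jn Ps
  rw [integral_Icc_eq_integral_Ioc, ← intervalIntegral.integral_of_le (by linarith),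
    intervalIntegral.integral_comp_sub_left,
    intervalIntegral.integral_comp_add_left (fun s => Ph J s) (ps T m - ps T n)]
  congr 1 <;> ring

lemma Jn_sub (hT : 10 ≤ T) {n : ℕ} (hn : n ∈ Ix T) : Jn T n ⊆ It T := by
  have hpi := Real.pi_pos
  have hL : 0 < Real.log T := Real.log_pos (by linarith)
  rw [mem_Ix] at hn
  have h0 := SG.ord_pos hn.1
  have h1 : 0 ≤ ps T n := by unfold ps; positivity
  have h2 : ps T n ≤ nT T := by
    unfold ps nT
    apply div_le_div_of_nonneg_right _ (by positivity)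
    exact mul_le_mul_of_nonneg_right hn.2 hL.le
  unfold Jn It
  exact Icc_subset_Icc (by linarith) (by linarith)

/-- the pairing of the weight function with the centred sum -/
lemma pairing (hT : 10 ≤ T) (J : ℕ) : (Integrable fun t => Wf T w t * Lf T J t) ∧
    ∫ t, Wf T w t * Lf T J t = ∑ n ∈ Ix T, w n * ((∑ m ∈ Ix T, Ps J (ps T m - ps T n)) - cJ J) := by
  have hFc := Fs_cont T J
  have hloc : ∀ n, IntegrableOn (Lf T J) (Jn T n) := by
    intro n
    unfold Lf
    refine IntegrableOn.sub (hFc.continuousOn.integrableOn_compact isCompact_Icc) ?_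
    refine Integrable.const_mul ?_ _
    refine Integrable.integrableOn ?_
    exact (integrable_indicator_iff (It_meas T)).2 (integrableOn_const (It_fin T))
  have e : ∀ t, Wf T w t * Lf T J t = ∑ n ∈ Ix T, w n * (Jn T n).indicator (Lf T J) t := by
    intro t
    unfold Wf
    rw [Finset.sum_mul]
    refine Finset.sum_congr rfl fun n _ => ?_
    by_cases ht : t ∈ Jn T n
    · rw [indicator_of_mem ht, indicator_of_mem ht]; ring
    · rw [indicator_of_notMem ht, indicator_of_notMem ht]; ring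
  have hi : ∀ n, Integrable fun t => w n * (Jn T n).indicator (Lf T J) t := fun n =>
    ((integrable_indicator_iff (Jn_meas T n)).2 (hloc n)).const_mul _
  simp_rw [e]
  refine ⟨integrable_finset_sum _ fun n _ => hi n, ?_⟩
  rw [integral_finset_sum _ fun n _ => hi n]
  refine Finset.sum_congr rfl fun n hn => ?_
  rw [integral_const_mul, integral_indicator (Jn_meas T n)]
  congr 1
  have h1 : ∫ t in Jn T n, Lf T J t = ∫ t in Jn T n, (Fs T J t - cJ J) := by
    refine setIntegral_congr_fun (Jn_meas T n) fun t ht => ?_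
    show Fs T J t - cJ J * (It T).indicator (fun _ => (1 : ℝ)) t = _
    rw [indicator_of_mem (Jn_sub hT hn ht), mul_one]
  have hFi : IntegrableOn (Fs T J) (Jn T n) := hFc.continuousOn.integrableOn_compact isCompact_Icc
  have hvol : volume.real (Jn T n) = 1 := by
    unfold Jn
    rw [Real.volume_real_Icc_of_le (by linarith)]
    ring
  rw [h1, integral_sub hFi
    (integrableOn_const (Jn_fin T n)), setIntegral_const, hvol,
    one_smul]
  congr 1
  unfold Fs
  rw [integral_finset_sum]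
  · exact Finset.sum_congr rfl fun m _ => win_int J n m
  · intro m _
    exact (((Ph_cont J).comp (by fun_prop : Continuous fun t : ℝ => ps T m - t)).continuousOn).integrableOn_compact
      isCompact_Icc

lemma amgm {f g : ℝ → ℝ} {lam : ℝ} (hl : 0 < lam) (hfg : Integrable fun t => f t * g t)
    (hf : Integrable fun t => f t ^ 2) (hg : Integrable fun t => g t ^ 2) :
    |∫ t, f t * g t| ≤ (lam * (∫ t, f t ^ 2) + (∫ t, g t ^ 2) / lam) / 2 := by
  have h1 : ∀ t, |f t * g t| ≤ (lam * f t ^ 2 + g t ^ 2 / lam) / 2 := by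
    intro t
    have h2 : 0 ≤ (Real.sqrt lam * |f t| - |g t| / Real.sqrt lam) ^ 2 := sq_nonneg _
    have h3 : 0 < Real.sqrt lam := Real.sqrt_pos.2 hl
    have h4 : Real.sqrt lam ^ 2 = lam := Real.sq_sqrt hl.le
    have e : (Real.sqrt lam * |f t| - |g t| / Real.sqrt lam) ^ 2 =
        Real.sqrt lam ^ 2 * |f t| ^ 2 + |g t| ^ 2 / Real.sqrt lam ^ 2 - 2 * (|f t| * |g t|) := by
      field_simp
      ring
    rw [e, h4, sq_abs, sq_abs] at h2
    rw [abs_mul]
    linarith
  have h5 := norm_integral_le_of_norm_le (f := fun t => f t * g t)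
    (g := fun t => (lam * f t ^ 2 + g t ^ 2 / lam) / 2)
    (((hf.const_mul lam).add (hg.div_const lam)).div_const 2) (ae_of_all _ fun t => by
      rw [Real.norm_eq_abs]; exact h1 t)
  rw [Real.norm_eq_abs, integral_div, integral_add (hf.const_mul lam) (hg.div_const lam),
    integral_const_mul, integral_div] at h5
  exact h5

/-- **the key inequality** -/
theorem key (RH : RiemannHypothesis) {J : ℕ} (hJ : 1 ≤ J) :
    ∀ᶠ T : ℝ in atTop, ∀ (w : ℕ → ℝ) (C : ℝ), (∀ n, 0 ≤ w n) →
      ∑ n ∈ Ix T, w n ^ 2 * nu T 1 n ≤ C * nT T →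
      |∑ n ∈ Ix T, w n * ((∑ m ∈ Ix T, Ps J (ps T m - ps T n)) - cJ J)| ≤
        (C + 5) / Real.sqrt J * nT T := by
  have hJ0 : (0 : ℝ) < J := by exact_mod_cast hJ
  have hs : 0 < Real.sqrt J := Real.sqrt_pos.2 hJ0
  have hs2 : Real.sqrt J * Real.sqrt J = J := Real.mul_self_sqrt hJ0.le
  filter_upwards [L2 RH hJ (show (0 : ℝ) < 1 / J by positivity), eventually_ge_atTop 10] with T h1 hT
  intro w C hw hC
  have hn := nT_pos hT
  obtain ⟨hp1, hp2⟩ := pairing (w := w) hT J
  obtain ⟨hw1, hw2⟩ := Wf_sq (T := T) hw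
  rw [← hp2]
  have hl : 0 < 1 / Real.sqrt J := by positivity
  have h2 := amgm hl hp1 hw1 h1.1
  refine h2.trans ?_
  have h3 : 1 / Real.sqrt J * ∫ t, Wf T w t ^ 2 ≤ 1 / Real.sqrt J * (C * nT T) :=
    mul_le_mul_of_nonneg_left (hw2.trans hC) hl.le
  have h4 : (∫ t, Lf T J t ^ 2) / (1 / Real.sqrt J) ≤ (4 / J + 1 / J) * nT T / (1 / Real.sqrt J) :=
    div_le_div_of_nonneg_right h1.2 hl.le
  have e : (4 / (J : ℝ) + 1 / J) * nT T / (1 / Real.sqrt J) = 5 / Real.sqrt J * nT T := by
    rw [div_div_eq_mul_div, div_one, ← add_div, ← hs2]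
    field_simp
    norm_num
    ring
  rw [e] at h4
  have hC0 : 0 ≤ C * nT T := by
    refine le_trans ?_ hC
    exact Finset.sum_nonneg fun n _ => mul_nonneg (sq_nonneg _) (nu_nonneg _ _ _)
  have h5 : 0 ≤ 1 / Real.sqrt J * (C * nT T) := by positivity
  have h6 : 0 ≤ 5 / Real.sqrt J * nT T := by positivity
  have e2 : (C + 5) / Real.sqrt J * nT T = 1 / Real.sqrt J * (C * nT T) + 5 / Real.sqrt J * nT T := by ring
  rw [e2]
  linarith

/-! ### tails -/

/-- the tail of the weight `1 / (1 + u²)` -/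
noncomputable def qt (R : ℝ) : ℝ := ∫ u, {u : ℝ | R < |u|}.indicator (fun u => 1 / (1 + u ^ 2)) u

lemma qt_meas (R : ℝ) : MeasurableSet {u : ℝ | R < |u|} := measurableSet_lt measurable_const (by fun_prop)

lemma qt_nonneg (R : ℝ) : 0 ≤ qt R :=
  integral_nonneg fun u => indicator_nonneg (fun u _ => by positivity) _

lemma qt_lim : Tendsto qt atTop (𝓝 0) := by
  have h : Tendsto (fun R : ℝ => ∫ u, {u : ℝ | R < |u|}.indicator (fun u => 1 / (1 + u ^ 2)) u) atTop
      (𝓝 (∫ _u : ℝ, (0 : ℝ))) := by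
    refine tendsto_integral_filter_of_dominated_convergence (fun v : ℝ => 1 / (1 + v ^ 2))
      (Eventually.of_forall fun R => ?_) (Eventually.of_forall fun R => ae_of_all _ fun v => ?_) int_inv
      (ae_of_all _ fun v => ?_)
    · exact (int_inv.aestronglyMeasurable).indicator (qt_meas R)
    · rw [Real.norm_eq_abs, abs_of_nonneg (indicator_nonneg (fun u _ => by positivity) _)]
      exact indicator_le_self' (fun u _ => by positivity) v
    · refine tendsto_const_nhds.congr' ?_
      filter_upwards [eventually_ge_atTop |v|] with R hR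
      rw [indicator_of_notMem]
      intro hc
      have : R < |v| := hc
      linarith
  rw [integral_zero] at h
  exact h

/-- the tail of the kernel -/
noncomputable def kap (J : ℕ) (R x : ℝ) : ℝ := {u : ℝ | R < |u|}.indicator (Ph J) x

lemma kap_nonneg (J : ℕ) (R x : ℝ) : 0 ≤ kap J R x := indicator_nonneg (fun u _ => Ph_nonneg J u) _

lemma kap_int (J : ℕ) (R : ℝ) : Integrable (kap J R) := (Ph_int J).indicator (qt_meas R)

/-- the correlation of the tails -/
lemma kap_corr (J : ℕ) : ∃ B : ℝ, 0 < B ∧ ∀ R a b : ℝ,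
    (Integrable fun t : ℝ => kap J R (a - t) * kap J R (b - t)) ∧
    ∫ t, kap J R (a - t) * kap J R (b - t) ≤ B * qt R * (1 / (1 + (a - b) ^ 2)) := by
  obtain ⟨B, hB0, hB⟩ := Ph_bound J
  refine ⟨4 * B ^ 2, by positivity, fun R a b => ?_⟩
  have hm : AEStronglyMeasurable fun t : ℝ => kap J R (a - t) * kap J R (b - t) :=
    ((kap_int J R).comp_sub_left a).aestronglyMeasurable.mul
      ((kap_int J R).comp_sub_left b).aestronglyMeasurable
  obtain ⟨q, hq⟩ : ∃ q : ℝ → ℝ, q = {u : ℝ | R < |u|}.indicator (fun u => 1 / (1 + u ^ 2)) := ⟨_, rfl⟩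
  have hqi : Integrable q := by rw [hq]; exact int_inv.indicator (qt_meas R)
  have hq0 : ∀ u, 0 ≤ q u := fun u => by rw [hq]; exact indicator_nonneg (fun u _ => by positivity) _
  have hpt : ∀ t, kap J R (a - t) * kap J R (b - t) ≤
      B ^ 2 * (2 / (1 + (a - b) ^ 2)) * (q (a - t) + q (b - t)) := by
    intro t
    by_cases h1 : R < |a - t|
    · by_cases h2 : R < |b - t|
      · have e1 : kap J R (a - t) = Ph J (a - t) := indicator_of_mem (show a - t ∈ {u : ℝ | R < |u|} from h1) _
        have e2 : kap J R (b - t) = Ph J (b - t) := indicator_of_mem (show b - t ∈ {u : ℝ | R < |u|} from h2) _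
        have e3 : q (a - t) = 1 / (1 + (a - t) ^ 2) := by
          rw [hq]; exact indicator_of_mem (show a - t ∈ {u : ℝ | R < |u|} from h1) _
        have e4 : q (b - t) = 1 / (1 + (b - t) ^ 2) := by
          rw [hq]; exact indicator_of_mem (show b - t ∈ {u : ℝ | R < |u|} from h2) _
        rw [e1, e2, e3, e4]
        have h3 := conv_pt (a - t) (-(b - t))
        rw [neg_sq, show a - t + -(b - t) = a - b by ring] at h3
        calc Ph J (a - t) * Ph J (b - t) ≤ B / (1 + (a - t) ^ 2) * (B / (1 + (b - t) ^ 2)) :=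
              mul_le_mul (hB _) (hB _) (Ph_nonneg J _) (by positivity)
          _ = B ^ 2 * (1 / (1 + (a - t) ^ 2) * (1 / (1 + (b - t) ^ 2))) := by ring
          _ ≤ B ^ 2 * (2 / (1 + (a - b) ^ 2) * (1 / (1 + (a - t) ^ 2) + 1 / (1 + (b - t) ^ 2))) :=
              mul_le_mul_of_nonneg_left h3 (by positivity)
          _ = _ := by ring
      · have e2 : kap J R (b - t) = 0 := indicator_of_notMem (show b - t ∉ {u : ℝ | R < |u|} from h2) _
        rw [e2, mul_zero]
        have := hq0 (a - t)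
        have := hq0 (b - t)
        positivity
    · have e2 : kap J R (a - t) = 0 := indicator_of_notMem (show a - t ∉ {u : ℝ | R < |u|} from h1) _
      rw [e2, zero_mul]
      have := hq0 (a - t)
      have := hq0 (b - t)
      positivity
  have hqa : Integrable fun t => q (a - t) := hqi.comp_sub_left a
  have hqb : Integrable fun t => q (b - t) := hqi.comp_sub_left b
  have hi : Integrable fun t => B ^ 2 * (2 / (1 + (a - b) ^ 2)) * (q (a - t) + q (b - t)) :=
    (hqa.add hqb).const_mul _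
  have hi2 : Integrable fun t : ℝ => kap J R (a - t) * kap J R (b - t) := by
    refine hi.mono' hm (ae_of_all _ fun t => ?_)
    rw [Real.norm_eq_abs, abs_of_nonneg (mul_nonneg (kap_nonneg _ _ _) (kap_nonneg _ _ _))]
    exact hpt t
  refine ⟨hi2, ?_⟩
  refine (integral_mono hi2 hi hpt).trans (le_of_eq ?_)
  rw [integral_const_mul, integral_add hqa hqb]
  have e1 : ∀ c : ℝ, ∫ t, q (c - t) = qt R := by
    intro c
    rw [integral_sub_left_eq_self (fun t => q t) volume c, hq]
    rfl
  rw [e1, e1]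
  ring

/-- **tails** -/
theorem tail (RH : RiemannHypothesis) (J : ℕ) : ∃ B : ℝ, 0 < B ∧
    ∀ᶠ T : ℝ in atTop, ∀ (R : ℝ) (w : ℕ → ℝ) (C lam : ℝ), (∀ n, 0 ≤ w n) → 0 < lam → 
      ∑ n ∈ Ix T, w n ^ 2 * nu T 1 n ≤ C * nT T →
      ∑ n ∈ Ix T, w n * ∑ m ∈ (Ix T).filter (fun m => R + 1 < |ps T m - ps T n|), Ps J (ps T m - ps T n) ≤
        (lam * C + B * qt R / lam) * nT T := by
  classical
  obtain ⟨B, hB0, hB⟩ := kap_corr J
  obtain ⟨C0, hC0, hM⟩ := Mp_bdd
  have hDD := DD_nonneg 0
  refine ⟨B * (2 * C0 * DD 0) + 1, by positivity, ?_⟩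
  filter_upwards [hM, eventually_ge_atTop 10] with T hMT hT
  intro R w C lam hw hlam hC
  have hn := nT_pos hT
  obtain ⟨K, hK⟩ : ∃ K : ℝ → ℝ, K = fun t => ∑ m ∈ Ix T, kap J R (ps T m - t) := ⟨_, rfl⟩
  have hKi : ∀ m, Integrable fun t : ℝ => kap J R (ps T m - t) := fun m => (kap_int J R).comp_sub_left _
  have hK0 : ∀ t, 0 ≤ K t := fun t => by rw [hK]; exact Finset.sum_nonneg fun m _ => kap_nonneg _ _ _
  have hKint : Integrable K := by rw [hK]; exact integrable_finset_sum _ fun m _ => hKi m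
  -- the square
  have e : ∀ t, K t ^ 2 = ∑ n ∈ Ix T, ∑ m ∈ Ix T, kap J R (ps T n - t) * kap J R (ps T m - t) := by
    intro t
    rw [hK]
    simp only
    rw [sq, Finset.sum_mul_sum]
  have hK2i : Integrable fun t => K t ^ 2 := by
    simp_rw [e]
    exact integrable_finset_sum _ fun n _ => integrable_finset_sum _ fun m _ => (hB R _ _).1
  have hK2 : ∫ t, K t ^ 2 ≤ B * (2 * C0 * DD 0) * qt R * nT T := by
    simp_rw [e]
    rw [integral_finset_sum _ fun n _ => integrable_finset_sum _ fun m _ => (hB R _ _).1]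
    have h1 : ∀ n ∈ Ix T, ∫ t, ∑ m ∈ Ix T, kap J R (ps T n - t) * kap J R (ps T m - t) ≤
        ∑ m ∈ Ix T, B * qt R * (1 / (1 + (ps T n - ps T m) ^ 2)) := by
      intro n _
      rw [integral_finset_sum _ fun m _ => (hB R _ _).1]
      exact Finset.sum_le_sum fun m _ => (hB R _ _).2
    refine (Finset.sum_le_sum h1).trans ?_
    have h2 := pair_sum RH hT (fun x => 1 / (1 + x ^ 2))
    simp_rw [← Finset.mul_sum]
    rw [h2]
    have h3 := (Pool.Agent.N805.FL.inv_int (by linarith) hMT).2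
    have h4 := qt_nonneg R
    calc B * qt R * (nT T * ∫ x, 1 / (1 + x ^ 2) ∂(Mp T)) ≤ B * qt R * (nT T * (2 * C0 * DD 0)) := by
          gcongr
      _ = _ := by ring
  obtain ⟨hw1, hw2⟩ := Wf_sq (T := T) hw
  -- the product
  have hWb : Integrable fun t => Wf T w t * K t := by
    have hbd : ∀ t, ‖Wf T w t‖ ≤ ∑ n ∈ Ix T, w n := by
      intro t
      rw [Real.norm_eq_abs, abs_of_nonneg (Wf_nonneg hw t)]
      unfold Wf
      refine Finset.sum_le_sum fun n _ => ?_
      exact mul_le_of_le_one_right (hw n) (indicator_le_self' (fun _ _ => zero_le_one) t)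
    exact hKint.bdd_mul (c := ∑ n ∈ Ix T, w n) Wf_meas (ae_of_all _ hbd)
  have h5 := amgm hlam hWb hw1 hK2i
  have h6 : ∑ n ∈ Ix T, w n * ∑ m ∈ (Ix T).filter (fun m => R + 1 < |ps T m - ps T n|),
      Ps J (ps T m - ps T n) ≤ ∫ t, Wf T w t * K t := by
    have e2 : ∀ t, Wf T w t * K t = ∑ n ∈ Ix T, w n * (Jn T n).indicator K t := by
      intro t
      unfold Wf
      rw [Finset.sum_mul]
      refine Finset.sum_congr rfl fun n _ => ?_
      by_cases ht : t ∈ Jn T n
      · rw [indicator_of_mem ht, indicator_of_mem ht]; ring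
      · rw [indicator_of_notMem ht, indicator_of_notMem ht]; ring
    simp_rw [e2]
    rw [integral_finset_sum _ fun n _ => ((hKint.indicator (Jn_meas T n)).const_mul _)]
    refine Finset.sum_le_sum fun n _ => ?_
    rw [integral_const_mul, integral_indicator (Jn_meas T n)]
    refine mul_le_mul_of_nonneg_left ?_ (hw n)
    rw [hK]
    simp only
    rw [integral_finset_sum _ fun m _ => (hKi m).integrableOn]
    refine le_trans ?_ (Finset.sum_le_sum_of_subset_of_nonneg (Finset.filter_subset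
      (fun m => R + 1 < |ps T m - ps T n|) _) fun m _ _ =>
      setIntegral_nonneg (Jn_meas T n) fun t _ => kap_nonneg _ _ _)
    refine Finset.sum_le_sum fun m hm => ?_
    rw [Finset.mem_filter] at hm
    rw [← win_int]
    refine le_of_eq (setIntegral_congr_fun (Jn_meas T n) fun t ht => ?_)
    have h7 : R < |ps T m - t| := by
      have h8 : |t - ps T n| ≤ 1 / 2 := by rw [abs_le]; constructor <;> linarith [ht.1, ht.2]
      have h9 : |ps T m - ps T n| ≤ |ps T m - t| + |t - ps T n| := abs_sub_le _ _ _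
      linarith [hm.2]
    exact (indicator_of_mem (show ps T m - t ∈ {u : ℝ | R < |u|} from h7) (Ph J)).symm
  refine h6.trans ((le_abs_self _).trans (h5.trans ?_))
  have h7 : lam * ∫ t, Wf T w t ^ 2 ≤ lam * (C * nT T) := mul_le_mul_of_nonneg_left (hw2.trans hC) hlam.le
  have h8 : (∫ t, K t ^ 2) / lam ≤ B * (2 * C0 * DD 0) * qt R * nT T / lam :=
    div_le_div_of_nonneg_right hK2 hlam.le
  have h9 : B * (2 * C0 * DD 0) * qt R * nT T / lam ≤ (B * (2 * C0 * DD 0) + 1) * qt R / lam * nT T := by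
    have := qt_nonneg R
    rw [div_mul_eq_mul_div]
    apply div_le_div_of_nonneg_right _ hlam.le
    have : 0 ≤ qt R * nT T := by positivity
    nlinarith
  have h10 : 0 ≤ lam * (C * nT T) := by
    have : 0 ≤ C * nT T := by
      refine le_trans ?_ hC
      exact Finset.sum_nonneg fun n _ => mul_nonneg (sq_nonneg _) (nu_nonneg _ _ _)
    positivity
  have h11 : 0 ≤ (B * (2 * C0 * DD 0) + 1) * qt R / lam * nT T := by
    have := qt_nonneg R
    positivity
  have e3 : (lam * C + (B * (2 * C0 * DD 0) + 1) * qt R / lam) * nT T = lam * (C * nT T) +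
      (B * (2 * C0 * DD 0) + 1) * qt R / lam * nT T := by ring
  rw [e3]
  linarith

end Pool.Agent.N805.OS
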