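import Pool.Agent.N805.OS.C2
import Pool.Agent.R320.KL.Mza

/-! # Moments of the number of zeros near a zero -/

set_option autoImplicit false

open MeasureTheory Set Filter Topology

namespace Pool.Agent.N805.OS

open Pool.Agent.Y749.Rig
open SG (ord NZ zmult ZS)
open W200.HW (Ix mem_Ix card_Ix)
open Pool.Agent.R320.KL Pool.Agent.R320.JL

lemma rhs_of (RH : RiemannHypothesis) : SP.RHs := by
  intro s h1 h2 h0
  apply RH s h0
  · rintro ⟨k, hk⟩
    have := congrArg Complex.re hk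
    simp at this
    have hk0 : (0 : ℝ) ≤ k := Nat.cast_nonneg k
    linarith
  · intro h; rw [h] at h2; simp at h2

lemma nu_le_WW {T b : ℝ} (hT : 10 ≤ T) (hb : 0 ≤ b) (n : ℕ) :
    nu T b n ≤ WW T (-(b + 1)) b n + (2 * b + 1) := by
  classical
  have hpi := Real.pi_pos
  have hL : 0 < Real.log T := Real.log_pos (by linarith)
  have hh : 0 < 2 * Real.pi / Real.log T := by positivity
  have hsub : ((Ix T).filter fun m => |ps T m - ps T n| ≤ b) ⊆
      Finset.Ioc (NZ (ord n + -(b + 1) * (2 * Real.pi / Real.log T)))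
        (NZ (ord n + b * (2 * Real.pi / Real.log T))) := by
    intro m hm
    rw [Finset.mem_filter, mem_Ix, ps_sub] at hm
    obtain ⟨⟨hm1, hm2⟩, hm3⟩ := hm
    have e : ∀ u : ℝ, (ord m - ord n) * Real.log T / (2 * Real.pi) = u ↔
        ord m = ord n + u * (2 * Real.pi / Real.log T) := by
      intro u
      field_simp
      constructor <;> intro h <;> linarith
    have e1 : ord m = ord n + ((ord m - ord n) * Real.log T / (2 * Real.pi)) *
        (2 * Real.pi / Real.log T) := (e _).1 rfl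
    rw [abs_le] at hm3
    rw [Finset.mem_Ioc]
    constructor
    · by_contra hc
      push Not at hc
      have h1 := (SG.ord_le_iff hm1 _).2 hc
      rw [e1] at h1
      have h2 : (ord m - ord n) * Real.log T / (2 * Real.pi) * (2 * Real.pi / Real.log T) ≤
          -(b + 1) * (2 * Real.pi / Real.log T) := by linarith
      have h3 := le_of_mul_le_mul_right h2 hh
      linarith
    · refine (SG.ord_le_iff hm1 _).1 ?_
      rw [e1]
      have := mul_le_mul_of_nonneg_right hm3.2 hh.le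
      linarith
  have hcard := Finset.card_le_card hsub
  rw [Nat.card_Ioc] at hcard
  have hmono : NZ (ord n + -(b + 1) * (2 * Real.pi / Real.log T)) ≤
      NZ (ord n + b * (2 * Real.pi / Real.log T)) := by
    apply SG.NZ_mono
    have : -(b + 1) * (2 * Real.pi / Real.log T) ≤ b * (2 * Real.pi / Real.log T) :=
      mul_le_mul_of_nonneg_right (by linarith) hh.le
    linarith
  have h1 : nu T b n ≤ (NZ (ord n + b * (2 * Real.pi / Real.log T)) : ℝ) -
      NZ (ord n + -(b + 1) * (2 * Real.pi / Real.log T)) := by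
    rw [← Nat.cast_sub hmono]
    unfold nu
    exact_mod_cast hcard
  unfold WW
  linarith

/-- **moments of the number of zeros near a zero** -/
theorem MB (RH : RiemannHypothesis) {b : ℝ} (hb : 0 ≤ b) (p : ℕ) : ∃ C : ℝ, 0 < C ∧
    ∀ᶠ T : ℝ in atTop, ∑ n ∈ Ix T, nu T b n ^ p ≤ C * nT T := by
  have hpi := Real.pi_pos
  obtain ⟨j, hj⟩ : ∃ j : ℕ, p ≤ 2 * 2 ^ j := ⟨p, by
    have := (Nat.lt_two_pow_self (n := p)).le
    omega⟩
  obtain ⟨q, hq⟩ : ∃ q : ℕ, q = 2 ^ j := ⟨_, rfl⟩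
  obtain ⟨C, hC, hev⟩ := momC (rhs_of RH) j 1 le_rfl
  rw [← hq] at hev hj
  obtain ⟨M, hM1, hM2⟩ := (hev.and (eventually_ge_atTop (⌈b + 1⌉₊))).exists
  have hM2' : b + 1 ≤ M := (Nat.le_ceil _).trans (by exact_mod_cast hM2)
  obtain ⟨C1, hC1⟩ : ∃ C1 : ℝ, C1 = C * (1 + Real.log (2 + (b - -(b + 1)))) ^ q := ⟨_, rfl⟩
  have hlog0 : 0 ≤ Real.log (2 + (b - -(b + 1))) := Real.log_nonneg (by linarith)
  have hC1p : 0 < C1 := by rw [hC1]; positivity
  refine ⟨2 + 2 ^ (2 * q) * (C1 * (2 * Real.pi) + 2 * (2 * b + 1) ^ (2 * q)), by positivity, ?_⟩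
  filter_upwards [NZ_asymp (show (0 : ℝ) < 1 by norm_num), eventually_ge_atTop 10,
    Real.tendsto_log_atTop.eventually_ge_atTop (((2 * M : ℕ) : ℝ) * Real.log (2 * M : ℕ))] with T h1 hT h3
  have hL : 0 < Real.log T := Real.log_pos (by linarith)
  have hn := nT_pos hT
  have h4 := hM1 T (by linarith) (by linarith) (-(b + 1)) b (by rw [abs_neg, abs_of_nonneg (by linarith)]; exact hM2')
    (by rw [abs_of_nonneg hb]; linarith) (by linarith)
  rw [← hC1] at h4
  have hone : ∀ n : ℕ, nu T b n ^ p ≤ 1 + 2 ^ (2 * q) * (WW T (-(b + 1)) b n ^ (2 * q) + (2 * b + 1) ^ (2 * q)) := by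
    intro n
    have hnu := nu_nonneg T b n
    have h5 : nu T b n ^ p ≤ 1 + nu T b n ^ (2 * q) := by
      rcases le_total (nu T b n) 1 with hc | hc
      · have := pow_le_one₀ hnu hc (n := p)
        have := pow_nonneg hnu (2 * q)
        linarith
      · have := pow_le_pow_right₀ hc hj
        linarith
    have h6 : nu T b n ≤ |WW T (-(b + 1)) b n| + (2 * b + 1) :=
      (nu_le_WW hT hb n).trans (by linarith [le_abs_self (WW T (-(b + 1)) b n)])
    have h7 : nu T b n ^ (2 * q) ≤ (|WW T (-(b + 1)) b n| + (2 * b + 1)) ^ (2 * q) :=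
      pow_le_pow_left₀ hnu h6 _
    have h8 := add_pow_le2 (abs_nonneg (WW T (-(b + 1)) b n)) (show 0 ≤ 2 * b + 1 by linarith) (2 * q)
    rw [(even_two_mul q).pow_abs] at h8
    linarith
  refine (Finset.sum_le_sum fun n _ => hone n).trans ?_
  rw [Finset.sum_add_distrib, Finset.sum_const, nsmul_eq_mul, mul_one, ← Finset.mul_sum,
    Finset.sum_add_distrib, Finset.sum_const, nsmul_eq_mul, card_Ix]
  have h9 : T * Real.log T = 2 * Real.pi * nT T := by unfold nT; field_simp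
  rw [h9] at h4
  have h4' : ∑ n ∈ Ix T, WW T (-(b + 1)) b n ^ (2 * q) ≤ C1 * (2 * Real.pi * nT T) := h4
  have h10 : (NZ T : ℝ) * (2 * b + 1) ^ (2 * q) ≤ (1 + 1) * nT T * (2 * b + 1) ^ (2 * q) :=
    mul_le_mul_of_nonneg_right h1.2 (by positivity)
  have h11 : (2 : ℝ) ^ (2 * q) * (∑ n ∈ Ix T, WW T (-(b + 1)) b n ^ (2 * q) + (NZ T : ℝ) * (2 * b + 1) ^ (2 * q)) ≤
      2 ^ (2 * q) * (C1 * (2 * Real.pi * nT T) + (1 + 1) * nT T * (2 * b + 1) ^ (2 * q)) :=
    mul_le_mul_of_nonneg_left (add_le_add h4' h10) (by positivity)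
  calc _ ≤ (1 + 1) * nT T + 2 ^ (2 * q) * (C1 * (2 * Real.pi * nT T) + (1 + 1) * nT T * (2 * b + 1) ^ (2 * q)) :=
        add_le_add h1.2 h11
    _ = _ := by ring

end Pool.Agent.N805.OS
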