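import Mathlib

/-! # One-sided bounds on intervals and integrals of functions -/

set_option autoImplicit false

open MeasureTheory Set Filter Topology

namespace Pool.Agent.N805.OS

/-- a one-sided bound on closed intervals -/
def OsI (l : Filter ℝ) (μ : ℝ → Measure ℝ) (g : ℝ → ℝ) (σ : ℝ) : Prop :=
  ∀ a b : ℝ, a < b → ∀ ε : ℝ, 0 < ε → ∀ᶠ T in l, σ * ((μ T).real (Icc a b) - ∫ v in a..b, g v) ≤ ε

/-- bounded mass of intervals -/
def BdI (l : Filter ℝ) (μ : ℝ → Measure ℝ) : Prop :=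
  ∀ a b : ℝ, a < b → ∃ C : ℝ, 0 ≤ C ∧ ∀ᶠ T in l, (μ T).real (Icc a b) ≤ C

/-- the tails of the integral of `ψ` -/
def Tl (l : Filter ℝ) (μ : ℝ → Measure ℝ) (ψ : ℝ → ℝ) : Prop :=
  ∀ ε : ℝ, 0 < ε → ∃ R0 : ℝ, ∀ R : ℝ, R0 ≤ R → ∀ᶠ T in l, ∫ x in (Ioc (-R) R)ᶜ, ψ x ∂(μ T) ≤ ε

variable {l : Filter ℝ} {μ : ℝ → Measure ℝ} {g : ℝ → ℝ} {σ G : ℝ}

lemma int_g_le (hG : ∀ v, |g v| ≤ G) {a b : ℝ} (hab : a ≤ b) : |∫ v in a..b, g v| ≤ G * (b - a) := by
  have h := intervalIntegral.norm_integral_le_of_norm_le_const (a := a) (b := b) (f := g) (C := G)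
    (fun x _ => by rw [Real.norm_eq_abs]; exact hG x)
  rw [Real.norm_eq_abs, abs_of_nonneg (by linarith : 0 ≤ b - a)] at h
  exact h

lemma os_Ioc (hμ : ∀ T, IsFiniteMeasure (μ T)) (hgc : Continuous g) (hG : ∀ v, |g v| ≤ G)
    (hσ : σ = 1 ∨ σ = -1) (h : OsI l μ g σ) {a b : ℝ} (hab : a < b) {ε : ℝ} (hε : 0 < ε) :
    ∀ᶠ T in l, σ * ((μ T).real (Ioc a b) - ∫ v in a..b, g v) ≤ ε := by
  have hG0 : 0 ≤ G := (abs_nonneg _).trans (hG 0)
  rcases hσ with rfl | rfl
  · filter_upwards [h a b hab ε hε] with T hT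
    have h1 : (μ T).real (Ioc a b) ≤ (μ T).real (Icc a b) := by
      haveI := hμ T
      exact measureReal_mono Ioc_subset_Icc_self
    linarith
  · obtain ⟨δ, hδ0, hδ1, hδ2⟩ : ∃ δ : ℝ, 0 < δ ∧ δ < b - a ∧ G * δ ≤ ε / 2 := by
      refine ⟨min ((b - a) / 2) (ε / (2 * (G + 1))), lt_min (by linarith) (by positivity), ?_, ?_⟩
      · have := min_le_left ((b - a) / 2) (ε / (2 * (G + 1)))
        linarith
      · have h1 := min_le_right ((b - a) / 2) (ε / (2 * (G + 1)))
        calc G * min ((b - a) / 2) (ε / (2 * (G + 1))) ≤ G * (ε / (2 * (G + 1))) :=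
              mul_le_mul_of_nonneg_left h1 hG0
          _ = ε / 2 * (G / (G + 1)) := by field_simp
          _ ≤ ε / 2 * 1 := by
              apply mul_le_mul_of_nonneg_left _ (by positivity)
              rw [div_le_one (by positivity)]; linarith
          _ = ε / 2 := mul_one _
    filter_upwards [h (a + δ) b (by linarith) (ε / 2) (by positivity)] with T hT
    have h1 : (μ T).real (Icc (a + δ) b) ≤ (μ T).real (Ioc a b) := by
      haveI := hμ T
      refine measureReal_mono fun x hx => ⟨by linarith [hx.1], hx.2⟩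
    have h2 := intervalIntegral.integral_add_adjacent_intervals (hgc.intervalIntegrable a (a + δ) (μ := volume))
      (hgc.intervalIntegrable (a + δ) b)
    have h3 := int_g_le hG (show a ≤ a + δ by linarith)
    have h4 := (abs_le.1 h3).2
    have h5 : G * (a + δ - a) = G * δ := by ring
    rw [h5] at h4
    linarith

lemma real_sum_le (hμ : ∀ T, IsFiniteMeasure (μ T)) {T a b η : ℝ} (hab : a ≤ b) {h : ℝ → ℝ}
    (hc : Continuous h) {c : ℝ} (hη : ∀ x ∈ Icc a b, |h x - c| ≤ η) :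
    |(∫ x in a..b, h x ∂(μ T)) - c * (μ T).real (Ioc a b)| ≤ η * (μ T).real (Ioc a b) := by
  haveI := hμ T
  have h1 : (∫ x in a..b, h x ∂(μ T)) - c * (μ T).real (Ioc a b) = ∫ x in Ioc a b, (h x - c) ∂(μ T) := by
    rw [intervalIntegral.integral_of_le hab, integral_sub, setIntegral_const, smul_eq_mul, mul_comm]
    · exact (hc.continuousOn.integrableOn_compact isCompact_Icc).mono_set Ioc_subset_Icc_self
    · exact integrable_const _
  rw [h1, ← Real.norm_eq_abs]
  exact norm_setIntegral_le_of_norm_le_const (measure_lt_top _ _) fun x hx => by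
    rw [Real.norm_eq_abs]; exact hη x (Ioc_subset_Icc_self hx)

/-- one-sided bounds for functions -/
theorem os_fun (hμ : ∀ T, IsFiniteMeasure (μ T)) (hgc : Continuous g) (hG : ∀ v, |g v| ≤ G)
    (hσ : σ = 1 ∨ σ = -1) (hB : BdI l μ) (h : OsI l μ g σ) {a b : ℝ} (hab : a < b) {ψ : ℝ → ℝ}
    (hψc : Continuous ψ) (hψ0 : ∀ x, 0 ≤ ψ x) {ε : ℝ} (hε : 0 < ε) :
    ∀ᶠ T in l, σ * ((∫ x in a..b, ψ x ∂(μ T)) - ∫ v in a..b, ψ v * g v) ≤ ε := by
  have hG0 : 0 ≤ G := (abs_nonneg _).trans (hG 0)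
  obtain ⟨C, hC0, hC⟩ := hB a b hab
  obtain ⟨H, hH⟩ : ∃ H : ℝ, ∀ x ∈ Icc a b, |ψ x| ≤ H := by
    obtain ⟨H, hH⟩ := isCompact_Icc.exists_bound_of_continuousOn (s := Icc a b) hψc.continuousOn
    exact ⟨H, fun x hx => by rw [← Real.norm_eq_abs]; exact hH x hx⟩
  have hH0 : 0 ≤ H := (abs_nonneg _).trans (hH a (left_mem_Icc.2 hab.le))
  obtain ⟨η, hη0, hη⟩ : ∃ η : ℝ, 0 < η ∧ η * (C + G * (b - a)) ≤ ε / 2 := by
    have h1 : 0 ≤ C + G * (b - a) := by
      have : 0 ≤ G * (b - a) := mul_nonneg hG0 (by linarith)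
      linarith
    refine ⟨ε / (2 * (C + G * (b - a) + 1)), by positivity, ?_⟩
    calc ε / (2 * (C + G * (b - a) + 1)) * (C + G * (b - a)) =
        ε / 2 * ((C + G * (b - a)) / (C + G * (b - a) + 1)) := by field_simp
      _ ≤ ε / 2 * 1 := by
          apply mul_le_mul_of_nonneg_left _ (by positivity)
          rw [div_le_one (by positivity)]; linarith
      _ = ε / 2 := mul_one _
  have huc := isCompact_Icc.uniformContinuousOn_of_continuous (s := Icc a b) hψc.continuousOn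
  rw [Metric.uniformContinuousOn_iff] at huc
  obtain ⟨δ, hδ0, hδ⟩ := huc η hη0
  obtain ⟨K, hK⟩ := exists_nat_gt ((b - a) / δ)
  have hK0 : (0 : ℝ) < K := lt_of_le_of_lt (div_nonneg (by linarith) hδ0.le) hK
  have hKδ : (b - a) / K < δ := by
    rw [div_lt_iff₀ hδ0] at hK
    rw [div_lt_iff₀ hK0]
    linarith
  obtain ⟨t, ht⟩ : ∃ t : ℕ → ℝ, t = fun k : ℕ => a + k * ((b - a) / K) := ⟨_, rfl⟩
  have hst : 0 < (b - a) / K := div_pos (by linarith) hK0
  have ht1 : ∀ k, t (k + 1) = t k + (b - a) / K := fun k => by rw [ht]; push_cast; ring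
  have ht0 : t 0 = a := by rw [ht]; simp
  have htK : t K = b := by rw [ht]; field_simp; ring
  have hta : ∀ k, a ≤ t k := fun k => by rw [ht]; show a ≤ a + k * ((b - a) / K); nlinarith [(Nat.cast_nonneg k : (0:ℝ) ≤ k)]
  have htb : ∀ k < K, t (k + 1) ≤ b := by
    intro k hk
    rw [← htK, ht]
    show a + ((k + 1 : ℕ) : ℝ) * ((b - a) / K) ≤ a + K * ((b - a) / K)
    have : ((k + 1 : ℕ) : ℝ) ≤ K := by exact_mod_cast hk
    nlinarith
  -- the intervals
  have hev : ∀ᶠ T in l, ∀ k ∈ Finset.range K,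
      σ * ((μ T).real (Ioc (t k) (t (k + 1))) - ∫ v in (t k)..(t (k + 1)), g v) ≤ ε / (2 * (K * (H + 1))) := by
    rw [eventually_all_finset]
    intro k _
    exact os_Ioc hμ hgc hG hσ h (by rw [ht1]; linarith) (by positivity)
  filter_upwards [hev, hC] with T hT hCT
  haveI := hμ T
  have hσ1 : ∀ z : ℝ, σ * z ≤ |z| := by
    intro z
    rcases hσ with h1 | h1 <;> rw [h1]
    · rw [one_mul]; exact le_abs_self z
    · rw [neg_one_mul]; exact neg_le_abs z
  have hone : ∀ k ∈ Finset.range K, σ * ((∫ x in (t k)..(t (k + 1)), ψ x ∂(μ T)) -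
      ∫ v in (t k)..(t (k + 1)), ψ v * g v) ≤ H * (ε / (2 * (K * (H + 1)))) +
      η * (μ T).real (Ioc (t k) (t (k + 1))) + η * G * ((b - a) / K) := by
    intro k hk
    have hk' := Finset.mem_range.1 hk
    have hle : t k ≤ t (k + 1) := by rw [ht1]; linarith
    have hmem : t k ∈ Icc a b := ⟨hta k, hle.trans (htb k hk')⟩
    have hsub : ∀ x ∈ Icc (t k) (t (k + 1)), |ψ x - ψ (t k)| ≤ η := by
      intro x hx
      have hx' : x ∈ Icc a b := ⟨(hta k).trans hx.1, hx.2.trans (htb k hk')⟩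
      have h1 : dist x (t k) < δ := by
        rw [Real.dist_eq, abs_of_nonneg (by linarith [hx.1])]
        have := hx.2
        rw [ht1] at this
        linarith
      have h2 := hδ x hx' (t k) hmem h1
      rw [Real.dist_eq] at h2
      exact h2.le
    have h1 := real_sum_le hμ (T := T) hle hψc hsub
    have h2 : |(∫ v in (t k)..(t (k + 1)), ψ v * g v) - ψ (t k) * ∫ v in (t k)..(t (k + 1)), g v| ≤
        η * G * ((b - a) / K) := by
      have i1 : IntervalIntegrable (fun v => ψ v * g v) volume (t k) (t (k + 1)) :=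
        (hψc.mul hgc).intervalIntegrable _ _
      have i2 : IntervalIntegrable (fun v => ψ (t k) * g v) volume (t k) (t (k + 1)) :=
        (continuous_const.mul hgc).intervalIntegrable _ _
      rw [← intervalIntegral.integral_const_mul, ← intervalIntegral.integral_sub i1 i2]
      have h3 := intervalIntegral.norm_integral_le_of_norm_le_const (a := t k) (b := t (k + 1))
        (f := fun v => ψ v * g v - ψ (t k) * g v) (C := η * G) (fun x hx => by
          rw [uIoc_of_le hle] at hx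
          rw [← sub_mul, norm_mul, Real.norm_eq_abs, Real.norm_eq_abs]
          exact mul_le_mul (hsub x (Ioc_subset_Icc_self hx)) (hG x) (abs_nonneg _) hη0.le)
      rw [Real.norm_eq_abs, ht1, add_sub_cancel_left, abs_of_nonneg hst.le] at h3
      rw [ht1]
      exact h3
    have h3 := hT k hk
    have h4 : ψ (t k) * (σ * ((μ T).real (Ioc (t k) (t (k + 1))) - ∫ v in (t k)..(t (k + 1)), g v)) ≤
        H * (ε / (2 * (K * (H + 1)))) := by
      have h5 : ψ (t k) ≤ H := (le_abs_self _).trans (hH _ hmem)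
      have h6 : 0 < ε / (2 * (K * (H + 1))) := by positivity
      calc _ ≤ ψ (t k) * (ε / (2 * (K * (H + 1)))) := mul_le_mul_of_nonneg_left h3 (hψ0 _)
        _ ≤ _ := mul_le_mul_of_nonneg_right h5 h6.le
    have h5 := hσ1 ((∫ x in (t k)..(t (k + 1)), ψ x ∂(μ T)) - ψ (t k) * (μ T).real (Ioc (t k) (t (k + 1))))
    have h6 := hσ1 (-((∫ v in (t k)..(t (k + 1)), ψ v * g v) - ψ (t k) * ∫ v in (t k)..(t (k + 1)), g v))
    rw [abs_neg] at h6
    have e : σ * ((∫ x in (t k)..(t (k + 1)), ψ x ∂(μ T)) - ∫ v in (t k)..(t (k + 1)), ψ v * g v) =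
        ψ (t k) * (σ * ((μ T).real (Ioc (t k) (t (k + 1))) - ∫ v in (t k)..(t (k + 1)), g v)) +
        σ * ((∫ x in (t k)..(t (k + 1)), ψ x ∂(μ T)) - ψ (t k) * (μ T).real (Ioc (t k) (t (k + 1)))) +
        σ * (-((∫ v in (t k)..(t (k + 1)), ψ v * g v) - ψ (t k) * ∫ v in (t k)..(t (k + 1)), g v)) := by ring
    rw [e]
    linarith
  have hsum := Finset.sum_le_sum hone
  have hii : ∀ c d : ℝ, IntervalIntegrable ψ (μ T) c d := fun c d => hψc.intervalIntegrable c d
  have e1 : ∑ k ∈ Finset.range K, ∫ x in (t k)..(t (k + 1)), ψ x ∂(μ T) = ∫ x in a..b, ψ x ∂(μ T) := by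
    rw [intervalIntegral.sum_integral_adjacent_intervals fun k _ => hii _ _, ht0, htK]
  have e2 : ∑ k ∈ Finset.range K, ∫ v in (t k)..(t (k + 1)), ψ v * g v = ∫ v in a..b, ψ v * g v := by
    have i1 : ∀ k < K, IntervalIntegrable (fun v => ψ v * g v) volume (t k) (t (k + 1)) :=
      fun k _ => (hψc.mul hgc).intervalIntegrable _ _
    rw [intervalIntegral.sum_integral_adjacent_intervals i1, ht0, htK]
  have e3 : ∑ k ∈ Finset.range K, (μ T).real (Ioc (t k) (t (k + 1))) = (μ T).real (Ioc a b) := by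
    have h1 : ∀ k ∈ Finset.range K, (μ T).real (Ioc (t k) (t (k + 1))) =
        ∫ x in (t k)..(t (k + 1)), (1 : ℝ) ∂(μ T) := by
      intro k _
      rw [intervalIntegral.integral_of_le (by rw [ht1]; linarith)]
      simp
    rw [Finset.sum_congr rfl h1, intervalIntegral.sum_integral_adjacent_intervals fun k _ =>
      intervalIntegrable_const, ht0, htK, intervalIntegral.integral_of_le hab.le]
    simp
  have hle2 : (μ T).real (Ioc a b) ≤ C := (measureReal_mono Ioc_subset_Icc_self).trans hCT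
  rw [← Finset.mul_sum, Finset.sum_sub_distrib, e1, e2, Finset.sum_add_distrib, Finset.sum_add_distrib,
    Finset.sum_const, Finset.sum_const, Finset.card_range, nsmul_eq_mul,
    nsmul_eq_mul, ← Finset.mul_sum, e3] at hsum
  refine hsum.trans ?_
  have e4 : (K : ℝ) * (η * G * ((b - a) / K)) = η * (G * (b - a)) := by field_simp
  have e5 : (K : ℝ) * (H * (ε / (2 * (K * (H + 1))))) = ε / 2 * (H / (H + 1)) := by field_simp
  have h7 : ε / 2 * (H / (H + 1)) ≤ ε / 2 * 1 := by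
    apply mul_le_mul_of_nonneg_left _ (by positivity)
    rw [div_le_one (by positivity)]; linarith
  rw [e4, e5]
  have h8 : η * (μ T).real (Ioc a b) ≤ η * C := mul_le_mul_of_nonneg_left hle2 hη0.le
  have h9 : η * C + η * (G * (b - a)) ≤ ε / 2 := by rw [← mul_add]; exact hη
  linarith

end Pool.Agent.N805.OS
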