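import Pool.Agent.N805.OS.E2

/-! # From one side to both sides: the measure part -/

set_option autoImplicit false

open MeasureTheory Set Filter Topology

namespace Pool.Agent.N805.OS

variable {l : Filter ℝ} {μ : ℝ → Measure ℝ} {g : ℝ → ℝ} {σ G : ℝ}

/-- the conditions on a test function -/
structure Tst (l : Filter ℝ) (μ : ℝ → Measure ℝ) (ψ : ℝ → ℝ) : Prop where
  cont : Continuous ψ
  nonneg : ∀ x, 0 ≤ ψ x
  le_one : ∀ x, ψ x ≤ 1
  int : Integrable ψ
  tl : Tl l μ ψ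

lemma Tst.mint (hμ : ∀ T, IsFiniteMeasure (μ T)) {ψ : ℝ → ℝ} (h : Tst l μ ψ) (T : ℝ) : Integrable ψ (μ T) := by
  haveI := hμ T
  refine (integrable_const (1 : ℝ)).mono' h.cont.aestronglyMeasurable (ae_of_all _ fun x => ?_)
  rw [Real.norm_eq_abs, abs_of_nonneg (h.nonneg x)]
  exact h.le_one x

lemma sig_le (hσ : σ = 1 ∨ σ = -1) (z : ℝ) : σ * z ≤ |z| := by
  rcases hσ with h1 | h1 <;> rw [h1]
  · rw [one_mul]; exact le_abs_self z
  · rw [neg_one_mul]; exact neg_le_abs z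

lemma sig_ge (hσ : σ = 1 ∨ σ = -1) (z : ℝ) : -|z| ≤ σ * z := by
  have := sig_le hσ (-z)
  rw [abs_neg] at this
  linarith

lemma sig_abs (hσ : σ = 1 ∨ σ = -1) {z ε : ℝ} (h1 : σ * z ≤ ε) (h2 : -ε ≤ σ * z) : |z| ≤ ε := by
  rw [abs_le]
  rcases hσ with h | h <;> rw [h] at h1 h2 <;> constructor <;> linarith

/-- the pieces -/
theorem pieces (hμ : ∀ T, IsFiniteMeasure (μ T)) (hgc : Continuous g) (hG : ∀ v, |g v| ≤ G)
    (hσ : σ = 1 ∨ σ = -1) (hB : BdI l μ) (h : OsI l μ g σ) {ψ : ℝ → ℝ} (hψ : Tst l μ ψ) :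
    (∀ ε : ℝ, 0 < ε → ∀ᶠ T in l, σ * ((∫ x, ψ x ∂(μ T)) - ∫ v, ψ v * g v) ≤ ε) ∧
    ∀ a b : ℝ, a < b → ∀ ε : ℝ, 0 < ε → ∀ᶠ T in l, σ * ((∫ x, ψ x ∂(μ T)) - ∫ v, ψ v * g v) - ε ≤
      σ * ((∫ x in a..b, ψ x ∂(μ T)) - ∫ v in a..b, ψ v * g v) := by
  have hig : Integrable fun v => ψ v * g v := by
    have h1 := hψ.int.bdd_mul (c := G) hgc.aestronglyMeasurable (ae_of_all _ fun v => by
      rw [Real.norm_eq_abs]; exact hG v)
    exact h1.congr (ae_of_all _ fun v => mul_comm _ _)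
  have hlim : Tendsto (fun R : ℝ => ∫ v in (-R)..R, ψ v * g v) atTop (𝓝 (∫ v, ψ v * g v)) :=
    intervalIntegral_tendsto_integral hig tendsto_neg_atTop_atBot tendsto_id
  have hsplit : ∀ (R T : ℝ), 0 ≤ R → ∫ x, ψ x ∂(μ T) =
      (∫ x in (-R)..R, ψ x ∂(μ T)) + ∫ x in (Ioc (-R) R)ᶜ, ψ x ∂(μ T) := by
    intro R T hR
    rw [intervalIntegral.integral_of_le (by linarith)]
    exact (integral_add_compl measurableSet_Ioc (hψ.mint hμ T)).symm
  have hii : ∀ (T c d : ℝ), IntervalIntegrable ψ (μ T) c d := fun T c d => by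
    haveI := hμ T
    exact hψ.cont.intervalIntegrable c d
  have hgi : ∀ (c d : ℝ), IntervalIntegrable (fun v => ψ v * g v) volume c d := fun c d =>
    (hψ.cont.mul hgc).intervalIntegrable c d
  have htl0 : ∀ R T : ℝ, 0 ≤ ∫ x in (Ioc (-R) R)ᶜ, ψ x ∂(μ T) := fun R T =>
    setIntegral_nonneg measurableSet_Ioc.compl fun x _ => hψ.nonneg x
  constructor
  · intro ε hε
    obtain ⟨R0, hR0⟩ := hψ.tl (ε / 3) (by positivity)
    obtain ⟨R, hR1, hR2, hR3⟩ := ((hlim.eventually (Metric.ball_mem_nhds _ (show 0 < ε / 3 by positivity))).and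
      ((eventually_ge_atTop R0).and (eventually_gt_atTop 0))).exists
    rw [Real.dist_eq] at hR1
    filter_upwards [hR0 R hR2, os_fun hμ hgc hG hσ hB h (show -R < R by linarith) hψ.cont hψ.nonneg
      (show 0 < ε / 3 by positivity)] with T h1 h2
    have h3 := sig_le hσ (∫ x in (Ioc (-R) R)ᶜ, ψ x ∂(μ T))
    rw [abs_of_nonneg (htl0 R T)] at h3
    have h4 := sig_le hσ ((∫ v in (-R)..R, ψ v * g v) - ∫ v, ψ v * g v)
    rw [hsplit R T hR3.le]
    linarith
  · intro a b hab ε hε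
    obtain ⟨R0, hR0⟩ := hψ.tl (ε / 4) (by positivity)
    obtain ⟨R, hR1, hR2, hR3, hR4⟩ := ((hlim.eventually (Metric.ball_mem_nhds _ (show 0 < ε / 4 by positivity))).and
      ((eventually_ge_atTop R0).and ((eventually_gt_atTop |a|).and (eventually_gt_atTop |b|)))).exists
    rw [Real.dist_eq] at hR1
    have hR0' : 0 ≤ R := (abs_nonneg a).trans hR3.le
    have ha := (abs_lt.1 hR3).1
    have hb := (abs_lt.1 hR4).2
    filter_upwards [hR0 R hR2, os_fun hμ hgc hG hσ hB h (show -R < a by linarith) hψ.cont hψ.nonneg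
      (show 0 < ε / 4 by positivity), os_fun hμ hgc hG hσ hB h (show b < R by linarith) hψ.cont hψ.nonneg
      (show 0 < ε / 4 by positivity)] with T h1 h2 h2'
    have h3 := sig_le hσ (∫ x in (Ioc (-R) R)ᶜ, ψ x ∂(μ T))
    rw [abs_of_nonneg (htl0 R T)] at h3
    have h4 := sig_le hσ ((∫ v in (-R)..R, ψ v * g v) - ∫ v, ψ v * g v)
    rw [hsplit R T hR0', ← intervalIntegral.integral_add_adjacent_intervals (hii T (-R) a) (hii T a R),
      ← intervalIntegral.integral_add_adjacent_intervals (hii T a b) (hii T b R)]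
    rw [← intervalIntegral.integral_add_adjacent_intervals (hgi (-R) a) (hgi a R),
      ← intervalIntegral.integral_add_adjacent_intervals (hgi a b) (hgi b R)] at h4 hR1
    linarith

/-- **from one side to both sides** -/
theorem ascent (hμ : ∀ T, IsFiniteMeasure (μ T)) (hgc : Continuous g) (hG : ∀ v, |g v| ≤ G)
    (hσ : σ = 1 ∨ σ = -1) (hB : BdI l μ) (h : OsI l μ g σ) (ψ : ℕ → ℝ → ℝ)
    (hψ : ∀ J, 1 ≤ J → Tst l μ (ψ J)) {c : ℝ} (hc : 0 ≤ c)
    (hψ1 : ∀ (J : ℕ) (x : ℝ), 1 ≤ J → 1 - c * (1 + x ^ 2) / J ≤ ψ J x)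
    (hE : ∀ ε : ℝ, 0 < ε → ∃ J0 : ℕ, ∀ J : ℕ, J0 ≤ J → ∀ᶠ T in l,
      |(∫ x, ψ J x ∂(μ T)) - ∫ v, ψ J v * g v| ≤ ε) {a b : ℝ} (hab : a < b) :
    Tendsto (fun T => (μ T).real (Icc a b)) l (𝓝 (∫ v in a..b, g v)) := by
  have hG0 : 0 ≤ G := (abs_nonneg _).trans (hG 0)
  -- half-open intervals
  have hIoc : ∀ a b : ℝ, a < b → ∀ ε : ℝ, 0 < ε → ∀ᶠ T in l,
      |(μ T).real (Ioc a b) - ∫ v in a..b, g v| ≤ ε := by
    intro a b hab ε hε
    obtain ⟨C, hC0, hC⟩ := hB a b hab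
    obtain ⟨b0, hb0⟩ : ∃ b0 : ℝ, b0 = max |a| |b| := ⟨_, rfl⟩
    have hxb : ∀ x ∈ Icc a b, x ^ 2 ≤ b0 ^ 2 := by
      intro x hx
      rw [← sq_abs x]
      refine pow_le_pow_left₀ (abs_nonneg _) ?_ 2
      rw [hb0]
      exact abs_le_max_abs_abs hx.1 hx.2
    have hGb : 0 ≤ G * (b - a) := mul_nonneg hG0 (by linarith)
    obtain ⟨J0, hJ0⟩ := hE (ε / 4) (by positivity)
    obtain ⟨J1, hJ1⟩ := exists_nat_gt (c * (1 + b0 ^ 2) * (4 * (C + G * (b - a))) / ε)
    obtain ⟨J, hJ⟩ : ∃ J : ℕ, J = max 1 (max J0 J1) := ⟨_, rfl⟩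
    have hJ1' : 1 ≤ J := by rw [hJ]; exact le_max_left _ _
    have hJJ0 : J0 ≤ J := by rw [hJ]; exact (le_max_left _ _).trans (le_max_right _ _)
    have hJJ1 : J1 ≤ J := by rw [hJ]; exact (le_max_right _ _).trans (le_max_right _ _)
    have hJr : (0 : ℝ) < J := by exact_mod_cast hJ1'
    obtain ⟨η, hη⟩ : ∃ η : ℝ, η = c * (1 + b0 ^ 2) / J := ⟨_, rfl⟩
    have hη0 : 0 ≤ η := by rw [hη]; positivity
    have hη1 : η * (C + G * (b - a)) ≤ ε / 4 := by
      have h1 : (J1 : ℝ) ≤ J := by exact_mod_cast hJJ1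
      have h2 := hJ1.le.trans h1
      rw [div_le_iff₀ hε] at h2
      rw [hη, div_mul_eq_mul_div, div_le_iff₀ hJr]
      linarith
    have hψx : ∀ x ∈ Icc a b, |ψ J x - 1| ≤ η := by
      intro x hx
      rw [abs_sub_comm, abs_of_nonneg (by linarith [(hψ J hJ1').le_one x])]
      have h1 := hψ1 J x hJ1'
      have h2 : c * (1 + x ^ 2) / J ≤ η := by
        rw [hη]
        apply div_le_div_of_nonneg_right _ hJr.le
        exact mul_le_mul_of_nonneg_left (by linarith [hxb x hx]) hc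
      linarith
    obtain ⟨_, hpc⟩ := pieces hμ hgc hG hσ hB h (hψ J hJ1')
    filter_upwards [hC, hJ0 J hJJ0, hpc a b hab (ε / 4) (by positivity),
      os_fun hμ hgc hG hσ hB h hab (hψ J hJ1').cont (hψ J hJ1').nonneg (show 0 < ε / 4 by positivity)]
      with T h1 h2 h3 h4
    haveI := hμ T
    have h5 := real_sum_le hμ (T := T) hab.le (hψ J hJ1').cont hψx
    have h6 : |(∫ v in a..b, ψ J v * g v) - ∫ v in a..b, g v| ≤ η * G * (b - a) := by
      have i1 : IntervalIntegrable (fun v => ψ J v * g v) volume a b :=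
        ((hψ J hJ1').cont.mul hgc).intervalIntegrable _ _
      rw [← intervalIntegral.integral_sub i1 (hgc.intervalIntegrable _ _)]
      have h3 := intervalIntegral.norm_integral_le_of_norm_le_const (a := a) (b := b)
        (f := fun v => ψ J v * g v - g v) (C := η * G) (fun x hx => by
          rw [uIoc_of_le hab.le] at hx
          rw [← sub_one_mul, norm_mul, Real.norm_eq_abs, Real.norm_eq_abs]
          exact mul_le_mul (hψx x (Ioc_subset_Icc_self hx)) (hG x) (abs_nonneg _) hη0)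
      rw [Real.norm_eq_abs, abs_of_nonneg (by linarith : 0 ≤ b - a)] at h3
      exact h3
    have h7 : (μ T).real (Ioc a b) ≤ C := (measureReal_mono Ioc_subset_Icc_self).trans h1
    have h8 := sig_ge hσ ((∫ x, ψ J x ∂(μ T)) - ∫ v, ψ J v * g v)
    have h9 : |(∫ x in a..b, ψ J x ∂(μ T)) - ∫ v in a..b, ψ J v * g v| ≤ ε / 2 :=
      sig_abs hσ (by linarith) (by linarith)
    rw [one_mul] at h5
    have h10 : η * (μ T).real (Ioc a b) ≤ η * C := mul_le_mul_of_nonneg_left h7 hη0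
    have h11 : η * C + η * G * (b - a) ≤ ε / 4 := by
      have : η * C + η * G * (b - a) = η * (C + G * (b - a)) := by ring
      rw [this]; exact hη1
    rw [abs_le] at h5 h6 h9 ⊢
    constructor <;> linarith [h5.1, h5.2, h6.1, h6.2, h9.1, h9.2]
  rw [Metric.tendsto_nhds]
  intro ε hε
  have hδ : 0 < ε / (4 * (G + 1)) := by positivity
  have hδG : G * (ε / (4 * (G + 1))) ≤ ε / 4 := by
    calc G * (ε / (4 * (G + 1))) = ε / 4 * (G / (G + 1)) := by field_simp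
      _ ≤ ε / 4 * 1 := by
          apply mul_le_mul_of_nonneg_left _ (by positivity)
          rw [div_le_one (by positivity)]; linarith
      _ = ε / 4 := mul_one _
  filter_upwards [hIoc a b hab (ε / 4) (by positivity),
    hIoc (a - ε / (4 * (G + 1))) b (by linarith) (ε / 4) (by positivity)] with T h1 h2
  haveI := hμ T
  have h3 : (μ T).real (Ioc a b) ≤ (μ T).real (Icc a b) := measureReal_mono Ioc_subset_Icc_self
  have h4 : (μ T).real (Icc a b) ≤ (μ T).real (Ioc (a - ε / (4 * (G + 1))) b) :=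
    measureReal_mono fun x hx => ⟨by linarith [hx.1], hx.2⟩
  have h5 := intervalIntegral.integral_add_adjacent_intervals
    (hgc.intervalIntegrable (a - ε / (4 * (G + 1))) a (μ := volume)) (hgc.intervalIntegrable a b)
  have h6 := int_g_le hG (show a - ε / (4 * (G + 1)) ≤ a by linarith)
  rw [show a - (a - ε / (4 * (G + 1))) = ε / (4 * (G + 1)) by ring] at h6
  rw [Real.dist_eq, abs_lt]
  rw [abs_le] at h1 h2 h6
  constructor <;> linarith [h1.1, h1.2, h2.1, h2.2, h6.1, h6.2]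

end Pool.Agent.N805.OS
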