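import Pool.Agent.N805.OS.E1
import Pool.Agent.N805.OS.E3

/-! # Tuples of zeros -/

set_option autoImplicit false

open MeasureTheory Set Filter Topology

namespace Pool.Agent.N805.OS

open Pool.Agent.Y749.Rig
open SG (ord NZ zmult ZS)
open W200.HW (Ix mem_Ix card_Ix)

open scoped Classical in
/-- the tuples: a base index and the other indices -/
noncomputable def At {m : ℕ} (T : ℝ) (x y : Fin m → ℝ) : Finset (ℕ × (Fin m → ℕ)) :=
  ((Ix T) ×ˢ (Fintype.piFinset fun _ => Ix T)).filter fun p => Function.Injective p.2 ∧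
    (∀ i, p.2 i ≠ p.1) ∧ ∀ i, ps T (p.2 i) - ps T p.1 ∈ Icc (x i) (y i)

open scoped Classical in
/-- the other indices -/
noncomputable def Rf {m : ℕ} (T : ℝ) (p : ℕ × (Fin m → ℕ)) : Finset ℕ :=
  (Ix T).filter fun r => r ≠ p.1 ∧ ∀ i, r ≠ p.2 i

/-- the measure of the differences between another index and the base -/
noncomputable def mT {m : ℕ} (x y : Fin m → ℝ) (T : ℝ) : Measure ℝ :=
  (1 / nT T).toNNReal • ∑ p ∈ At T x y, ∑ r ∈ Rf T p, Measure.dirac (ps T r - ps T p.1)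

instance mT_fin {m : ℕ} (x y : Fin m → ℝ) (T : ℝ) : IsFiniteMeasure (mT x y T) := by
  unfold mT; infer_instance

lemma mem_At {m : ℕ} {T : ℝ} {x y : Fin m → ℝ} {p : ℕ × (Fin m → ℕ)} : p ∈ At T x y ↔
    (p.1 ∈ Ix T ∧ ∀ i, p.2 i ∈ Ix T) ∧ Function.Injective p.2 ∧
    (∀ i, p.2 i ≠ p.1) ∧ ∀ i, ps T (p.2 i) - ps T p.1 ∈ Icc (x i) (y i) := by
  classical
  unfold At
  rw [Finset.mem_filter, Finset.mem_product, Fintype.mem_piFinset]

lemma mem_Rf {m : ℕ} {T : ℝ} {p : ℕ × (Fin m → ℕ)} {r : ℕ} : r ∈ Rf T p ↔ r ∈ Ix T ∧ r ≠ p.1 ∧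
    ∀ i, r ≠ p.2 i := by
  classical
  unfold Rf
  rw [Finset.mem_filter]

lemma mT_integral {m : ℕ} (x y : Fin m → ℝ) {T : ℝ} (hT : 10 ≤ T) (h : ℝ → ℝ) :
    ∫ v, h v ∂(mT x y T) = (∑ p ∈ At T x y, ∑ r ∈ Rf T p, h (ps T r - ps T p.1)) / nT T := by
  have hn := nT_pos hT
  unfold mT
  rw [integral_smul_nnreal_measure, integral_finsetSum_measure]
  · have h1 : ∀ p ∈ At T x y, ∫ v, h v ∂(∑ r ∈ Rf T p, Measure.dirac (ps T r - ps T p.1)) =
        ∑ r ∈ Rf T p, h (ps T r - ps T p.1) := by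
      intro p _
      rw [integral_finsetSum_measure fun r _ => integrable_dirac (by simp)]
      refine Finset.sum_congr rfl fun r _ => ?_
      rw [integral_dirac]
    rw [Finset.sum_congr rfl h1, NNReal.smul_def, Real.coe_toNNReal _ (by positivity), smul_eq_mul]
    ring
  · intro p _
    rw [integrable_finsetSum_measure]
    exact fun r _ => integrable_dirac (by simp)

lemma mT_set_integral {m : ℕ} (x y : Fin m → ℝ) {T : ℝ} (hT : 10 ≤ T) {s : Set ℝ} (hs : MeasurableSet s)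
    (h : ℝ → ℝ) :
    ∫ v in s, h v ∂(mT x y T) =
      (∑ p ∈ At T x y, ∑ r ∈ Rf T p, s.indicator h (ps T r - ps T p.1)) / nT T := by
  rw [← integral_indicator hs, mT_integral x y hT]

lemma mT_real {m : ℕ} (x y : Fin m → ℝ) {T : ℝ} (hT : 10 ≤ T) {s : Set ℝ} (hs : MeasurableSet s) :
    (mT x y T).real s =
      (∑ p ∈ At T x y, ∑ r ∈ Rf T p, s.indicator (fun _ => (1 : ℝ)) (ps T r - ps T p.1)) / nT T := by
  rw [← mT_set_integral x y hT hs fun _ => 1]
  simp

/-- adding an index -/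
lemma At_succ {m : ℕ} (T : ℝ) (x y : Fin m → ℝ) (a b : ℝ) :
    ((At T (Fin.cons a x : Fin (m + 1) → ℝ) (Fin.cons b y)).card : ℝ) =
      ∑ p ∈ At T x y, ∑ r ∈ Rf T p, (Icc a b).indicator (fun _ => (1 : ℝ)) (ps T r - ps T p.1) := by
  classical
  have h1 : ∀ p ∈ At T x y, ∑ r ∈ Rf T p, (Icc a b).indicator (fun _ => (1 : ℝ)) (ps T r - ps T p.1) =
      (((Rf T p).filter fun r => ps T r - ps T p.1 ∈ Icc a b).card : ℝ) := by
    intro p _
    rw [Finset.card_filter]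
    push_cast
    refine Finset.sum_congr rfl fun r _ => ?_
    rw [indicator_apply]
  rw [Finset.sum_congr rfl h1, ← Nat.cast_sum, ← Finset.card_sigma]
  congr 1
  refine Finset.card_bij' (fun p _ => (⟨(p.1, Fin.tail p.2), p.2 0⟩ : (_ : ℕ × (Fin m → ℕ)) × ℕ))
    (fun z _ => (z.1.1, Fin.cons z.2 z.1.2)) ?_ ?_ ?_ ?_
  · intro p hp
    rw [mem_At] at hp
    obtain ⟨⟨h1, h2⟩, h3, h4, h5⟩ := hp
    rw [Finset.mem_sigma, mem_At, Finset.mem_filter, mem_Rf]
    refine ⟨⟨⟨h1, fun i => h2 i.succ⟩, ?_, fun i => h4 i.succ, fun i => ?_⟩, ⟨h2 0, h4 0, fun i => ?_⟩, ?_⟩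
    · intro i j hij
      exact Fin.succ_injective _ (h3 hij)
    · have := h5 i.succ
      simp only [Fin.cons_succ] at this
      exact this
    · intro hc
      exact absurd (h3 hc) (Fin.succ_ne_zero i).symm
    · have := h5 0
      simpa only [Fin.cons_zero] using this
  · intro z hz
    rw [Finset.mem_sigma, mem_At, Finset.mem_filter, mem_Rf] at hz
    obtain ⟨⟨⟨h1, h2⟩, h3, h4, h5⟩, ⟨h6, h7, h8⟩, h9⟩ := hz
    rw [mem_At]
    refine ⟨⟨h1, ?_⟩, ?_, ?_, ?_⟩
    · intro i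
      refine Fin.cases ?_ (fun i => ?_) i
      · simpa only [Fin.cons_zero] using h6
      · simpa only [Fin.cons_succ] using h2 i
    · show Function.Injective (Fin.cons z.2 z.1.2 : Fin (m + 1) → ℕ)
      rw [Fin.cons_injective_iff]
      refine ⟨?_, h3⟩
      rintro ⟨i, hi⟩
      exact h8 i hi.symm
    · intro i
      refine Fin.cases ?_ (fun i => ?_) i
      · simpa only [Fin.cons_zero] using h7
      · simpa only [Fin.cons_succ] using h4 i
    · intro i
      refine Fin.cases ?_ (fun i => ?_) i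
      · simpa only [Fin.cons_zero] using h9
      · simpa only [Fin.cons_succ] using h5 i
  · intro p _
    show (p.1, (Fin.cons (p.2 0) (Fin.tail p.2) : Fin (m + 1) → ℕ)) = p
    rw [Fin.cons_self_tail]
  · intro z _
    rfl

/-- the measure of an interval is a count of longer tuples -/
lemma mT_Icc {m : ℕ} (x y : Fin m → ℝ) {T : ℝ} (hT : 10 ≤ T) (a b : ℝ) :
    (mT x y T).real (Icc a b) =
      ((At T (Fin.cons a x : Fin (m + 1) → ℝ) (Fin.cons b y)).card : ℝ) / nT T := by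
  rw [At_succ, mT_real x y hT measurableSet_Icc]

/-- the number of tuples with a given base -/
noncomputable def wt {m : ℕ} (T : ℝ) (x y : Fin m → ℝ) (n : ℕ) : ℝ :=
  (((At T x y).filter fun p => p.1 = n).card : ℝ)

lemma wt_nonneg {m : ℕ} (T : ℝ) (x y : Fin m → ℝ) (n : ℕ) : 0 ≤ wt T x y n := Nat.cast_nonneg _

lemma wt_sum {m : ℕ} (T : ℝ) (x y : Fin m → ℝ) (f : ℕ → ℝ) :
    ∑ n ∈ Ix T, wt T x y n * f n = ∑ p ∈ At T x y, f p.1 := by
  classical
  rw [← Finset.sum_fiberwise_of_maps_to (s := At T x y) (t := Ix T) (g := fun p => p.1)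
    (fun p hp => (mem_At.1 hp).1.1)]
  refine Finset.sum_congr rfl fun n _ => ?_
  rw [Finset.sum_congr rfl (g := fun _ => f n) fun p hp => by rw [(Finset.mem_filter.1 hp).2],
    Finset.sum_const, nsmul_eq_mul]
  rfl

/-- all the sides of the box are in `[-b, b]` -/
def Inb {m : ℕ} (x y : Fin m → ℝ) (b : ℝ) : Prop := ∀ i, |x i| ≤ b ∧ |y i| ≤ b

lemma Inb.exists {m : ℕ} (x y : Fin m → ℝ) : ∃ b : ℝ, 1 ≤ b ∧ Inb x y b := by
  refine ⟨1 + ∑ i, (|x i| + |y i|), ?_, fun i => ?_⟩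
  · have : 0 ≤ ∑ i, (|x i| + |y i|) := Finset.sum_nonneg fun i _ => by positivity
    linarith
  · have h1 : |x i| + |y i| ≤ ∑ j, (|x j| + |y j|) :=
      Finset.single_le_sum (f := fun i => |x i| + |y i|) (fun i _ => by positivity) (Finset.mem_univ i)
    constructor <;> linarith [abs_nonneg (x i), abs_nonneg (y i)]

lemma Inb.abs_le {m : ℕ} {x y : Fin m → ℝ} {b : ℝ} (h : Inb x y b) {i : Fin m} {z : ℝ}
    (hz : z ∈ Icc (x i) (y i)) : |z| ≤ b := by
  rw [_root_.abs_le]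
  have h1 := _root_.abs_le.1 (h i).1
  have h2 := _root_.abs_le.1 (h i).2
  constructor <;> linarith [hz.1, hz.2, h1.1, h2.2]

lemma wt_le {m : ℕ} {T b : ℝ} {x y : Fin m → ℝ} (h : Inb x y b) (n : ℕ) : wt T x y n ≤ nu T b n ^ m := by
  classical
  have h1 : ((At T x y).filter fun p => p.1 = n).card ≤
      (Fintype.piFinset fun _ : Fin m => (Ix T).filter fun r => |ps T r - ps T n| ≤ b).card := by
    refine Finset.card_le_card_of_injOn (fun p => p.2) ?_ ?_
    · intro p hp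
      rw [Finset.mem_coe, Finset.mem_filter, mem_At] at hp
      obtain ⟨⟨⟨a1, a2⟩, a3, a4, a5⟩, a6⟩ := hp
      rw [Finset.mem_coe, Fintype.mem_piFinset]
      intro i
      rw [Finset.mem_filter]
      refine ⟨a2 i, ?_⟩
      rw [← a6]
      exact h.abs_le (a5 i)
    · intro p hp p' hp' he
      rw [Finset.mem_coe, Finset.mem_filter] at hp hp'
      exact Prod.ext (hp.2.trans hp'.2.symm) he
  rw [Fintype.card_piFinset, Finset.prod_const, Finset.card_univ, Fintype.card_fin] at h1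
  unfold wt nu
  exact_mod_cast h1

lemma nu_mono {T b b' : ℝ} (h : b ≤ b') (n : ℕ) : nu T b n ≤ nu T b' n := by
  classical
  unfold nu
  have : ((Ix T).filter fun m => |ps T m - ps T n| ≤ b).card ≤
      ((Ix T).filter fun m => |ps T m - ps T n| ≤ b').card := by
    refine Finset.card_le_card fun m hm => ?_
    rw [Finset.mem_filter] at hm ⊢
    exact ⟨hm.1, hm.2.trans h⟩
  exact_mod_cast this

/-- bounded moments -/
theorem wt_bdd (RH : RiemannHypothesis) {m : ℕ} (x y : Fin m → ℝ) : ∃ C : ℝ, 0 < C ∧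
    ∀ᶠ T : ℝ in atTop, ∑ n ∈ Ix T, wt T x y n ^ 2 * nu T 1 n ≤ C * nT T := by
  obtain ⟨b, hb1, hb⟩ := Inb.exists x y
  obtain ⟨C, hC, hev⟩ := MB RH (show 0 ≤ b by linarith) (2 * m + 1)
  refine ⟨C, hC, ?_⟩
  filter_upwards [hev] with T hT
  refine le_trans (Finset.sum_le_sum fun n _ => ?_) hT
  calc wt T x y n ^ 2 * nu T 1 n ≤ (nu T b n ^ m) ^ 2 * nu T b n :=
        mul_le_mul (pow_le_pow_left₀ (wt_nonneg _ _ _ _) (wt_le hb n) 2) (nu_mono hb1 n) (nu_nonneg _ _ _)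
          (by have := nu_nonneg T b n; positivity)
    _ = nu T b n ^ (2 * m + 1) := by rw [← pow_mul]; ring

/-- the number of tuples is at most a constant times the number of zeros -/
theorem At_bdd (RH : RiemannHypothesis) {m : ℕ} (x y : Fin m → ℝ) : ∃ C : ℝ, 0 < C ∧
    ∀ᶠ T : ℝ in atTop, ((At T x y).card : ℝ) / nT T ≤ C := by
  obtain ⟨b, hb1, hb⟩ := Inb.exists x y
  obtain ⟨C, hC, hev⟩ := MB RH (show 0 ≤ b by linarith) m
  refine ⟨C, hC, ?_⟩
  filter_upwards [hev, eventually_ge_atTop 10] with T hT hT10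
  have hn := nT_pos hT10
  rw [div_le_iff₀ hn]
  have h1 := wt_sum T x y fun _ => 1
  simp only [mul_one, Finset.sum_const, nsmul_eq_mul] at h1
  rw [← h1]
  exact (Finset.sum_le_sum fun n _ => wt_le hb n).trans hT

/-- bounded masses -/
theorem mT_bdd (RH : RiemannHypothesis) {m : ℕ} (x y : Fin m → ℝ) : BdI atTop (mT x y) := by
  intro a b _
  obtain ⟨C, hC, hev⟩ := At_bdd RH (Fin.cons a x : Fin (m + 1) → ℝ) (Fin.cons b y)
  refine ⟨C, hC.le, ?_⟩
  filter_upwards [hev, eventually_ge_atTop 10] with T hT hT10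
  rw [mT_Icc x y hT10]
  exact hT

end Pool.Agent.N805.OS
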