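import Pool.Agent.N805.OS.E4

/-! # The identity for the sums over the zeros -/

set_option autoImplicit false

open MeasureTheory Set Filter Topology

namespace Pool.Agent.N805.OS

open Pool.Agent.Y749.Rig
open SG (ord NZ zmult ZS)
open W200.HW (Ix mem_Ix card_Ix)

/-- the contribution of the tuple itself -/
noncomputable def own {m : ℕ} (T : ℝ) (J : ℕ) (p : ℕ × (Fin m → ℕ)) : ℝ :=
  Ps J 0 + ∑ i, Ps J (ps T (p.2 i) - ps T p.1)

lemma sum_split {m : ℕ} {T : ℝ} (J : ℕ) {x y : Fin m → ℝ} {p : ℕ × (Fin m → ℕ)} (hp : p ∈ At T x y) :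
    ∑ r ∈ Ix T, Ps J (ps T r - ps T p.1) = (∑ r ∈ Rf T p, Ps J (ps T r - ps T p.1)) + own T J p := by
  classical
  obtain ⟨⟨h1, h2⟩, h3, h4, h5⟩ := mem_At.1 hp
  rw [← Finset.sum_filter_add_sum_filter_not (Ix T) (fun r => r ≠ p.1 ∧ ∀ i, r ≠ p.2 i)]
  have e1 : (Ix T).filter (fun r => r ≠ p.1 ∧ ∀ i, r ≠ p.2 i) = Rf T p := by
    ext r
    rw [mem_Rf, Finset.mem_filter]
  have e2 : (Ix T).filter (fun r => ¬ (r ≠ p.1 ∧ ∀ i, r ≠ p.2 i)) =
      insert p.1 (Finset.univ.image p.2) := by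
    ext r
    rw [Finset.mem_filter, Finset.mem_insert, Finset.mem_image]
    constructor
    · rintro ⟨_, h⟩
      by_cases hc : r = p.1
      · exact Or.inl hc
      · right
        by_contra hcon
        push Not at hcon
        exact h ⟨hc, fun i hi => hcon i (Finset.mem_univ i) hi.symm⟩
    · rintro (h | ⟨i, _, h⟩)
      · rw [h]
        exact ⟨h1, fun hc => hc.1 rfl⟩
      · rw [← h]
        exact ⟨h2 i, fun hc => hc.2 i rfl⟩
  rw [e1, e2, Finset.sum_insert, Finset.sum_image fun i _ j _ hij => h3 hij, sub_self]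
  · rfl
  · rw [Finset.mem_image]
    rintro ⟨i, _, h⟩
    exact h4 i h

lemma own_near {m : ℕ} {T : ℝ} {J : ℕ} (hJ : 1 ≤ J) {b : ℝ} {x y : Fin m → ℝ}
    (hxy : Inb x y b) {p : ℕ × (Fin m → ℕ)} (hp : p ∈ At T x y) :
    |own T J p - (m + 1)| ≤ (m + 1) * (40 * (1 + b ^ 2) / J) := by
  have hJ0 : (0 : ℝ) < J := by exact_mod_cast hJ
  obtain ⟨⟨h1, h2⟩, h3, h4, h5⟩ := mem_At.1 hp
  have hone : ∀ z : ℝ, |z| ≤ |b| → |Ps J z - 1| ≤ 40 * (1 + b ^ 2) / J := by
    intro z hz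
    rw [abs_sub_comm, abs_of_nonneg (by linarith [Ps_le_one J z])]
    have a1 := Ps_ge hJ z
    have a2 : 40 * (1 + z ^ 2) / J ≤ 40 * (1 + b ^ 2) / J := by
      apply div_le_div_of_nonneg_right _ hJ0.le
      have : z ^ 2 ≤ b ^ 2 := sq_le_sq.2 hz
      linarith
    linarith
  have e : own T J p - (m + 1) = (Ps J 0 - 1) + ∑ i : Fin m, (Ps J (ps T (p.2 i) - ps T p.1) - 1) := by
    unfold own
    rw [Finset.sum_sub_distrib]
    simp
    ring
  rw [e]
  refine (abs_add_le _ _).trans ?_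
  have a1 := hone 0 (by rw [abs_zero]; exact abs_nonneg b)
  have a2 : |∑ i : Fin m, (Ps J (ps T (p.2 i) - ps T p.1) - 1)| ≤ m * (40 * (1 + b ^ 2) / J) := by
    refine (Finset.abs_sum_le_sum_abs _ _).trans ?_
    refine (Finset.sum_le_sum fun i _ => hone _ ((hxy.abs_le (h5 i)).trans (le_abs_self b))).trans (le_of_eq ?_)
    simp
  linarith

/-- **the identity on the side of the zeros** -/
theorem star (RH : RiemannHypothesis) {m : ℕ} (x y : Fin m → ℝ) : ∃ C : ℝ, 0 < C ∧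
    ∀ J : ℕ, 1 ≤ J → ∀ᶠ T : ℝ in atTop,
      |(∫ v, Ps J v ∂(mT x y T)) - (cJ J - (m + 1)) * (((At T x y).card : ℝ) / nT T)| ≤
        C / Real.sqrt J := by
  obtain ⟨b, hb1, hb⟩ := Inb.exists x y
  obtain ⟨C1, hC1, hev1⟩ := wt_bdd RH x y
  obtain ⟨C2, hC2, hev2⟩ := At_bdd RH x y
  refine ⟨C1 + 5 + (m + 1) * (40 * (1 + b ^ 2)) * C2, by positivity, fun J hJ => ?_⟩
  have hJ1 : (1 : ℝ) ≤ J := by exact_mod_cast hJ
  have hJ0 : (0 : ℝ) < J := by linarith
  have hs : 0 < Real.sqrt J := Real.sqrt_pos.2 hJ0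
  filter_upwards [hev1, hev2, key RH hJ, eventually_ge_atTop 10] with T h1 h2 h3 hT
  have hn := nT_pos hT
  have h4 := h3 (wt T x y) C1 (wt_nonneg T x y) h1
  rw [wt_sum T x y fun n => (∑ m ∈ Ix T, Ps J (ps T m - ps T n)) - cJ J,
    Finset.sum_congr rfl (g := fun p => ((∑ r ∈ Rf T p, Ps J (ps T r - ps T p.1)) + own T J p) - cJ J)
      fun p hp => by rw [sum_split J hp]] at h4
  have h5 : |∑ p ∈ At T x y, (own T J p - (m + 1))| ≤
      (At T x y).card * ((m + 1) * (40 * (1 + b ^ 2) / J)) := by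
    refine (Finset.abs_sum_le_sum_abs _ _).trans ?_
    refine (Finset.sum_le_sum fun p hp => own_near hJ hb hp).trans (le_of_eq ?_)
    rw [Finset.sum_const, nsmul_eq_mul]
  rw [mT_integral x y hT]
  obtain ⟨I, hI⟩ : ∃ I : ℝ, I = ∑ p ∈ At T x y, ∑ r ∈ Rf T p, Ps J (ps T r - ps T p.1) := ⟨_, rfl⟩
  have e : I / nT T - (cJ J - (m + 1)) * (((At T x y).card : ℝ) / nT T) =
      ((∑ p ∈ At T x y, (((∑ r ∈ Rf T p, Ps J (ps T r - ps T p.1)) + own T J p) - cJ J)) -
        ∑ p ∈ At T x y, (own T J p - (m + 1))) / nT T := by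
    rw [← Finset.sum_sub_distrib]
    have e1 : ∑ p ∈ At T x y, ((((∑ r ∈ Rf T p, Ps J (ps T r - ps T p.1)) + own T J p) - cJ J) -
        (own T J p - (m + 1))) = I - (At T x y).card * (cJ J - (m + 1)) := by
      rw [hI, ← nsmul_eq_mul, ← Finset.sum_const, ← Finset.sum_sub_distrib]
      refine Finset.sum_congr rfl fun p _ => ?_
      ring
    rw [e1]
    ring
  rw [← hI, e, abs_div, abs_of_pos hn, div_le_iff₀ hn]
  refine (abs_sub _ _).trans ?_
  have h6 : ((At T x y).card : ℝ) ≤ C2 * nT T := by rwa [div_le_iff₀ hn] at h2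
  have hsJ : Real.sqrt J ≤ J := by
    rw [Real.sqrt_le_left hJ0.le]
    nlinarith
  have h7 : (1 : ℝ) / J ≤ 1 / Real.sqrt J := one_div_le_one_div_of_le hs hsJ
  have h8 : ((At T x y).card : ℝ) * ((m + 1) * (40 * (1 + b ^ 2) / J)) ≤
      (m + 1) * (40 * (1 + b ^ 2)) * C2 / Real.sqrt J * nT T := by
    calc ((At T x y).card : ℝ) * ((m + 1) * (40 * (1 + b ^ 2) / J)) ≤
          C2 * nT T * ((m + 1) * (40 * (1 + b ^ 2) / J)) := mul_le_mul_of_nonneg_right h6 (by positivity)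
      _ = (m + 1) * (40 * (1 + b ^ 2)) * C2 * nT T * (1 / J) := by ring
      _ ≤ (m + 1) * (40 * (1 + b ^ 2)) * C2 * nT T * (1 / Real.sqrt J) :=
          mul_le_mul_of_nonneg_left h7 (by positivity)
      _ = _ := by ring
  calc _ ≤ (C1 + 5) / Real.sqrt J * nT T + (m + 1) * (40 * (1 + b ^ 2)) * C2 / Real.sqrt J * nT T :=
        add_le_add h4 (h5.trans h8)
    _ = _ := by ring

/-- **tails of the measures** -/
theorem mT_tl (RH : RiemannHypothesis) {m : ℕ} (x y : Fin m → ℝ) (J : ℕ) : Tl atTop (mT x y) (Ps J) := by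
  classical
  intro ε hε
  obtain ⟨C, hC, hev1⟩ := wt_bdd RH x y
  obtain ⟨B, hB, hev2⟩ := tail RH J
  obtain ⟨lam, hlam⟩ : ∃ lam : ℝ, lam = ε / (2 * C) := ⟨_, rfl⟩
  have hlam0 : 0 < lam := by rw [hlam]; positivity
  have hq := qt_lim.eventually (Metric.ball_mem_nhds (0 : ℝ) (show 0 < ε * lam / (2 * B) by positivity))
  obtain ⟨R1, hR1⟩ := hq.exists
  rw [Real.dist_eq, sub_zero, abs_of_nonneg (qt_nonneg _)] at hR1
  refine ⟨|R1| + 2, fun R hR => ?_⟩
  filter_upwards [hev1, hev2, eventually_ge_atTop 10] with T h1 h2 hT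
  have hn := nT_pos hT
  have h3 := h2 R1 (wt T x y) C lam (wt_nonneg T x y) hlam0 h1
  rw [wt_sum T x y fun n => ∑ m ∈ (Ix T).filter (fun m => R1 + 1 < |ps T m - ps T n|),
    Ps J (ps T m - ps T n)] at h3
  rw [mT_set_integral x y hT measurableSet_Ioc.compl, div_le_iff₀ hn]
  refine le_trans ?_ (h3.trans ?_)
  · refine Finset.sum_le_sum fun p _ => ?_
    rw [Finset.sum_filter]
    have hsub : Rf T p ⊆ Ix T := fun r hr => (mem_Rf.1 hr).1
    refine le_trans (Finset.sum_le_sum_of_subset_of_nonneg hsub fun r _ _ =>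
      indicator_nonneg (fun u _ => Ps_nonneg J u) _) ?_
    refine Finset.sum_le_sum fun r _ => ?_
    by_cases hc : ps T r - ps T p.1 ∈ (Ioc (-R) R)ᶜ
    · rw [indicator_of_mem hc, if_pos]
      have h4 : R ≤ |ps T r - ps T p.1| := by
        by_contra hcon
        push Not at hcon
        rw [abs_lt] at hcon
        exact hc ⟨hcon.1, hcon.2.le⟩
      have := le_abs_self R1
      linarith
    · rw [indicator_of_notMem hc]
      split_ifs
      · exact Ps_nonneg J _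
      · exact le_rfl
  · apply mul_le_mul_of_nonneg_right _ hn.le
    have e1 : lam * C = ε / 2 := by rw [hlam]; field_simp
    have e2 : B * qt R1 / lam ≤ ε / 2 := by
      rw [div_le_iff₀ hlam0]
      rw [lt_div_iff₀ (by positivity)] at hR1
      linarith
    linarith

end Pool.Agent.N805.OS
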