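import Pool.Agent.N805.OS.A
import Pool.Agent.N805.OS.B2

/-! # The identity for the sine kernel -/

set_option autoImplicit false

open MeasureTheory Set Filter Topology

namespace Pool.Agent.N805.OS

open Pool.Agent.N805.DT
open Pool.Agent.Y749.Rig

lemma D_le {n : ℕ} (q : Fin n → ℝ) : |D q| ≤ (n.factorial : ℝ) := by
  have h := Matrix.det_le (A := Sm q) (abv := AbsoluteValue.abs) (x := (1 : ℝ)) (fun i j => by
    show |S (q i - q j)| ≤ 1
    exact S_abs _)
  simpa [D] using h

/-- the point `0` added at the end -/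
noncomputable def sn {m : ℕ} (u : Fin m → ℝ) : Fin (m + 1) → ℝ := Fin.snoc u (0 : ℝ)

lemma sn_cont {m : ℕ} : Continuous fun u : Fin m → ℝ => sn u := by
  unfold sn
  refine continuous_pi fun i => ?_
  refine Fin.lastCases ?_ (fun i => ?_) i
  · simp only [Fin.snoc_last]
    exact continuous_const
  · simp only [Fin.snoc_castSucc]
    exact continuous_apply i

/-- the integral of the determinant -/
noncomputable def ii {m : ℕ} (x y : Fin m → ℝ) : ℝ := ∫ u in Icc x y, D (sn u)

/-- the density of the new coordinate -/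
noncomputable def gg {m : ℕ} (x y : Fin m → ℝ) (v : ℝ) : ℝ :=
  ∫ u in Icc x y, D (Fin.cons v (sn u) : Fin (m + 2) → ℝ)

lemma cons_cont {m : ℕ} : Continuous fun p : ℝ × (Fin m → ℝ) => (Fin.cons p.1 (sn p.2) : Fin (m + 2) → ℝ) := by
  refine continuous_pi fun i => ?_
  refine Fin.cases ?_ (fun i => ?_) i
  · simp only [Fin.cons_zero]
    exact continuous_fst
  · simp only [Fin.cons_succ]
    exact (continuous_apply i).comp (sn_cont.comp continuous_snd)

lemma Dc_cont {m : ℕ} : Continuous fun p : ℝ × (Fin m → ℝ) => D (Fin.cons p.1 (sn p.2) : Fin (m + 2) → ℝ) :=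
  D_cont.comp cons_cont

lemma gg_cont {m : ℕ} (x y : Fin m → ℝ) : Continuous (gg x y) := by
  unfold gg
  exact continuous_parametric_integral_of_continuous
    (f := fun v u => D (Fin.cons v (sn u) : Fin (m + 2) → ℝ)) Dc_cont isCompact_Icc

lemma gg_le {m : ℕ} (x y : Fin m → ℝ) : ∃ G : ℝ, ∀ v, |gg x y v| ≤ G := by
  refine ⟨((m + 2).factorial : ℝ) * volume.real (Icc x y), fun v => ?_⟩
  unfold gg
  rw [← Real.norm_eq_abs]
  exact norm_setIntegral_le_of_norm_le_const isCompact_Icc.measure_lt_top fun u _ => by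
    rw [Real.norm_eq_abs]; exact D_le _

lemma sn_cons {m : ℕ} (v : ℝ) (u : Fin m → ℝ) :
    sn (Fin.cons v u : Fin (m + 1) → ℝ) = (Fin.cons v (sn u) : Fin (m + 2) → ℝ) := by
  unfold sn
  rw [Fin.cons_snoc_eq_snoc_cons]

/-- the first coordinate -/
lemma ii_succ {m : ℕ} (x y : Fin m → ℝ) {a b : ℝ} (hab : a ≤ b) :
    ii (Fin.cons a x : Fin (m + 1) → ℝ) (Fin.cons b y) = ∫ v in a..b, gg x y v := by
  have hmp := volume_preserving_piFinSuccAbove (fun _ : Fin (m + 1) => ℝ) 0
  have he : ∀ w : Fin (m + 1) → ℝ, MeasurableEquiv.piFinSuccAbove (fun _ : Fin (m + 1) => ℝ) 0 w =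
      (w 0, fun j => w j.succ) := by
    intro w
    rfl
  have h1 := hmp.setIntegral_preimage_emb (MeasurableEquiv.measurableEmbedding _)
    (fun z : ℝ × (Fin m → ℝ) => D (Fin.cons z.1 (sn z.2) : Fin (m + 2) → ℝ)) (Icc a b ×ˢ Icc x y)
  have h2 : (MeasurableEquiv.piFinSuccAbove (fun _ : Fin (m + 1) => ℝ) 0) ⁻¹' (Icc a b ×ˢ Icc x y) =
      Icc (Fin.cons a x : Fin (m + 1) → ℝ) (Fin.cons b y) := by
    ext w
    rw [mem_preimage, he, mem_prod, mem_Icc, mem_Icc, mem_Icc, Pi.le_def, Pi.le_def, Pi.le_def, Pi.le_def,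
      Fin.forall_fin_succ, Fin.forall_fin_succ]
    simp only [Fin.cons_zero, Fin.cons_succ]
    tauto
  rw [h2] at h1
  have h3 : ∀ w : Fin (m + 1) → ℝ, D (Fin.cons ((MeasurableEquiv.piFinSuccAbove (fun _ : Fin (m + 1) => ℝ) 0 w).1)
      (sn ((MeasurableEquiv.piFinSuccAbove (fun _ : Fin (m + 1) => ℝ) 0 w).2)) : Fin (m + 2) → ℝ) = D (sn w) := by
    intro w
    rw [he]
    simp only
    rw [← sn_cons]
    congr 2
    exact Fin.cons_self_tail w
  simp_rw [h3] at h1
  unfold ii
  rw [h1, Measure.volume_eq_prod, setIntegral_prod]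
  · rw [intervalIntegral.integral_of_le hab, integral_Icc_eq_integral_Ioc]
    rfl
  · exact Dc_cont.continuousOn.integrableOn_compact (isCompact_Icc.prod isCompact_Icc)

/-- **the identity on the side of the sine kernel** -/
theorem sine_star {m : ℕ} (x y : Fin m → ℝ) {b : ℝ} (hb : ∀ i, |x i| ≤ b ∧ |y i| ≤ b) :
    ∃ C : ℝ, 0 ≤ C ∧ ∀ J : ℕ,
      |(∫ v, Ps J v * gg x y v) - (cJ J - (m + 1)) * ii x y| ≤ C * eJ J := by
  obtain ⟨K, hK, hDW⟩ := D_weight (m + 1) (max b 0)
  refine ⟨K * volume.real (Icc x y), by positivity, fun J => ?_⟩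
  have hq : ∀ u ∈ Icc x y, ∀ i, |(sn u) i| ≤ max b 0 := by
    intro u hu i
    unfold sn
    refine Fin.lastCases ?_ (fun i => ?_) i
    · simp only [Fin.snoc_last, abs_zero]
      exact le_max_right _ _
    · simp only [Fin.snoc_castSucc]
      refine le_trans ?_ (le_max_left _ _)
      rw [abs_le]
      have h1 := abs_le.1 (hb i).1
      have h2 := abs_le.1 (hb i).2
      have h3 := hu.1 i
      have h4 := hu.2 i
      constructor <;> linarith
  -- Fubini
  have hint : Integrable (Function.uncurry fun (v : ℝ) (u : Fin m → ℝ) =>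
      Ps J v * D (Fin.cons v (sn u) : Fin (m + 2) → ℝ)) (volume.prod (volume.restrict (Icc x y))) := by
    have h1 : Integrable (fun z : ℝ × (Fin m → ℝ) => Ps J z.1 * ((m + 2).factorial : ℝ))
        (volume.prod (volume.restrict (Icc x y))) := by
      haveI : IsFiniteMeasure (volume.restrict (Icc x y)) := ⟨by
        rw [Measure.restrict_apply_univ]; exact isCompact_Icc.measure_lt_top⟩
      exact (Ps_int J).mul_prod (integrable_const _)
    refine h1.mono' ?_ (ae_of_all _ fun z => ?_)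
    · exact (((Ps_cont J).comp continuous_fst).mul Dc_cont).aestronglyMeasurable
    · rw [Real.norm_eq_abs]
      show |Ps J z.1 * D (Fin.cons z.1 (sn z.2) : Fin (m + 2) → ℝ)| ≤ _
      rw [abs_mul, abs_of_nonneg (Ps_nonneg _ _)]
      exact mul_le_mul_of_nonneg_left (D_le _) (Ps_nonneg _ _)
  have e1 : ∫ v, Ps J v * gg x y v = ∫ u in Icc x y, ∫ v, Ps J v * D (Fin.cons v (sn u) : Fin (m + 2) → ℝ) := by
    rw [← integral_integral_swap hint]
    refine integral_congr_ae (ae_of_all _ fun v => ?_)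
    show Ps J v * gg x y v = ∫ u in Icc x y, Ps J v * D (Fin.cons v (sn u) : Fin (m + 2) → ℝ)
    unfold gg
    rw [integral_const_mul]
  have hin : ∀ u : Fin m → ℝ, Integrable fun v : ℝ => Ps J v * D (Fin.cons v (sn u) : Fin (m + 2) → ℝ) := by
    intro u
    refine ((Ps_int J).mul_const ((m + 2).factorial : ℝ)).mono' ?_ (ae_of_all _ fun v => ?_)
    · exact ((Ps_cont J).mul (Dc_cont.comp (by fun_prop : Continuous fun v : ℝ => (v, u)))).aestronglyMeasurable
    · rw [Real.norm_eq_abs, abs_mul, abs_of_nonneg (Ps_nonneg _ _)]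
      exact mul_le_mul_of_nonneg_left (D_le _) (Ps_nonneg _ _)
  have hone : ∀ u ∈ Icc x y, |(∫ v, Ps J v * D (Fin.cons v (sn u) : Fin (m + 2) → ℝ)) -
      (cJ J - (m + 1)) * D (sn u)| ≤ K * eJ J := by
    intro u hu
    have h1 := (hDW (sn u) (hq u hu)).2 (Ps J) (Ps_cont J) fun v => ⟨Ps_nonneg J v, Ps_le_one J v⟩
    have e2 : ∫ v, Ps J v * (D (sn u) - D (Fin.cons v (sn u) : Fin (m + 2) → ℝ)) =
        cJ J * D (sn u) - ∫ v, Ps J v * D (Fin.cons v (sn u) : Fin (m + 2) → ℝ) := by
      rw [← int_Ps, ← integral_mul_const, ← integral_sub ((Ps_int J).mul_const _) (hin u)]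
      refine integral_congr_ae (ae_of_all _ fun v => ?_)
      simp only
      ring
    rw [e2] at h1
    push_cast at h1
    rw [abs_sub_comm]
    refine le_trans (le_of_eq ?_) h1
    congr 1
    ring
  have hci : IntegrableOn (fun u : Fin m → ℝ => (cJ J - (m + 1)) * D (sn u)) (Icc x y) :=
    (continuous_const.mul (D_cont.comp sn_cont)).continuousOn.integrableOn_compact isCompact_Icc
  have hci2 : IntegrableOn (fun u : Fin m → ℝ => ∫ v, Ps J v * D (Fin.cons v (sn u) : Fin (m + 2) → ℝ))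
      (Icc x y) := hint.integral_prod_right
  rw [e1]
  unfold ii
  rw [← integral_const_mul, ← integral_sub hci2 hci, ← Real.norm_eq_abs]
  refine (norm_setIntegral_le_of_norm_le_const isCompact_Icc.measure_lt_top fun u hu => ?_).trans
    (le_of_eq (by ring : K * eJ J * volume.real (Icc x y) = K * volume.real (Icc x y) * eJ J))
  rw [Real.norm_eq_abs]
  exact hone u hu

end Pool.Agent.N805.OS
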