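import Pool.Agent.N805.OS.E5
import Pool.Agent.N805.OS.E6

/-! # The hierarchy -/

set_option autoImplicit false

open MeasureTheory Set Filter Topology

namespace Pool.Agent.N805.OS

open Pool.Agent.Y749.Rig
open SG (ord NZ zmult ZS)
open W200.HW (Ix mem_Ix card_Ix)

/-- the normalised count -/
noncomputable def rt {m : ℕ} (x y : Fin m → ℝ) (T : ℝ) : ℝ := ((At T x y).card : ℝ) / nT T

/-- one half of the asymptotics, level `m + 1` -/
def OneS (l : Filter ℝ) (σ : ℝ) (m : ℕ) : Prop := ∀ x y : Fin m → ℝ, (∀ i, x i < y i) →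
  ∀ ε : ℝ, 0 < ε → ∀ᶠ T in l, σ * (rt x y T - ii x y) ≤ ε

/-- the asymptotics, level `m + 1` -/
def EqL (l : Filter ℝ) (m : ℕ) : Prop := ∀ x y : Fin m → ℝ, (∀ i, x i < y i) →
  Tendsto (rt x y) l (𝓝 (ii x y))

variable {l : Filter ℝ} {σ : ℝ} {m : ℕ}

lemma osI_of (hl : l ≤ atTop) (h : OneS l σ (m + 1)) {x y : Fin m → ℝ} (hxy : ∀ i, x i < y i) :
    OsI l (mT x y) (gg x y) σ := by
  intro a b hab ε hε
  have h1 : ∀ i, (Fin.cons a x : Fin (m + 1) → ℝ) i < (Fin.cons b y : Fin (m + 1) → ℝ) i := by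
    intro i
    refine Fin.cases ?_ (fun i => ?_) i
    · simpa only [Fin.cons_zero] using hab
    · simpa only [Fin.cons_succ] using hxy i
  filter_upwards [h _ _ h1 ε hε, hl (eventually_ge_atTop 10)] with T h2 hT
  rw [mT_Icc x y hT]
  rw [ii_succ x y hab.le] at h2
  exact h2

/-- the two identities together -/
theorem both (RH : RiemannHypothesis) {x y : Fin m → ℝ} :
    ∃ d : ℕ → ℝ, Tendsto d atTop (𝓝 0) ∧ ∀ J : ℕ, 1 ≤ J → ∀ᶠ T in atTop,
      |((∫ v, Ps J v ∂(mT x y T)) - ∫ v, Ps J v * gg x y v) - (cJ J - (m + 1)) * (rt x y T - ii x y)| ≤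
        d J := by
  obtain ⟨C, hC, h1⟩ := star RH x y
  obtain ⟨b, hb1, hb⟩ := Inb.exists x y
  obtain ⟨C', hC', h2⟩ := sine_star x y hb
  refine ⟨fun J => C / Real.sqrt J + C' * eJ J, ?_, fun J hJ => ?_⟩
  · have h3 : Tendsto (fun J : ℕ => C / Real.sqrt J) atTop (𝓝 0) :=
      tendsto_const_nhds.div_atTop (Real.tendsto_sqrt_atTop.comp tendsto_natCast_atTop_atTop)
    have h4 := h3.add (eJ_lim.const_mul C')
    simpa using h4
  · filter_upwards [h1 J hJ] with T hT
    have h3 := h2 J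
    have e : ((∫ v, Ps J v ∂(mT x y T)) - ∫ v, Ps J v * gg x y v) - (cJ J - (m + 1)) * (rt x y T - ii x y) =
        ((∫ v, Ps J v ∂(mT x y T)) - (cJ J - (m + 1)) * (((At T x y).card : ℝ) / nT T)) -
        ((∫ v, Ps J v * gg x y v) - (cJ J - (m + 1)) * ii x y) := by
      unfold rt
      ring
    rw [e]
    exact (abs_sub _ _).trans (add_le_add hT h3)

lemma tst (RH : RiemannHypothesis) (hl : l ≤ atTop) (x y : Fin m → ℝ) (J : ℕ) : Tst l (mT x y) (Ps J) where
  cont := Ps_cont J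
  nonneg := Ps_nonneg J
  le_one := Ps_le_one J
  int := Ps_int J
  tl := fun ε hε => by
    obtain ⟨R0, h⟩ := mT_tl RH x y J ε hε
    exact ⟨R0, fun R hR => hl (h R hR)⟩

lemma bdI (RH : RiemannHypothesis) (hl : l ≤ atTop) (x y : Fin m → ℝ) : BdI l (mT x y) := by
  intro a b hab
  obtain ⟨C, h1, h2⟩ := mT_bdd RH x y a b hab
  exact ⟨C, h1, hl h2⟩

/-- **down** -/
theorem down (RH : RiemannHypothesis) (hl : l ≤ atTop) (hσ : σ = 1 ∨ σ = -1) (h : OneS l σ (m + 1)) :
    OneS l σ m := by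
  intro x y hxy ε hε
  obtain ⟨G, hG⟩ := gg_le x y
  obtain ⟨d, hd, hbo⟩ := both RH (x := x) (y := y)
  obtain ⟨J, hJ1, hJ2⟩ := ((eventually_ge_atTop (m + 2)).and
    (hd.eventually (Metric.ball_mem_nhds (0 : ℝ) (show 0 < ε / 2 by positivity)))).exists
  rw [Real.dist_eq, sub_zero] at hJ2
  have hJ1' : 1 ≤ J := by omega
  have hcJ : 1 ≤ cJ J - (m + 1) := by
    have h1 := cJ_ge J
    have h2 : ((m + 2 : ℕ) : ℝ) ≤ J := by exact_mod_cast hJ1
    push_cast at h2
    linarith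
  filter_upwards [hl (hbo J hJ1'), (pieces (mT_fin x y) (gg_cont x y) hG hσ (bdI RH hl x y)
    (osI_of hl h hxy) (tst RH hl x y J)).1 (ε / 2) (by positivity)] with T h1 h2
  have h3 := sig_ge hσ (((∫ v, Ps J v ∂(mT x y T)) - ∫ v, Ps J v * gg x y v) -
    (cJ J - (m + 1)) * (rt x y T - ii x y))
  have h4 : (cJ J - (m + 1)) * (σ * (rt x y T - ii x y)) ≤ ε := by
    have := le_abs_self (d J)
    linarith
  by_contra hc
  push Not at hc
  nlinarith

/-- **up** -/
theorem up (RH : RiemannHypothesis) (hl : l ≤ atTop) (hσ : σ = 1 ∨ σ = -1) (h0 : EqL l m)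
    (h : OneS l σ (m + 1)) : EqL l (m + 1) := by
  intro x' y' hxy'
  obtain ⟨a, x, rfl⟩ : ∃ (a : ℝ) (x : Fin m → ℝ), x' = Fin.cons a x :=
    ⟨x' 0, Fin.tail x', (Fin.cons_self_tail x').symm⟩
  obtain ⟨b, y, rfl⟩ : ∃ (b : ℝ) (y : Fin m → ℝ), y' = Fin.cons b y :=
    ⟨y' 0, Fin.tail y', (Fin.cons_self_tail y').symm⟩
  have hab : a < b := by simpa only [Fin.cons_zero] using hxy' 0
  have hxy : ∀ i, x i < y i := fun i => by simpa only [Fin.cons_succ] using hxy' i.succ
  obtain ⟨G, hG⟩ := gg_le x y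
  obtain ⟨d, hd, hbo⟩ := both RH (x := x) (y := y)
  rw [ii_succ x y hab.le]
  have h1 := ascent (mT_fin x y) (gg_cont x y) hG hσ (bdI RH hl x y) (osI_of hl h hxy) Ps
    (fun J _ => tst RH hl x y J) (show (0 : ℝ) ≤ 40 by norm_num) (fun J v hJ => Ps_ge hJ v) (fun ε hε => by
      obtain ⟨J0, hJ0⟩ := eventually_atTop.1
        (hd.eventually (Metric.ball_mem_nhds (0 : ℝ) (show 0 < ε / 2 by positivity)))
      refine ⟨max J0 1, fun J hJ => ?_⟩
      have hJ1 : 1 ≤ J := (le_max_right _ _).trans hJ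
      have hJ2 := hJ0 J ((le_max_left _ _).trans hJ)
      rw [Real.dist_eq, sub_zero] at hJ2
      have h2 : Tendsto (fun T => (cJ J - (m + 1)) * (rt x y T - ii x y)) l (𝓝 0) := by
        have h3 := ((h0 x y hxy).sub_const (ii x y)).const_mul (cJ J - (m + 1))
        simpa using h3
      filter_upwards [hl (hbo J hJ1), h2.eventually (Metric.ball_mem_nhds (0 : ℝ)
        (show 0 < ε / 2 by positivity))] with T h3 h4
      rw [Real.dist_eq, sub_zero] at h4
      have h5 := le_abs_self (d J)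
      rw [abs_le] at h3 ⊢
      rw [abs_lt] at h4
      constructor <;> linarith [h3.1, h3.2, h4.1, h4.2]) hab
  refine h1.congr' ?_
  filter_upwards [hl (eventually_ge_atTop 10)] with T hT
  exact mT_Icc x y hT a b

lemma At_zero (T : ℝ) (x y : Fin 0 → ℝ) : (At T x y).card = NZ T := by
  rw [← card_Ix]
  refine Finset.card_bij' (fun p _ => p.1) (fun n _ => (n, Fin.elim0)) ?_ ?_ ?_ ?_
  · intro p hp
    exact (mem_At.1 hp).1.1
  · intro n hn
    rw [mem_At]
    exact ⟨⟨hn, fun i => i.elim0⟩, fun i => i.elim0, fun i => i.elim0, fun i => i.elim0⟩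
  · intro p _
    exact Prod.ext rfl (funext fun i => i.elim0)
  · intro n _
    rfl

lemma ii_zero (x y : Fin 0 → ℝ) : ii x y = 1 := by
  have h1 : Icc x y = univ := by
    ext u
    simp only [mem_Icc, mem_univ, iff_true]
    exact ⟨fun i => i.elim0, fun i => i.elim0⟩
  have h2 : ∀ u : Fin 0 → ℝ, D (sn u) = 1 := by
    intro u
    unfold D Sm
    rw [Matrix.det_fin_one]
    simp [DT.S_zero]
  unfold ii
  rw [h1]
  simp_rw [h2]
  rw [Measure.volume_pi_eq_dirac (fun i : Fin 0 => i.elim0)]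
  simp

/-- level one -/
theorem base (hl : l ≤ atTop) : EqL l 0 := by
  intro x y _
  rw [ii_zero]
  refine Tendsto.mono_left ?_ hl
  rw [Metric.tendsto_nhds]
  intro ε hε
  filter_upwards [NZ_asymp (half_pos hε), eventually_ge_atTop 10] with T h1 hT
  have hn := nT_pos hT
  unfold rt
  rw [At_zero, Real.dist_eq]
  have h2 : |(NZ T : ℝ) / nT T - 1| ≤ ε / 2 := by
    rw [div_sub_one hn.ne', abs_div, abs_of_pos hn, div_le_iff₀ hn, abs_le]
    constructor <;> linarith [h1.1, h1.2]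
  linarith

/-- **the hierarchy** -/
theorem hier (RH : RiemannHypothesis) (hl : l ≤ atTop) (hσ : σ = 1 ∨ σ = -1) {K : ℕ} (h : OneS l σ K) :
    ∀ m ≤ K, EqL l m := by
  have h1 : ∀ d m : ℕ, m + d = K → OneS l σ m := by
    intro d
    induction d with
    | zero => intro m hm; rw [add_zero] at hm; rw [hm]; exact h
    | succ d ih => intro m hm; exact down RH hl hσ (ih (m + 1) (by omega))
  intro m
  induction m with
  | zero => intro _; exact base hl
  | succ m ih => intro hm; exact up RH hl hσ (ih (by omega)) (h1 (K - (m + 1)) (m + 1) (by omega))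

end Pool.Agent.N805.OS
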