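import Pool.Agent.N805.OS.E7
import Pool.Agent.N805.DT.E

/-! # The hierarchy: statement -/

set_option autoImplicit false

open MeasureTheory Set Filter Topology

namespace Pool.Agent.N805.OS

open Pool.Agent.Y749.Rig
open SG (ord NZ zmult ZS)
open W200.HW (Ix mem_Ix card_Ix)
open Pool.Agent.R320.KL (Nk)
open Pool.Agent.N805.DT (pt S)

lemma Nk_eq {k : ℕ} (T : ℝ) (x y : Fin k → ℝ) : Nk T x y = (At T x y).card := by
  classical
  have hset : {j : Option (Fin k) → ℕ | Function.Injective j ∧ (∀ i, 1 ≤ j i ∧ ord (j i) ≤ T) ∧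
      ∀ i : Fin k, (ord (j (some i)) - ord (j none)) * (Real.log T / (2 * Real.pi)) ∈ Icc (x i) (y i)} =
      (((At T x y).image (fun p (o : Option (Fin k)) => o.elim p.1 p.2) :
        Finset (Option (Fin k) → ℕ)) : Set (Option (Fin k) → ℕ)) := by
    ext j
    rw [mem_setOf_eq, Finset.mem_coe, Finset.mem_image]
    constructor
    · rintro ⟨h1, h2, h3⟩
      refine ⟨(j none, fun i => j (some i)), ?_, ?_⟩
      · rw [mem_At]
        refine ⟨⟨mem_Ix.2 (h2 none), fun i => mem_Ix.2 (h2 (some i))⟩, ?_, ?_, ?_⟩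
        · intro a b hab
          exact Option.some_injective _ (h1 hab)
        · intro i hi
          exact absurd (h1 hi) (by simp)
        · intro i
          have := h3 i
          rw [ps_sub]
          rw [mul_div_assoc]
          exact this
      · funext o
        cases o <;> rfl
    · rintro ⟨p, hp, rfl⟩
      obtain ⟨⟨h1, h2⟩, h3, h4, h5⟩ := mem_At.1 hp
      refine ⟨?_, ?_, ?_⟩
      · intro a b hab
        cases a with
        | none =>
          cases b with
          | none => rfl
          | some b => exact absurd hab.symm (h4 b)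
        | some a =>
          cases b with
          | none => exact absurd hab (h4 a)
          | some b => exact congrArg some (h3 hab)
      · intro o
        cases o with
        | none => exact mem_Ix.1 h1
        | some i => exact mem_Ix.1 (h2 i)
      · intro i
        have := h5 i
        rw [ps_sub, mul_div_assoc] at this
        exact this
  have hinj : Function.Injective (fun (p : ℕ × (Fin k → ℕ)) (o : Option (Fin k)) => o.elim p.1 p.2) := by
    intro p q h
    refine Prod.ext (congrFun h none) (funext fun i => congrFun h (some i))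
  unfold Nk
  rw [hset, Set.ncard_coe_finset, Finset.card_image_of_injective _ hinj]

lemma D_opt {k : ℕ} (u : Fin k → ℝ) : Matrix.det (Matrix.of fun i j : Option (Fin k) =>
    S (pt 0 u i - pt 0 u j)) = D (sn u) := by
  have e := Matrix.det_submatrix_equiv_self (finSuccEquivLast (n := k))
    (Matrix.of fun i j : Option (Fin k) => S (pt 0 u i - pt 0 u j))
  rw [← e]
  unfold D Sm
  congr 1
  ext i j
  have h1 : ∀ i : Fin (k + 1), pt 0 u (finSuccEquivLast i) = sn u i := by
    intro i
    unfold sn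
    refine Fin.lastCases ?_ (fun i => ?_) i
    · rw [finSuccEquivLast_last, Fin.snoc_last]
      rfl
    · rw [finSuccEquivLast_castSucc, Fin.snoc_castSucc]
      simp [pt]
  simp only [Matrix.submatrix_apply, Matrix.of_apply]
  rw [h1, h1]

/-- the integral of the determinant -/
noncomputable def I {k : ℕ} (x y : Fin k → ℝ) : ℝ :=
  ∫ u in Icc x y, Matrix.det (Matrix.of fun i j : Option (Fin k) => S (pt 0 u i - pt 0 u j))

lemma I_eq {k : ℕ} (x y : Fin k → ℝ) : I x y = ii x y := by
  unfold I ii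
  simp_rw [D_opt]

/-- `(T / 2π) log T` -/
noncomputable def X (T : ℝ) : ℝ := T / (2 * Real.pi) * Real.log T

lemma X_eq (T : ℝ) : X T = nT T := by unfold X nT; ring

/-- the upper half -/
def Upper (l : Filter ℝ) (k : ℕ) : Prop := ∀ x y : Fin k → ℝ, (∀ i, x i < y i) →
  ∀ ε : ℝ, 0 < ε → ∀ᶠ T in l, (Nk T x y : ℝ) / X T ≤ I x y + ε

/-- the lower half -/
def Lower (l : Filter ℝ) (k : ℕ) : Prop := ∀ x y : Fin k → ℝ, (∀ i, x i < y i) →
  ∀ ε : ℝ, 0 < ε → ∀ᶠ T in l, I x y - ε ≤ (Nk T x y : ℝ) / X T

/-- the full asymptotics -/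
def Full (l : Filter ℝ) (k : ℕ) : Prop := ∀ x y : Fin k → ℝ, (∀ i, x i < y i) →
  Tendsto (fun T => (Nk T x y : ℝ) / X T) l (𝓝 (I x y))

theorem main (RH : RiemannHypothesis) (l : Filter ℝ) (hl : l ≤ atTop) :
    (∀ K : ℕ, 1 ≤ K → (Upper l K ∨ Lower l K) → ∀ k : ℕ, 1 ≤ k → k ≤ K → Full l k) ∧
    ((∀ k : ℕ, 1 ≤ k → Full l k) ↔ ∀ K₀ : ℕ, ∃ K : ℕ, K₀ ≤ K ∧ (Upper l K ∨ Lower l K)) := by
  have hrt : ∀ {k : ℕ} (x y : Fin k → ℝ) (T : ℝ), (Nk T x y : ℝ) / X T = rt x y T := by
    intro k x y T
    unfold rt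
    rw [Nk_eq, X_eq]
  have h1 : ∀ K : ℕ, (Upper l K ∨ Lower l K) → ∀ k : ℕ, k ≤ K → Full l k := by
    intro K hK k hk
    have h2 : EqL l k := by
      rcases hK with h | h
      · refine hier RH hl (Or.inl rfl) (K := K) (fun x y hxy ε hε => ?_) k hk
        filter_upwards [h x y hxy ε hε] with T hT
        rw [hrt, I_eq] at hT
        linarith
      · refine hier RH hl (Or.inr rfl) (K := K) (fun x y hxy ε hε => ?_) k hk
        filter_upwards [h x y hxy ε hε] with T hT
        rw [hrt, I_eq] at hT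
        linarith
    intro x y hxy
    rw [I_eq]
    exact (h2 x y hxy).congr fun T => (hrt x y T).symm
  refine ⟨fun K _ h k _ hk => h1 K h k hk, fun h K₀ => ?_, fun h k hk => ?_⟩
  · refine ⟨max K₀ 1, le_max_left _ _, Or.inl fun x y hxy ε hε => ?_⟩
    have h2 := (h (max K₀ 1) (le_max_right _ _) x y hxy).eventually_le_const (show I x y < I x y + ε by linarith)
    exact h2
  · obtain ⟨K, hK, h2⟩ := h k
    exact h1 K h2 k hK

end Pool.Agent.N805.OS
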